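import Pool.Agent.H459R3.NS.Defs

/-!
One time slice counts the singular points of a Navier-Stokes flow: definitions.
-/

set_option autoImplicit false

open MeasureTheory Set Metric

namespace Run7.h219.Pub

open H459R3.NS

/-- The square of the Euclidean length: `|v(x)|²`. -/
noncomputable def nsq (v : V → V) (x : V) : ℝ := ∑ i, v x i ^ 2

/-- The point `x` is singular at the time `T`: `u` is unbounded on `(T - δ, T) × B(x, δ)` for every
`δ > 0`. -/
def Sing (T : ℝ) (u : ℝ → V → V) (x : V) : Prop :=
  ∀ δ > 0, ∀ B : ℝ, ∃ t ∈ Ioo (T - δ) T, ∃ y ∈ ball x δ, B < ‖u t y‖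

/-- The part of the period cell where the speed `|v|` is greater than `l`. -/
def fast (l : ℝ) (v : V → V) : Set V := {x ∈ cube | l < √(nsq v x)}

/-- The weak `L^q` norm of `v` on the period cell is at most `M`. -/
def Weak (q M : ℝ) (v : V → V) : Prop :=
  ∀ l : ℝ, 0 < l → volume (fast l v) ≤ ENNReal.ofReal ((M / l) ^ q)

end Run7.h219.Pub
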