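import Pool.Agent.Run7.h219.SL.Count3
import Pool.Agent.W221.NS.Asm2

/-!
Counting of singular points of periodic solutions: the gradient is bounded by a function and a small
constant.
-/

set_option autoImplicit false

open MeasureTheory Set Metric Filter
open scoped ContDiff Topology ENNReal

namespace Run7.h219.SL

open H459R3.NS W221.NS

lemma per_ball {F : V → ℝ≥0∞} (hm : Measurable F) (hp : Per F) :
    ∫⁻ y in ball (0 : V) 3, F y ≤ 216 * ∫⁻ y in cube, F y := by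
  have hc : MeasurableSet cube := measurableSet_Icc
  have hcell : ∀ m, ∫⁻ x in Pool.Agent.W376.ME.cell m, F x = ∫⁻ x in cube, F x := by
    intro m
    have h1 := (measurePreserving_sub_right (volume : Measure V)
      (fun i => (Pool.Agent.W376.ME.shf m i : ℝ))).setLIntegral_comp_preimage hc hm
    rw [← h1]
    refine lintegral_congr fun x => ?_
    have h2 := hp.int (fun i => -Pool.Agent.W376.ME.shf m i) x
    have h3 : (x + fun i => ((-Pool.Agent.W376.ME.shf m i : ℤ) : ℝ))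
        = x - fun i => (Pool.Agent.W376.ME.shf m i : ℝ) := by
      funext i
      simp [sub_eq_add_neg]
    rw [h3] at h2
    rw [h2]
  calc ∫⁻ y in ball (0 : V) 3, F y ≤ ∫⁻ y in ⋃ m, Pool.Agent.W376.ME.cell m, F y :=
        lintegral_mono_set Pool.Agent.W376.ME.cover
    _ ≤ ∑' m, ∫⁻ y in Pool.Agent.W376.ME.cell m, F y := lintegral_iUnion_le _ _
    _ = 216 * ∫⁻ y in cube, F y := by
        simp only [hcell]
        rw [tsum_fintype, Finset.sum_const, nsmul_eq_mul]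
        congr 1

/-- The number of separated singular points of a periodic solution. -/
theorem peri3 : ∃ C ε : ℝ, 0 < C ∧ 0 < ε ∧ ∀ (T : ℝ) (u : ℝ → V → V) (p : ℝ → V → ℝ), 0 < T →
    IsSol 1 T u p → ∀ r : ℝ, 0 < r → 2 * r ^ 2 < T → C * (1 + energy (u 0)) * r ≤ 1 →
    ∀ g : ℝ → V → ℝ, ContinuousOn (fun z : ℝ × V => g z.1 z.2) (Ioo 0 T ×ˢ univ) →
    (∀ t ∈ Ioo (T - 2 * r ^ 2) T, Per (g t)) →
    (∀ t ∈ Ioo (T - 2 * r ^ 2) T, ∀ y, 0 ≤ g t y ∧ gsq (u t) y ≤ 2 * g t y + ε / r ^ 4) →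
    ∀ S : Finset V, (∀ x ∈ S, x ∈ cube ∧ Sing T u x) →
    (∀ x ∈ S, ∀ y ∈ S, x ≠ y → r / 4 ≤ ‖x - y‖) →
      ENNReal.ofReal (S.card * r) ≤ ENNReal.ofReal C *
        ∫⁻ τ in Ioo (T - 2 * r ^ 2) T, ∫⁻ y in cube, ENNReal.ofReal (g τ y) := by
  obtain ⟨C₂, ε, hC₂, hε, h⟩ := t_COUNT3 B.p_local B.p_moll2 B.p_flowx2 B.p_flowm2 B.p_frame2
  obtain ⟨C₁, hC₁, h1⟩ := B.p_perl
  refine ⟨C₂ ^ 2 * C₁ ^ 2 + C₂ + 216 * C₂, ε, by positivity, hε, ?_⟩
  intro T u p hT hu r hr hrT hCr g hg hgp hgu S hS hsep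
  set e := energy (u 0) with he
  have he0 : 0 ≤ e := W919.MF.energy_nonneg _
  set κ := C₁ * √e with hκ
  have hκ0 : 0 ≤ κ := by positivity
  have hL := h1 T u p hT hu
  -- the smallness conditions
  have hsq : (C₂ * κ * √r) ^ 2 ≤ 1 := by
    have e1 : (C₂ * κ * √r) ^ 2 = C₂ ^ 2 * C₁ ^ 2 * e * r := by
      rw [mul_pow, mul_pow, hκ, mul_pow, Real.sq_sqrt he0, Real.sq_sqrt hr.le]
      ring
    rw [e1]
    have e2 : C₂ ^ 2 * C₁ ^ 2 * e * r ≤ (C₂ ^ 2 * C₁ ^ 2 + C₂ + 216 * C₂) * (1 + e) * r := by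
      have h5 : 0 ≤ C₂ ^ 2 * C₁ ^ 2 * r := by positivity
      have h6 : 0 ≤ (C₂ + 216 * C₂) * (1 + e) * r := by positivity
      nlinarith
    linarith
  have hc1 : C₂ * κ * √r ≤ 1 := by
    have h5 : 0 ≤ C₂ * κ * √r := by positivity
    nlinarith
  have hc2 : C₂ * r ≤ 1 := by
    have h5 : 0 ≤ C₂ ^ 2 * C₁ ^ 2 * (1 + e) * r := by positivity
    have h6 : 0 ≤ 216 * C₂ * (1 + e) * r := by positivity
    have h7 : 0 ≤ C₂ * e * r := by positivity
    nlinarith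
  have key := h T κ κ (ball 0 3) (fun t x => zt x • u t x) (fun t x => zt x * p t x) hκ0 hκ0 hL
    r hr hrT hc1 g hg (fun t ht y hy => by
      rw [Pool.Agent.W376.ME.gsq_cut (u t) hy]
      exact hgu t ht y) S
    (fun x hx => W919.MF.sing_cut (hS x hx).1 (hS x hx).2)
    (fun x hx => by
      intro y hy
      have h5 := W919.MF.norm_le_of_cube (hS x hx).1
      rw [mem_ball, dist_eq_norm] at hy
      rw [mem_ball, dist_zero_right]
      have h6 : ‖y‖ ≤ ‖y - x‖ + ‖x‖ := by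
        have := norm_add_le (y - x) x
        simpa using this
      have h7 : C₂ * (r + κ * √r) = C₂ * r + C₂ * κ * √r := by ring
      rw [h7] at hy
      linarith) hsep
  have hgm : ∀ τ ∈ Ioo (T - 2 * r ^ 2) T, Measurable fun y => ENNReal.ofReal (g τ y) := by
    intro τ hτ
    have hτ' : τ ∈ Ioo 0 T := ⟨by linarith [hτ.1], hτ.2⟩
    have hgc : Continuous (fun y => g τ y) :=
      hg.comp_continuous (f := fun y : V => ((τ, y) : ℝ × V)) (by fun_prop)
        (fun y => ⟨hτ', mem_univ _⟩)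
    exact hgc.measurable.ennreal_ofReal
  have hb : (∫⁻ τ in Ioo (T - 2 * r ^ 2) T, ∫⁻ y in ball (0 : V) 3, ENNReal.ofReal (g τ y))
      ≤ 216 * ∫⁻ τ in Ioo (T - 2 * r ^ 2) T, ∫⁻ y in cube, ENNReal.ofReal (g τ y) := by
    rw [← lintegral_const_mul' _ _ (by norm_num)]
    refine setLIntegral_mono' measurableSet_Ioo fun τ hτ => ?_
    exact per_ball (hgm τ hτ) fun i x => by rw [hgp τ hτ i x]
  refine (key.trans (mul_le_mul_right hb _)).trans ?_
  rw [← mul_assoc]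
  refine mul_le_mul_left ?_ _
  have e2 : (216 : ℝ≥0∞) = ENNReal.ofReal 216 := by simp
  rw [e2, ← ENNReal.ofReal_mul hC₂.le]
  apply ENNReal.ofReal_le_ofReal
  have : 0 ≤ C₂ ^ 2 * C₁ ^ 2 := by positivity
  linarith

end Run7.h219.SL
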