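import Pool.Agent.Run7.h219.SL.Evo
import Pool.Agent.Run7.h219.SL.Peri3
import Pool.Agent.H459R3.NS.High2

/-!
One time slice counts the singular points: viscosity one.
-/

set_option autoImplicit false

open MeasureTheory Set Filter Topology
open scoped ContDiff NNReal ENNReal

namespace Run7.h219.SL

open H459R3.NS W221.NS

/-- Shift in time. -/
lemma isSol_shift {ν T : ℝ} {u : ℝ → V → V} {p : ℝ → V → ℝ} (h : IsSol ν T u p) {a : ℝ}
    (ha : 0 ≤ a) : IsSol ν (T - a) (fun t => u (a + t)) (fun t => p (a + t)) := by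
  have hmap : ∀ t ∈ Ico 0 (T - a), a + t ∈ Ico 0 T := fun t ht =>
    ⟨by linarith [ht.1], by linarith [ht.2]⟩
  have hmap' : ∀ t ∈ Ioo 0 (T - a), a + t ∈ Ioo 0 T := fun t ht =>
    ⟨by linarith [ht.1], by linarith [ht.2]⟩
  constructor
  · exact h.smooth_u.comp (f := fun z : ℝ × V => (a + z.1, z.2)) (by fun_prop)
      (fun z hz => ⟨hmap _ hz.1, mem_univ _⟩)
  · exact h.smooth_p.comp (f := fun z : ℝ × V => (a + z.1, z.2)) (by fun_prop)
      (fun z hz => ⟨hmap _ hz.1, mem_univ _⟩)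
  · exact fun t ht => h.per_u _ (hmap t ht)
  · exact fun t ht => h.per_p _ (hmap t ht)
  · exact fun t ht => h.divfree _ (hmap t ht)
  · intro t ht x i
    have h1 := h.momentum (a + t) (hmap' t ht) x i
    have h2 : deriv (fun s => u (a + s) x i) t = deriv (fun s => u s x i) (a + t) :=
      deriv_comp_const_add (f := fun s => u s x i) a t
    rw [h2]
    exact h1

lemma sing_shift {T : ℝ} {u : ℝ → V → V} {x : V} (h : Sing T u x) (a : ℝ) :
    Sing (T - a) (fun t => u (a + t)) x := by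
  intro δ hδ B
  obtain ⟨t, ht, y, hy, hB⟩ := h δ hδ B
  refine ⟨t - a, ⟨by linarith [ht.1], by linarith [ht.2]⟩, y, hy, ?_⟩
  simpa using hB

/-! ### The truncated slice -/

/-- The truncated field. -/
noncomputable def bt (κ : ℝ) (v : V → V) (i : Fin 3) (x : V) : ℝ := v x i / (1 + κ * nsq v x)

lemma nsq_nn (v : V → V) (x : V) : 0 ≤ nsq v x := Finset.sum_nonneg fun _ _ => sq_nonneg _

lemma nsq_sp {v : V → V} (hv : ∀ i, SP (fun y => v y i)) : SP (nsq v) := by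
  have : nsq v = fun x => ∑ i, v x i ^ 2 := rfl
  rw [this]
  exact SP.sum fun i _ => sp_sq (hv i)

lemma bt_sp {v : V → V} (hv : ∀ i, SP (fun y => v y i)) {κ : ℝ} (hκ : 0 ≤ κ) (i : Fin 3) :
    SP (bt κ v i) := by
  have hn := nsq_sp hv
  have hpos : ∀ x, 1 + κ * nsq v x ≠ 0 := fun x => by
    have := mul_nonneg hκ (nsq_nn v x)
    linarith
  constructor
  · unfold bt
    exact (hv i).smooth.div (contDiff_const.add (contDiff_const.mul hn.smooth)) hpos
  · intro j x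
    unfold bt
    rw [hn.per j x]
    have h1 : v (x + Pi.single j 1) i = v x i := (hv i).per j x
    rw [h1]

lemma bt_bd {c r : ℝ} (hc : 0 < c) (hr : 0 < r) (v : V → V) (i : Fin 3) (x : V) :
    |bt (r ^ 2 / c ^ 2) v i x| ≤ c / r := by
  unfold bt
  have hN : 0 ≤ r ^ 2 / c ^ 2 * nsq v x := mul_nonneg (by positivity) (nsq_nn v x)
  rw [abs_div, abs_of_pos (show 0 < 1 + r ^ 2 / c ^ 2 * nsq v x by linarith),
    div_le_div_iff₀ (by linarith) hr]
  have h1 : v x i ^ 2 ≤ nsq v x :=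
    Finset.single_le_sum (f := fun i => v x i ^ 2) (fun _ _ => sq_nonneg _) (Finset.mem_univ i)
  have h2 : (|v x i| * r / c) ^ 2 ≤ r ^ 2 / c ^ 2 * nsq v x := by
    rw [div_pow, mul_pow, sq_abs]
    calc v x i ^ 2 * r ^ 2 / c ^ 2 = r ^ 2 / c ^ 2 * v x i ^ 2 := by ring
      _ ≤ _ := mul_le_mul_of_nonneg_left h1 (by positivity)
  have h3 : |v x i| * r / c ≤ 1 + r ^ 2 / c ^ 2 * nsq v x := by
    nlinarith [sq_nonneg (|v x i| * r / c - 1)]
  rw [div_le_iff₀ hc] at h3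
  linarith

lemma bt_alg {c r t : ℝ} (hc : 0 < c) (hc1 : c ≤ 1) (hr : 0 < r) (ht : t ≤ r ^ 2)
    (v : V → V) (x : V) :
    ∑ i, (v x i - bt (r ^ 2 / c ^ 2) v i x) ^ 2 + 80 * t * (∑ i, bt (r ^ 2 / c ^ 2) v i x ^ 2) ^ 2
      ≤ 81 / c ^ 2 * (nsq v x * min 1 (r ^ 2 * nsq v x)) := by
  obtain ⟨N, hN⟩ : ∃ N, N = nsq v x := ⟨_, rfl⟩
  have hN0 : 0 ≤ N := by rw [hN]; exact nsq_nn v x
  obtain ⟨y, hy⟩ : ∃ y, y = r ^ 2 / c ^ 2 * N := ⟨_, rfl⟩
  have hy0 : 0 ≤ y := by rw [hy]; positivity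
  have h1y : 0 < 1 + y := by linarith
  have e1 : ∑ i, (v x i - bt (r ^ 2 / c ^ 2) v i x) ^ 2 = N * (y / (1 + y)) ^ 2 := by
    have : ∀ i, (v x i - bt (r ^ 2 / c ^ 2) v i x) ^ 2 = v x i ^ 2 * (y / (1 + y)) ^ 2 := by
      intro i
      unfold bt
      rw [← hN, ← hy]
      field_simp
      ring
    simp_rw [this]
    rw [← Finset.sum_mul, hN]
    rfl
  have e2 : ∑ i, bt (r ^ 2 / c ^ 2) v i x ^ 2 = N / (1 + y) ^ 2 := by
    have : ∀ i, bt (r ^ 2 / c ^ 2) v i x ^ 2 = v x i ^ 2 / (1 + y) ^ 2 := by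
      intro i
      unfold bt
      rw [← hN, ← hy, div_pow]
    simp_rw [this]
    rw [← Finset.sum_div, hN]
    rfl
  obtain ⟨m, hm⟩ : ∃ m, m = min 1 y := ⟨_, rfl⟩
  have hm0 : 0 ≤ m := by rw [hm]; exact le_min zero_le_one hy0
  have a1 : (y / (1 + y)) ^ 2 ≤ m := by
    have b1 : y / (1 + y) ≤ 1 := by rw [div_le_one h1y]; linarith
    have b2 : y / (1 + y) ≤ y := div_le_self hy0 (by linarith)
    have b3 : 0 ≤ y / (1 + y) := by positivity
    have b4 : y / (1 + y) ≤ m := by rw [hm]; exact le_min b1 b2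
    nlinarith
  have a2 : y * ((1 + y) ^ 4)⁻¹ ≤ m := by
    have b0 : 1 + y ≤ (1 + y) ^ 4 := by
      have : (1 : ℝ) ≤ 1 + y := by linarith
      calc 1 + y = (1 + y) ^ 1 := (pow_one _).symm
        _ ≤ (1 + y) ^ 4 := pow_le_pow_right₀ this (by norm_num)
    rw [hm, ← div_eq_mul_inv]
    refine le_min ?_ ?_
    · rw [div_le_one (by positivity)]
      linarith
    · exact div_le_self hy0 (by linarith)
  have a3 : 80 * t * (N / (1 + y) ^ 2) ^ 2 ≤ 80 * (N * m) := by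
    have b1 : (N / (1 + y) ^ 2) ^ 2 = N * N * ((1 + y) ^ 4)⁻¹ := by
      field_simp
    have b2 : r ^ 2 * N = c ^ 2 * y := by rw [hy]; field_simp
    calc 80 * t * (N / (1 + y) ^ 2) ^ 2 ≤ 80 * r ^ 2 * (N / (1 + y) ^ 2) ^ 2 := by gcongr
      _ = 80 * (c ^ 2 * (N * (y * ((1 + y) ^ 4)⁻¹))) := by
          rw [b1]
          calc 80 * r ^ 2 * (N * N * ((1 + y) ^ 4)⁻¹) = 80 * (N * (r ^ 2 * N) * ((1 + y) ^ 4)⁻¹) := by ring
            _ = _ := by rw [b2]; ring
      _ ≤ 80 * (1 * (N * m)) := by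
          have : c ^ 2 ≤ 1 := by nlinarith
          gcongr
      _ = _ := by ring
  have a4 : m ≤ 1 / c ^ 2 * min 1 (r ^ 2 * N) := by
    have hc2 : 0 < c ^ 2 := by positivity
    rw [hm, one_div, inv_mul_eq_div, le_div_iff₀ hc2]
    refine le_min ?_ ?_
    · have : c ^ 2 ≤ 1 := by nlinarith
      calc min 1 y * c ^ 2 ≤ 1 * 1 := mul_le_mul (min_le_left _ _) this hc2.le zero_le_one
        _ = 1 := one_mul 1
    · calc min 1 y * c ^ 2 ≤ y * c ^ 2 := mul_le_mul_of_nonneg_right (min_le_right _ _) hc2.le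
        _ = r ^ 2 * N := by rw [hy]; field_simp
  rw [e1, e2, ← hN]
  have a5 : N * (y / (1 + y)) ^ 2 ≤ N * m := mul_le_mul_of_nonneg_left a1 hN0
  have a6 : N * m ≤ N * (1 / c ^ 2 * min 1 (r ^ 2 * N)) := mul_le_mul_of_nonneg_left a4 hN0
  calc N * (y / (1 + y)) ^ 2 + 80 * t * (N / (1 + y) ^ 2) ^ 2 ≤ N * m + 80 * (N * m) := add_le_add a5 a3
    _ = 81 * (N * m) := by ring
    _ ≤ 81 * (N * (1 / c ^ 2 * min 1 (r ^ 2 * N))) := by linarith
    _ = _ := by ring

/-! ### Integrals over an open interval -/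

lemma sup_lint {f : ℝ → ℝ} {T K : ℝ} (hT : 0 < T) (hf : ContinuousOn f (Ico 0 T)) (h0 : ∀ t, 0 ≤ f t)
    (h : ∀ t ∈ Ioo 0 T, ∫ s in (0 : ℝ)..t, f s ≤ K) :
    ∫⁻ t in Ioo 0 T, ENNReal.ofReal (f t) ≤ ENNReal.ofReal K := by
  obtain ⟨a, ha⟩ : ∃ a : ℕ → ℝ, a = fun n : ℕ => T - T / ((n : ℝ) + 2) := ⟨_, rfl⟩
  have ha1 : ∀ n, a n ∈ Ioo 0 T := by
    intro n
    have hn : (0 : ℝ) < n + 2 := by positivity
    have h1 : T / (n + 2) < T := div_lt_self hT (by linarith [(Nat.cast_nonneg n : (0 : ℝ) ≤ n)])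
    have h2 : 0 < T / (n + 2) := by positivity
    rw [ha]
    constructor <;> simp only <;> linarith
  have hmono : Monotone a := by
    intro m n hmn
    rw [ha]
    simp only
    have h1 : (m : ℝ) ≤ n := by exact_mod_cast hmn
    have : T / ((n : ℝ) + 2) ≤ T / (m + 2) := by gcongr
    linarith
  have hU : Ioo 0 T = ⋃ n, Ioc 0 (a n) := by
    ext t
    simp only [mem_Ioo, mem_iUnion, mem_Ioc]
    constructor
    · rintro ⟨h1, h2⟩
      obtain ⟨n, hn⟩ := exists_nat_gt (T / (T - t))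
      have h3 : 0 < T - t := by linarith
      refine ⟨n, h1, ?_⟩
      rw [ha]
      simp only
      have h4 : T / ((n : ℝ) + 2) ≤ T - t := by
        rw [div_lt_iff₀ h3] at hn
        rw [div_le_iff₀ (by positivity)]
        nlinarith
      linarith
    · rintro ⟨n, h1, h2⟩
      exact ⟨h1, h2.trans_lt (ha1 n).2⟩
  rw [hU, setLIntegral_iUnion_of_directed]
  · refine iSup_le fun n => ?_
    have h1 := ha1 n
    have hint : IntegrableOn f (Ioc 0 (a n)) :=
      ((hf.mono fun s hs => ⟨hs.1, hs.2.trans_lt h1.2⟩ : ContinuousOn f (Icc 0 (a n))).integrableOn_Icc).mono_set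
        Ioc_subset_Icc_self
    rw [← ofReal_integral_eq_lintegral_ofReal hint (ae_of_all _ h0)]
    apply ENNReal.ofReal_le_ofReal
    have := h _ h1
    rwa [intervalIntegral.integral_of_le h1.1.le] at this
  · exact (monotone_nat_of_le_succ fun n => Ioc_subset_Ioc_right (hmono n.le_succ)).directed_le

/-! ### Viscosity one -/

/-- The squared difference of the gradients. -/
noncomputable def gg (u : ℝ → V → V) (b : Fin 3 → V → ℝ) (t : ℝ) (x : V) : ℝ :=
  ∑ i, ∑ j, (pd j (fun y => u t y i) x - P t (pd j (b i)) x) ^ 2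

lemma gg_nn (u : ℝ → V → V) (b : Fin 3 → V → ℝ) (t : ℝ) (x : V) : 0 ≤ gg u b t x :=
  Finset.sum_nonneg fun _ _ => Finset.sum_nonneg fun _ _ => sq_nonneg _

lemma gg_sp {T : ℝ} {u : ℝ → V → V} {p : ℝ → V → ℝ} (h : IsSol 1 T u p) {b : Fin 3 → V → ℝ}
    (hb : ∀ i, SP (b i)) {t : ℝ} (ht : t ∈ Ico 0 T) : SP (gg u b t) := by
  have : gg u b t = fun x => ∑ i, ∑ j, (pd j (fun y => u t y i) x - P t (pd j (b i)) x) ^ 2 := rfl
  rw [this]
  exact SP.sum fun i _ => SP.sum fun j _ => sp_sq (sp_sub ((h.sp ht i).pd j) (P_sp ((hb i).pd j) ht.1))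

lemma gg_int {T : ℝ} {u : ℝ → V → V} {p : ℝ → V → ℝ} (h : IsSol 1 T u p) {b : Fin 3 → V → ℝ}
    (hb : ∀ i, SP (b i)) {t : ℝ} (ht : t ∈ Ico 0 T) : I (gg u b t) = di u b t := by
  have : gg u b t = fun x => ∑ i, ∑ j, (pd j (fun y => u t y i) x - P t (pd j (b i)) x) ^ 2 := rfl
  rw [this]
  unfold di
  have hs : ∀ i j, SP (fun x => (pd j (fun y => u t y i) x - P t (pd j (b i)) x) ^ 2) := fun i j =>
    sp_sq (sp_sub ((h.sp ht i).pd j) (P_sp ((hb i).pd j) ht.1))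
  rw [I_sum fun i _ => SP.sum fun j _ => hs i j]
  exact Finset.sum_congr rfl fun i _ => I_sum fun j _ => hs i j

/-- The functional. -/
noncomputable def Fn (r : ℝ) (v : V → V) : ℝ := ∫ x in cube, nsq v x * min 1 (r ^ 2 * nsq v x)

theorem main1 : ∃ C : ℝ, 0 < C ∧ ∀ (T : ℝ) (u : ℝ → V → V) (p : ℝ → V → ℝ), 0 < T →
    IsSol 1 T u p → ∃ r₀ : ℝ, 0 < r₀ ∧ ∀ r : ℝ, 0 < r → r < r₀ → ∀ S : Finset V,
      (∀ x ∈ S, x ∈ cube ∧ Sing T u x) → (∀ x ∈ S, ∀ y ∈ S, x ≠ y → r ≤ ‖x - y‖) →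
        S.card * r ≤ C * Fn r (u (T - r ^ 2)) := by
  obtain ⟨C, ε, hC, hε, H⟩ := peri3
  obtain ⟨c, hc, hc1, hcε⟩ : ∃ c : ℝ, 0 < c ∧ c ≤ 1 ∧ 11 * c ^ 2 ≤ 256 * ε := by
    refine ⟨min 1 ε, lt_min one_pos hε, min_le_left _ _, ?_⟩
    have h0 : 0 < min 1 ε := lt_min one_pos hε
    have h1 := min_le_left 1 ε
    have h2 := min_le_right 1 ε
    nlinarith
  refine ⟨4 * C * (Real.exp 600 * (81 / c ^ 2)), by positivity, ?_⟩
  intro T u p hT hu
  obtain ⟨e, he⟩ : ∃ e, e = energy (u 0) := ⟨_, rfl⟩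
  have he0 : 0 ≤ e := by rw [he]; exact W919.MF.energy_nonneg _
  refine ⟨min (√T) (1 / (C * (1 + e))), by positivity, ?_⟩
  intro r hr hr0 S hS hsep
  have hr2 : 0 < r ^ 2 := by positivity
  have hrT : r ^ 2 < T := by
    have h1 := hr0.trans_le (min_le_left _ _)
    rwa [Real.lt_sqrt hr.le] at h1
  have hrC : C * (1 + e) * r ≤ 1 := by
    have h1 := hr0.trans_le (min_le_right _ _)
    rw [lt_div_iff₀ (by positivity)] at h1
    linarith
  have hI0 : T - r ^ 2 ∈ Ico 0 T := ⟨by linarith, by linarith⟩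
  -- the shifted solution
  have hs := isSol_shift hu hI0.1
  rw [sub_sub_cancel] at hs
  obtain ⟨w, hw⟩ : ∃ w : ℝ → V → V, w = fun t => u (T - r ^ 2 + t) := ⟨_, rfl⟩
  rw [← hw] at hs
  obtain ⟨v, hv⟩ : ∃ v, v = u (T - r ^ 2) := ⟨_, rfl⟩
  have hw0 : w 0 = v := by rw [hw, hv]; simp
  have hvs : ∀ i, SP (fun y => v y i) := fun i => by rw [hv]; exact hu.sp hI0 i
  obtain ⟨b, hbdef⟩ : ∃ b, b = bt (r ^ 2 / c ^ 2) v := ⟨_, rfl⟩
  have hb : ∀ i, SP (b i) := fun i => by rw [hbdef]; exact bt_sp hvs (by positivity) i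
  have hbB : ∀ i x, |b i x| ≤ c / r := fun i x => by rw [hbdef]; exact bt_bd hc hr v i x
  -- the counting
  obtain ⟨ρ, hρ⟩ : ∃ ρ, ρ = r / 4 := ⟨_, rfl⟩
  have hρ0 : 0 < ρ := by rw [hρ]; positivity
  have hρ2 : 2 * ρ ^ 2 = r ^ 2 / 8 := by rw [hρ]; ring
  have hen : energy (w 0) ≤ e := by
    rw [hw0, hv, he]
    exact hu.energy_le one_pos hI0
  have key := H (r ^ 2) w _ hr2 hs ρ hρ0 (by rw [hρ2]; linarith)
    (by
      have h1 : C * (1 + energy (w 0)) * ρ ≤ C * (1 + e) * r := by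
        have : ρ ≤ r := by rw [hρ]; linarith
        have h2 : 0 ≤ energy (w 0) := W919.MF.energy_nonneg _
        gcongr
      exact h1.trans hrC)
    (gg w b) (by
      unfold gg
      refine continuousOn_finsetSum _ fun i _ => continuousOn_finsetSum _ fun j _ => ?_
      exact (((contDiffOn_pd (f := fun s y => w s y i) (hs.smooth_c i) j).continuousOn.mono
        (prod_mono Ioo_subset_Ico_self subset_rfl)).sub (P_cont ((hb i).pd j)).continuousOn).pow 2)
    (fun t ht => (gg_sp hs hb ⟨by linarith [ht.1, hρ2], ht.2⟩).per)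
    (fun t ht y => ⟨gg_nn _ _ _ _, by
      have ht1 : 7 * r ^ 2 / 8 < t := by linarith [ht.1, hρ2]
      have ht0 : 0 < t := by linarith
      have hP : ∀ i j, P t (pd j (b i)) y ^ 2 ≤ 4 * c ^ 2 / (7 * r ^ 4) := by
        intro i j
        have h1 := P_grad (hb i) ht0 (hbB i) j y
        have h2 : P t (pd j (b i)) y ^ 2 ≤ ((√(2 * t))⁻¹ * (c / r)) ^ 2 := by
          rw [← sq_abs]
          exact pow_le_pow_left₀ (abs_nonneg _) h1 2
        refine h2.trans ?_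
        rw [mul_pow, inv_pow, Real.sq_sqrt (by positivity), div_pow]
        have h3 : (2 * t)⁻¹ ≤ 4 / (7 * r ^ 2) := by
          rw [inv_le_comm₀ (by positivity) (by positivity), inv_div]
          linarith
        calc (2 * t)⁻¹ * (c ^ 2 / r ^ 2) ≤ 4 / (7 * r ^ 2) * (c ^ 2 / r ^ 2) := by gcongr
          _ = _ := by field_simp
      have h4 : gsq (w t) y ≤ 2 * gg w b t y + 2 * ∑ i : Fin 3, ∑ j : Fin 3, P t (pd j (b i)) y ^ 2 := by
        unfold gsq gg
        rw [Finset.mul_sum, Finset.mul_sum, ← Finset.sum_add_distrib]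
        refine Finset.sum_le_sum fun i _ => ?_
        rw [Finset.mul_sum, Finset.mul_sum, ← Finset.sum_add_distrib]
        refine Finset.sum_le_sum fun j _ => ?_
        nlinarith [sq_nonneg (pd j (fun y => w t y i) y - 2 * P t (pd j (b i)) y)]
      have h5 : ∑ i : Fin 3, ∑ j : Fin 3, P t (pd j (b i)) y ^ 2 ≤ 9 * (4 * c ^ 2 / (7 * r ^ 4)) := by
        refine (Finset.sum_le_sum fun i _ => Finset.sum_le_sum fun j _ => hP i j).trans (le_of_eq ?_)
        simp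
        ring
      have h6 : 2 * (9 * (4 * c ^ 2 / (7 * r ^ 4))) ≤ ε / ρ ^ 4 := by
        rw [hρ]
        have e1 : ε / (r / 4) ^ 4 = 256 * ε / r ^ 4 := by field_simp; norm_num
        have e2 : 2 * (9 * (4 * c ^ 2 / (7 * r ^ 4))) = 72 / 7 * c ^ 2 / r ^ 4 := by field_simp; norm_num
        rw [e1, e2]
        have h7 : 72 / 7 * c ^ 2 ≤ 256 * ε := by nlinarith [sq_nonneg c]
        exact div_le_div_of_nonneg_right h7 (by positivity)
      linarith⟩) S
    (fun x hx => ⟨(hS x hx).1, by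
      have h1 := sing_shift (hS x hx).2 (T - r ^ 2)
      rw [sub_sub_cancel, ← hw] at h1
      exact h1⟩)
    (fun x hx y hy hxy => by
      have := hsep x hx y hy hxy
      rw [hρ]
      linarith)
  -- the dissipation
  obtain ⟨J, hJ⟩ : ∃ J, J = Fn r v := ⟨_, rfl⟩
  have hN : Continuous (nsq v) := (nsq_sp hvs).cont
  have hJint : IntegrableOn (fun x => nsq v x * min 1 (r ^ 2 * nsq v x)) cube :=
    integrableOn_cube (hN.mul (continuous_const.min (continuous_const.mul hN)))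
  have hJ0 : 0 ≤ J := by
    rw [hJ]
    refine integral_nonneg fun x => mul_nonneg (nsq_nn v x) (le_min zero_le_one ?_)
    exact mul_nonneg hr2.le (nsq_nn v x)
  have hK : ∀ t ∈ Ioo 0 (r ^ 2), ∫ s in (0 : ℝ)..t, di w b s ≤ Real.exp 600 * (81 / c ^ 2 * J) := by
    intro t ht
    have h1 := dissip hs hb hbB ht
    have h2 : gam (c / r) t ≤ 600 := by
      unfold gam
      have h3 : √t ≤ r := by
        rw [Real.sqrt_le_left hr.le]
        exact ht.2.le
      have h4 : 456 * (c / r) ^ 2 * t ≤ 456 * (c / r) ^ 2 * r ^ 2 :=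
        mul_le_mul_of_nonneg_left ht.2.le (by positivity)
      have h5 : 144 * (c / r) * √t ≤ 144 * (c / r) * r := mul_le_mul_of_nonneg_left h3 (by positivity)
      have h6 : 456 * (c / r) ^ 2 * r ^ 2 = 456 * c ^ 2 := by field_simp
      have h7 : 144 * (c / r) * r = 144 * c := by field_simp
      nlinarith
    have h3 : en w b 0 + 80 * t * I (fun x => (∑ i, b i x ^ 2) ^ 2) ≤ 81 / c ^ 2 * J := by
      have e1 : en w b 0 = I (fun x => ∑ i, (v x i - b i x) ^ 2) := by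
        unfold en
        rw [I_sum fun i _ => sp_sq (sp_sub (hvs i) (hb i))]
        refine Finset.sum_congr rfl fun i _ => ?_
        congr 1
        funext x
        rw [P_zero, hw0]
      have s1 : SP (fun x => ∑ i, (v x i - b i x) ^ 2) :=
        SP.sum fun i _ => sp_sq (sp_sub (hvs i) (hb i))
      have s2 : SP (fun x => (∑ i, b i x ^ 2) ^ 2) := sp_sq (SP.sum fun i _ => sp_sq (hb i))
      rw [e1, ← I_cmul, ← I_add s1 (sp_cmul s2 _), hJ]
      unfold Fn I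
      rw [← integral_const_mul]
      refine integral_mono (s1.add (sp_cmul s2 _)).int (hJint.const_mul _) fun x => ?_
      have := bt_alg hc hc1 hr ht.2.le v x
      rw [← hbdef] at this
      exact this
    calc ∫ s in (0 : ℝ)..t, di w b s
        ≤ Real.exp (gam (c / r) t) * (en w b 0 + 80 * t * I (fun x => (∑ i, b i x ^ 2) ^ 2)) := h1
      _ ≤ Real.exp 600 * (81 / c ^ 2 * J) := by
          refine mul_le_mul (Real.exp_le_exp.2 h2) h3 ?_ (Real.exp_pos _).le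
          have : 0 ≤ I (fun x => (∑ i, b i x ^ 2) ^ 2) := I_nonneg fun x => sq_nonneg _
          have := ht.1.le
          have := en_nonneg (u := w) (b := b) 0
          positivity
  have hL := sup_lint hr2 (di_cont hs hb) (fun t => di_nonneg t) hK
  have hM : ∫⁻ τ in Ioo (r ^ 2 - 2 * ρ ^ 2) (r ^ 2), ∫⁻ y in cube, ENNReal.ofReal (gg w b τ y)
      ≤ ENNReal.ofReal (Real.exp 600 * (81 / c ^ 2 * J)) := by
    refine le_trans ?_ hL
    refine (lintegral_mono_set (s := Ioo (r ^ 2 - 2 * ρ ^ 2) (r ^ 2)) (t := Ioo 0 (r ^ 2))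
      (Ioo_subset_Ioo_left (by rw [hρ2]; linarith))).trans ?_
    refine setLIntegral_mono' measurableSet_Ioo fun τ hτ => ?_
    have hτ' : τ ∈ Ico 0 (r ^ 2) := ⟨hτ.1.le, hτ.2⟩
    have h1 := gg_int hs hb hτ'
    rw [← h1]
    unfold I
    rw [ofReal_integral_eq_lintegral_ofReal (gg_sp hs hb hτ').int (ae_of_all _ fun y => gg_nn _ _ _ _)]
  have hfin := key.trans (mul_le_mul_right hM (ENNReal.ofReal C))
  rw [← ENNReal.ofReal_mul hC.le, ENNReal.ofReal_le_ofReal_iff (by positivity)] at hfin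
  rw [← hv, ← hJ]
  have h8 : (S.card : ℝ) * r = 4 * (S.card * ρ) := by rw [hρ]; ring
  rw [h8]
  calc 4 * (S.card * ρ) ≤ 4 * (C * (Real.exp 600 * (81 / c ^ 2 * J))) := by linarith
    _ = _ := by ring

end Run7.h219.SL
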