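import Pool.Agent.Run7.h219.SL.Evo3
import Pool.Agent.Run7.h219.SL.Peri4
import Pool.Agent.Run7.h219.SL.Main

/-!
The fast part of one time slice counts the singular points: viscosity one.
-/

set_option autoImplicit false
set_option maxHeartbeats 1000000

open MeasureTheory Set Filter Topology
open scoped ContDiff NNReal ENNReal

namespace Run7.h219.SL

open H459R3.NS W221.NS

/-! ### The truncated slice -/

/-- The truncated field: the slow part. -/
noncomputable def bs (κ : ℝ) (v : V → V) (i : Fin 3) (x : V) : ℝ :=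
  v x i * Real.smoothTransition (2 - κ * nsq v x)

lemma bs_sp {v : V → V} (hv : ∀ i, SP (fun y => v y i)) (κ : ℝ) (i : Fin 3) : SP (bs κ v i) := by
  have hn := nsq_sp hv
  constructor
  · unfold bs
    exact (hv i).smooth.mul (Real.smoothTransition.contDiff.comp
      (contDiff_const.sub (contDiff_const.mul hn.smooth)))
  · intro j x
    unfold bs
    rw [hn.per j x]
    have h1 : v (x + Pi.single j 1) i = v x i := (hv i).per j x
    rw [h1]

lemma bs_bd {c r : ℝ} (hc : 0 < c) (hr : 0 < r) (v : V → V) (i : Fin 3) (x : V) :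
    |bs (r ^ 2 / c ^ 2) v i x| ≤ 2 * c / r := by
  unfold bs
  rcases le_or_gt 2 (r ^ 2 / c ^ 2 * nsq v x) with h | h
  · rw [Real.smoothTransition.zero_of_nonpos (by linarith), mul_zero, abs_zero]
    positivity
  · have h1 : v x i ^ 2 ≤ nsq v x :=
      Finset.single_le_sum (f := fun i => v x i ^ 2) (fun _ _ => sq_nonneg _) (Finset.mem_univ i)
    have h2 : nsq v x < 2 * (c ^ 2 / r ^ 2) := by
      rw [div_mul_eq_mul_div, div_lt_iff₀ (by positivity)] at h
      rw [← mul_div_assoc, lt_div_iff₀ (by positivity)]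
      linarith
    have h3 : |v x i| ≤ 2 * c / r := by
      apply abs_le_of_sq_le_sq _ (by positivity)
      rw [div_pow, mul_pow]
      have : 0 ≤ c ^ 2 / r ^ 2 := by positivity
      have e : 2 ^ 2 * c ^ 2 / r ^ 2 = 4 * (c ^ 2 / r ^ 2) := by ring
      rw [e]
      linarith
    rw [abs_mul, abs_of_nonneg (Real.smoothTransition.nonneg _)]
    calc |v x i| * Real.smoothTransition (2 - r ^ 2 / c ^ 2 * nsq v x) ≤ 2 * c / r * 1 :=
          mul_le_mul h3 (Real.smoothTransition.le_one _) (Real.smoothTransition.nonneg _)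
            (by positivity)
      _ = _ := mul_one _

lemma bs_alg {c r : ℝ} (hc : 0 < c) (hr : 0 < r) (v : V → V) (x : V) :
    ∑ i, (v x i - bs (r ^ 2 / c ^ 2) v i x) ^ 2
      ≤ {x | c ^ 2 < r ^ 2 * nsq v x}.indicator (nsq v) x := by
  by_cases hx : c ^ 2 < r ^ 2 * nsq v x
  · have hx' : x ∈ {x | c ^ 2 < r ^ 2 * nsq v x} := hx
    rw [Set.indicator_of_mem hx']
    have hN : nsq v x = ∑ i, v x i ^ 2 := rfl
    rw [hN]
    refine Finset.sum_le_sum fun i _ => ?_
    have e : v x i - bs (r ^ 2 / c ^ 2) v i x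
        = v x i * (1 - Real.smoothTransition (2 - r ^ 2 / c ^ 2 * nsq v x)) := by
      unfold bs
      ring
    rw [e, mul_pow]
    have h1 := Real.smoothTransition.nonneg (2 - r ^ 2 / c ^ 2 * nsq v x)
    have h2 := Real.smoothTransition.le_one (2 - r ^ 2 / c ^ 2 * nsq v x)
    have h3 : (1 - Real.smoothTransition (2 - r ^ 2 / c ^ 2 * nsq v x)) ^ 2 ≤ 1 := by nlinarith
    calc v x i ^ 2 * (1 - Real.smoothTransition (2 - r ^ 2 / c ^ 2 * nsq v x)) ^ 2
        ≤ v x i ^ 2 * 1 := mul_le_mul_of_nonneg_left h3 (sq_nonneg _)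
      _ = _ := mul_one _
  · have hx' : x ∉ {x | c ^ 2 < r ^ 2 * nsq v x} := hx
    rw [Set.indicator_of_notMem hx']
    rw [not_lt] at hx
    have h1 : r ^ 2 / c ^ 2 * nsq v x ≤ 1 := by
      rw [div_mul_eq_mul_div, div_le_one (by positivity)]
      exact hx
    have e : ∀ i, v x i - bs (r ^ 2 / c ^ 2) v i x = 0 := by
      intro i
      unfold bs
      rw [Real.smoothTransition.one_of_one_le (by linarith)]
      ring
    simp [e]

/-! ### Viscosity one -/

/-- The squared difference of the gradients. -/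
noncomputable def gg3 (H : ℝ) (u : ℝ → V → V) (b : Fin 3 → V → ℝ) (n : ℕ) (t : ℝ) (x : V) : ℝ :=
  ∑ i, ∑ j, (pd j (fun y => u t y i) x - pd j (VP H b n i t) x) ^ 2

lemma gg3_nn (H : ℝ) (u : ℝ → V → V) (b : Fin 3 → V → ℝ) (n : ℕ) (t : ℝ) (x : V) :
    0 ≤ gg3 H u b n t x :=
  Finset.sum_nonneg fun _ _ => Finset.sum_nonneg fun _ _ => sq_nonneg _

section

variable {T : ℝ} {u : ℝ → V → V} {p : ℝ → V → ℝ} {b : Fin 3 → V → ℝ} {H : ℝ} {n : ℕ}

lemma gg3_sp (h : IsSol 1 T u p) (hb : ∀ i, SP (b i)) {t : ℝ} (ht : t ∈ Ico 0 T) :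
    SP (gg3 H u b n t) := by
  have : gg3 H u b n t = fun x => ∑ i, ∑ j, (pd j (fun y => u t y i) x - pd j (VP H b n i t) x) ^ 2 :=
    rfl
  rw [this]
  exact SP.sum fun i _ => SP.sum fun j _ => sp_sq (sp_sub ((h.sp ht i).pd j)
    (((VP_jj hb n i).sp t).pd j))

lemma gg3_int (h : IsSol 1 T u p) (hb : ∀ i, SP (b i)) {t : ℝ} (ht : t ∈ Ico 0 T) :
    I (gg3 H u b n t) = di3 H u b n t := by
  have : gg3 H u b n t = fun x => ∑ i, ∑ j, (pd j (fun y => u t y i) x - pd j (VP H b n i t) x) ^ 2 :=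
    rfl
  rw [this]
  unfold di3
  exact (I_sum2 fun i j => sp_sq (sp_sub ((h.sp ht i).pd j) (((VP_jj hb n i).sp t).pd j))).symm

end

/-- The energy of the fast fluid. -/
noncomputable def Fs (c r : ℝ) (v : V → V) : ℝ := ∫ x in cube ∩ {x | c ^ 2 < r ^ 2 * nsq v x}, nsq v x

lemma expo {B c r s : ℝ} (hB0 : 0 < B) (hr : 0 < r) (hBr : B * r = 2 * c) (hc : 0 < c)
    (hc1 : 1280 * c ≤ 1) (hs2 : s < r ^ 2) : 1824 * B ^ 2 * s + 2 * (72 * B) * √s ≤ 1 := by
  have h3 : √s ≤ r := by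
    rw [Real.sqrt_le_left hr.le]
    exact hs2.le
  have h4 : 1824 * B ^ 2 * s ≤ 1824 * B ^ 2 * r ^ 2 :=
    mul_le_mul_of_nonneg_left hs2.le (by positivity)
  have h5 : 2 * (72 * B) * √s ≤ 2 * (72 * B) * r := mul_le_mul_of_nonneg_left h3 (by positivity)
  have h6 : 1824 * B ^ 2 * r ^ 2 = 7296 * c ^ 2 := by
    calc 1824 * B ^ 2 * r ^ 2 = 1824 * (B * r) ^ 2 := by ring
      _ = _ := by rw [hBr]; ring
  have h7 : 2 * (72 * B) * r = 288 * c := by
    calc 2 * (72 * B) * r = 144 * (B * r) := by ring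
      _ = _ := by rw [hBr]; ring
  have h8 : c ^ 2 ≤ c * (1 / 1280) := by
    rw [sq]
    exact mul_le_mul_of_nonneg_left (by linarith) hc.le
  linarith

theorem main4 : ∃ C c : ℝ, 0 < C ∧ 0 < c ∧ ∀ (T : ℝ) (u : ℝ → V → V) (p : ℝ → V → ℝ), 0 < T →
    IsSol 1 T u p → ∀ r : ℝ, 0 < r → r ^ 2 ≤ T → C * (1 + energy (u (T - r ^ 2))) * r ≤ 1 →
      ∀ S : Finset V, (∀ x ∈ S, x ∈ cube ∧ Sing T u x) →
        (∀ x ∈ S, ∀ y ∈ S, x ≠ y → r ≤ ‖x - y‖) →
          S.card * r ≤ C * Fs c r (u (T - r ^ 2)) := by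
  obtain ⟨C, ε, hC, hε, H⟩ := peri4
  obtain ⟨c, hc, hc1, hcε⟩ : ∃ c : ℝ, 0 < c ∧ 1280 * c ≤ 1 ∧ 1320 * c ^ 2 ≤ 256 * ε := by
    refine ⟨min (1 / 1280) ε, lt_min (by norm_num) hε, ?_, ?_⟩
    · have := min_le_left (1 / 1280 : ℝ) ε
      linarith
    · have h0 : 0 < min (1 / 1280 : ℝ) ε := lt_min (by norm_num) hε
      have h1 := min_le_left (1 / 1280 : ℝ) ε
      have h2 := min_le_right (1 / 1280 : ℝ) ε
      nlinarith
  refine ⟨4 * C * Real.exp 1, c, by positivity, hc, ?_⟩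
  intro T u p hT hu
  intro r hr hrT hrC0 S hS hsep
  obtain ⟨e, he⟩ : ∃ e, e = energy (u (T - r ^ 2)) := ⟨_, rfl⟩
  rw [← he] at hrC0
  have he0 : 0 ≤ e := by rw [he]; exact W919.MF.energy_nonneg _
  have hr2 : 0 < r ^ 2 := by positivity
  have hrC : C * (1 + e) * r ≤ 1 := by
    refine le_trans ?_ hrC0
    have h1 : (1 : ℝ) ≤ Real.exp 1 := Real.one_le_exp zero_le_one
    have h2 : C ≤ 4 * C * Real.exp 1 := by nlinarith
    have h3 : 0 ≤ (1 + e) * r := by positivity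
    calc C * (1 + e) * r = C * ((1 + e) * r) := by ring
      _ ≤ 4 * C * Real.exp 1 * ((1 + e) * r) := mul_le_mul_of_nonneg_right h2 h3
      _ = _ := by ring
  have hI0 : T - r ^ 2 ∈ Ico 0 T := ⟨by linarith, by linarith⟩
  -- the shifted solution
  have hs := isSol_shift hu hI0.1
  rw [sub_sub_cancel] at hs
  obtain ⟨w, hw⟩ : ∃ w : ℝ → V → V, w = fun t => u (T - r ^ 2 + t) := ⟨_, rfl⟩
  obtain ⟨p', hp'⟩ : ∃ p' : ℝ → V → ℝ, p' = fun t => p (T - r ^ 2 + t) := ⟨_, rfl⟩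
  rw [← hw, ← hp'] at hs
  obtain ⟨v, hv⟩ : ∃ v, v = u (T - r ^ 2) := ⟨_, rfl⟩
  have hw0 : w 0 = v := by rw [hw, hv]; simp
  have hvs : ∀ i, SP (fun y => v y i) := fun i => by rw [hv]; exact hu.sp hI0 i
  obtain ⟨b, hbdef⟩ : ∃ b, b = bs (r ^ 2 / c ^ 2) v := ⟨_, rfl⟩
  have hb : ∀ i, SP (b i) := fun i => by rw [hbdef]; exact bs_sp hvs _ i
  obtain ⟨B, hB⟩ : ∃ B, B = 2 * c / r := ⟨_, rfl⟩
  have hB0 : 0 < B := by rw [hB]; positivity
  have hBr : B * r = 2 * c := by rw [hB]; field_simp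
  have hbB : ∀ i x, |b i x| ≤ B := fun i x => by rw [hbdef, hB]; exact bs_bd hc hr v i x
  have hsr : √(r ^ 2) = r := Real.sqrt_sq hr.le
  have hsm : 640 * B * √(r ^ 2) ≤ 1 := by
    rw [hsr]
    calc 640 * B * r = 640 * (B * r) := by ring
      _ ≤ 1 := by rw [hBr]; linarith
  -- the counting
  obtain ⟨ρ, hρ⟩ : ∃ ρ, ρ = r / 4 := ⟨_, rfl⟩
  have hρ0 : 0 < ρ := by rw [hρ]; positivity
  have hρ2 : ρ ^ 2 = r ^ 2 / 16 := by rw [hρ]; ring
  have hen : energy (w 0) ≤ e := by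
    rw [hw0, hv, he]
  obtain ⟨s, hs1, hs2, key⟩ := H (r ^ 2) w p' hr2 hs ρ hρ0 (by rw [hρ2]; linarith)
    (by
      have h1 : C * (1 + energy (w 0)) * ρ ≤ C * (1 + e) * r := by
        have : ρ ≤ r := by rw [hρ]; linarith
        have h2 : 0 ≤ energy (w 0) := W919.MF.energy_nonneg _
        gcongr
      exact h1.trans hrC) S
    (fun x hx => ⟨(hS x hx).1, by
      have h1 := sing_shift (hS x hx).2 (T - r ^ 2)
      rw [sub_sub_cancel, ← hw] at h1
      exact h1⟩)
    (fun x hx y hy hxy => by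
      have := hsep x hx y hy hxy
      rw [hρ]
      linarith)
  have hs0 : 0 < s - ρ ^ 2 := by rw [hρ2] at hs1 ⊢; linarith
  have hs0' : 0 < s := by linarith [sq_nonneg ρ]
  -- the pressure
  obtain ⟨Bp, hBp⟩ : ∃ Bp : ℝ, ∀ t ∈ Icc 0 s, ∀ x, |p' t x| ≤ Bp := by
    have hK : IsCompact (Icc 0 s ×ˢ cube) := isCompact_Icc.prod isCompact_Icc
    have hsub : Icc 0 s ×ˢ cube ⊆ Ico 0 (r ^ 2) ×ˢ (univ : Set V) :=
      prod_mono (fun t ht => ⟨ht.1, ht.2.trans_lt hs2⟩) (subset_univ _)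
    obtain ⟨Bp, hBp⟩ := hK.exists_bound_of_continuousOn (hs.smooth_p.continuousOn.mono hsub)
    refine ⟨Bp, fun t ht x => ?_⟩
    have hper := hs.per_p t ⟨ht.1, ht.2.trans_lt hs2⟩
    have h1 : p' t x = p' t (fun i => Int.fract (x i)) := by
      have h2 := hper.int (fun i => ⌊x i⌋) (fun i => Int.fract (x i))
      rw [← h2]
      congr 1
      funext i
      exact (Int.fract_add_floor (x i)).symm
    rw [h1]
    exact hBp (t, fun i => Int.fract (x i)) ⟨ht, fun i => Int.fract_nonneg _,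
      fun i => (Int.fract_lt_one _).le⟩
  -- the energy of the fast fluid
  obtain ⟨J, hJ⟩ : ∃ J, J = Fs c r v := ⟨_, rfl⟩
  have hN : Continuous (nsq v) := (nsq_sp hvs).cont
  have hO : MeasurableSet {x : V | c ^ 2 < r ^ 2 * nsq v x} :=
    (isOpen_lt continuous_const (continuous_const.mul hN)).measurableSet
  have hJI : J = ∫ x in cube, {x | c ^ 2 < r ^ 2 * nsq v x}.indicator (nsq v) x := by
    rw [hJ]
    unfold Fs
    rw [setIntegral_indicator hO]
  have hJ0 : 0 ≤ J := by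
    rw [hJI]
    exact integral_nonneg fun x => Set.indicator_nonneg (fun _ _ => nsq_nn v _) x
  have hen0 : ∀ (h' : ℝ) (n : ℕ), en3 h' w b (n + 1) 0 ≤ J := by
    intro h' n
    have e1 : en3 h' w b (n + 1) 0 = I (fun x => ∑ i, (v x i - b i x) ^ 2) := by
      unfold en3
      rw [I_sum fun i _ => sp_sq (sp_sub (hvs i) (hb i))]
      refine Finset.sum_congr rfl fun i _ => ?_
      congr 1
      funext x
      rw [VP_zero hb, hw0]
    rw [e1, hJI]
    unfold I
    refine integral_mono (SP.sum fun i _ => sp_sq (sp_sub (hvs i) (hb i))).int ?_ fun x => ?_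
    · exact (integrableOn_cube hN).indicator hO
    · rw [hbdef]
      exact bs_alg hc hr v x
  -- the estimate for each iterate
  have hall : ∀ n : ℕ, (S.card : ℝ) * ρ ≤ C * (Real.exp 1 * (J + s * (11520 * B ^ 4 / 4 ^ n
      + KK B Bp (r ^ 2) / √(1 + r ^ 2 + n)))) := by
    intro n
    obtain ⟨h', hh'⟩ : ∃ h' : ℝ, h' = 1 + r ^ 2 + n := ⟨_, rfl⟩
    have hn0 : (0 : ℝ) ≤ n := Nat.cast_nonneg n
    have hh1 : 1 ≤ h' := by rw [hh']; linarith
    have hh0 : 0 ≤ h' := by linarith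
    have hhr : r ^ 2 ≤ h' := by rw [hh']; linarith
    have hsI : s ∈ Ioo 0 (r ^ 2) := ⟨hs0', hs2⟩
    have key2 := key (gg3 h' w b (n + 1)) (by
        unfold gg3
        refine continuousOn_finsetSum _ fun i _ => continuousOn_finsetSum _ fun j _ => ?_
        exact (((contDiffOn_pd (f := fun s y => w s y i) (hs.smooth_c i) j).continuousOn.mono
          (prod_mono Ioo_subset_Ico_self subset_rfl)).sub
            ((VP_jj hb (n + 1) i).pd j).c.continuousOn).pow 2)
      (fun t ht => (gg3_sp hs hb ⟨by linarith [ht.1], ht.2.trans hs2⟩).per)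
      (fun t ht y => ⟨gg3_nn _ _ _ _ _ _, by
        have ht1 : 7 * r ^ 2 / 8 < t := by
          have := ht.1
          rw [hρ2] at this hs1
          linarith
        have ht0 : 0 < t := by linarith
        have hP : ∀ i j, pd j (VP h' b (n + 1) i t) y ^ 2 ≤ 512 * c ^ 2 / (7 * r ^ 4) := by
          intro i j
          have h1 := VP_grad hb hbB hh0 hsm (n + 1) t ⟨ht0, ht.2.le.trans hs2.le⟩ i j y
          have h2 : pd j (VP h' b (n + 1) i t) y ^ 2 ≤ (4 * B * (√t)⁻¹) ^ 2 := by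
            rw [← sq_abs]
            exact pow_le_pow_left₀ (abs_nonneg _) h1 2
          refine h2.trans ?_
          rw [mul_pow, inv_pow, Real.sq_sqrt ht0.le, mul_pow, hB, div_pow]
          have h3 : t⁻¹ ≤ 8 / (7 * r ^ 2) := by
            rw [inv_le_comm₀ (by positivity) (by positivity), inv_div]
            linarith
          calc 4 ^ 2 * ((2 * c) ^ 2 / r ^ 2) * t⁻¹ ≤ 4 ^ 2 * ((2 * c) ^ 2 / r ^ 2) * (8 / (7 * r ^ 2)) := by
                gcongr
            _ = _ := by field_simp; norm_num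
        have h4 : gsq (w t) y ≤ 2 * gg3 h' w b (n + 1) t y
            + 2 * ∑ i : Fin 3, ∑ j : Fin 3, pd j (VP h' b (n + 1) i t) y ^ 2 := by
          unfold gsq gg3
          rw [Finset.mul_sum, Finset.mul_sum, ← Finset.sum_add_distrib]
          refine Finset.sum_le_sum fun i _ => ?_
          rw [Finset.mul_sum, Finset.mul_sum, ← Finset.sum_add_distrib]
          refine Finset.sum_le_sum fun j _ => ?_
          nlinarith [sq_nonneg (pd j (fun y => w t y i) y - 2 * pd j (VP h' b (n + 1) i t) y)]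
        have h5 : ∑ i : Fin 3, ∑ j : Fin 3, pd j (VP h' b (n + 1) i t) y ^ 2
            ≤ 9 * (512 * c ^ 2 / (7 * r ^ 4)) := by
          refine (Finset.sum_le_sum fun i _ => Finset.sum_le_sum fun j _ => hP i j).trans (le_of_eq ?_)
          simp
          ring
        have h6 : 2 * (9 * (512 * c ^ 2 / (7 * r ^ 4))) ≤ ε / ρ ^ 4 := by
          rw [hρ]
          have e1 : ε / (r / 4) ^ 4 = 256 * ε / r ^ 4 := by field_simp; norm_num
          have e2 : 2 * (9 * (512 * c ^ 2 / (7 * r ^ 4))) = 9216 / 7 * c ^ 2 / r ^ 4 := by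
            field_simp
            norm_num
          rw [e1, e2]
          have h7 : 9216 / 7 * c ^ 2 ≤ 256 * ε := by nlinarith [sq_nonneg c]
          exact div_le_div_of_nonneg_right h7 (by positivity)
        linarith⟩)
    have hdc := (di3_cont (H := h') (n := n + 1) hs hb).mono
      (show Icc 0 s ⊆ Ico 0 (r ^ 2) from fun t ht => ⟨ht.1, ht.2.trans_lt hs2⟩)
    have hM : ∫⁻ τ in Ioo (s - ρ ^ 2) s, ∫⁻ y in cube, ENNReal.ofReal (gg3 h' w b (n + 1) τ y)
        ≤ ENNReal.ofReal (∫ t in (0 : ℝ)..s, di3 h' w b (n + 1) t) := by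
      have hint : IntegrableOn (di3 h' w b (n + 1)) (Ioc 0 s) :=
        hdc.integrableOn_Icc.mono_set Ioc_subset_Icc_self
      rw [intervalIntegral.integral_of_le hs0'.le,
        ofReal_integral_eq_lintegral_ofReal hint (ae_of_all _ fun t => di3_nonneg t)]
      refine (lintegral_mono_set (s := Ioo (s - ρ ^ 2) s) (t := Ioc 0 s)
        (fun t ht => ⟨by linarith [ht.1], ht.2.le⟩)).trans ?_
      refine setLIntegral_mono' measurableSet_Ioc fun τ hτ => ?_
      have hτ' : τ ∈ Ico 0 (r ^ 2) := ⟨hτ.1.le, hτ.2.trans_lt hs2⟩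
      rw [← gg3_int hs hb hτ']
      unfold I
      rw [ofReal_integral_eq_lintegral_ofReal (gg3_sp hs hb hτ').int
        (ae_of_all _ fun y => gg3_nn _ _ _ _ _ _)]
    have hfin := key2.trans (mul_le_mul_right hM (ENNReal.ofReal C))
    have hI0 : 0 ≤ ∫ t in (0 : ℝ)..s, di3 h' w b (n + 1) t :=
      intervalIntegral.integral_nonneg hs0'.le fun t _ => di3_nonneg t
    rw [← ENNReal.ofReal_mul hC.le, ENNReal.ofReal_le_ofReal_iff (by positivity)] at hfin
    refine hfin.trans (mul_le_mul_of_nonneg_left ?_ hC.le)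
    have h1 := dissip3 (n := n) hs hb hbB hh1 hsm hhr hsI hs2.le hBp
    have hBp0 : 0 ≤ Bp := (abs_nonneg _).trans (hBp 0 ⟨le_rfl, hs0'.le⟩ 0)
    have hK : 0 ≤ KK B Bp (r ^ 2) := by unfold KK; positivity
    have h2 : 1824 * B ^ 2 * s + 2 * (72 * B) * √s ≤ 1 := expo hB0 hr hBr hc hc1 hs2
    rw [← hh']
    refine h1.trans (mul_le_mul (Real.exp_le_exp.2 h2) (add_le_add (hen0 h' n) le_rfl) ?_
      (Real.exp_pos _).le)
    have := en3_nonneg (H := h') (u := w) (b := b) (n := n + 1) 0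
    positivity
  -- the limit
  have hlim : Tendsto (fun n : ℕ => C * (Real.exp 1 * (J + s * (11520 * B ^ 4 / 4 ^ n
      + KK B Bp (r ^ 2) / √(1 + r ^ 2 + n))))) atTop (𝓝 (C * (Real.exp 1 * (J + s * (0 + 0))))) := by
    have l1 : Tendsto (fun n : ℕ => 11520 * B ^ 4 / 4 ^ n) atTop (𝓝 0) := by
      have := (tendsto_pow_atTop_nhds_zero_of_lt_one (r := (1 / 4 : ℝ)) (by norm_num)
        (by norm_num)).const_mul (11520 * B ^ 4)
      rw [mul_zero] at this
      refine this.congr fun n => ?_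
      rw [one_div, inv_pow]
      rfl
    have l2 : Tendsto (fun n : ℕ => KK B Bp (r ^ 2) / √(1 + r ^ 2 + n)) atTop (𝓝 0) := by
      refine tendsto_const_nhds.div_atTop (Real.tendsto_sqrt_atTop.comp ?_)
      exact tendsto_atTop_add_const_left _ _ tendsto_natCast_atTop_atTop
    exact ((((l1.add l2).const_mul s).const_add J).const_mul _).const_mul C
  have hfin := ge_of_tendsto' hlim hall
  rw [add_zero, mul_zero, add_zero] at hfin
  rw [← hv, ← hJ]
  have h8 : (S.card : ℝ) * r = 4 * (S.card * ρ) := by rw [hρ]; ring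
  rw [h8]
  calc 4 * (S.card * ρ) ≤ 4 * (C * (Real.exp 1 * J)) := by linarith
    _ = _ := by ring

end Run7.h219.SL
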