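import Pool.Agent.Run7.h219.SL.Final

/-!
The fast part of one time slice counts the singular points: weak norms, Hausdorff measure.
-/

set_option autoImplicit false

open MeasureTheory Set Filter Topology
open scoped ContDiff NNReal ENNReal

namespace Run7.h219.SL

open H459R3.NS W221.NS

/-- From separated sets to coverings. -/
theorem cover_sep {Z : Set V} {r N : ℝ} (hr : 0 < r)
    (h : ∀ S : Finset V, (∀ x ∈ S, x ∈ Z) →
      (∀ x ∈ S, ∀ y ∈ S, x ≠ y → r ≤ ‖x - y‖) → (S.card : ℝ) ≤ N) :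
    ∃ F : Finset V, (F.card : ℝ) ≤ N ∧ (∀ x ∈ F, x ∈ Z) ∧ ∀ x ∈ Z, ∃ y ∈ F, ‖x - y‖ < r := by
  classical
  let P : ℕ → Prop := fun n => ∃ S : Finset V, S.card = n ∧ (∀ x ∈ S, x ∈ Z) ∧
    (∀ x ∈ S, ∀ y ∈ S, x ≠ y → r ≤ ‖x - y‖)
  have hP0 : P 0 := ⟨∅, rfl, by simp, by simp⟩
  have hb : ∀ n, P n → n ≤ ⌊N⌋₊ := by
    rintro n ⟨S, rfl, h1, h2⟩
    exact Nat.le_floor (h S h1 h2)
  obtain ⟨S, hcard, h1, h2⟩ := Nat.findGreatest_spec (P := P) (Nat.zero_le ⌊N⌋₊) hP0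
  refine ⟨S, h S h1 h2, h1, fun x hx => ?_⟩
  by_contra hcon
  push Not at hcon
  have hxS : x ∉ S := fun hxS => by
    have := hcon x hxS
    rw [sub_self, norm_zero] at this
    linarith
  have hP1 : P (S.card + 1) := by
    refine ⟨insert x S, Finset.card_insert_of_notMem hxS, ?_, ?_⟩
    · intro y hy
      rcases Finset.mem_insert.1 hy with rfl | hy
      · exact hx
      · exact h1 y hy
    · intro y hy z hz hyz
      rcases Finset.mem_insert.1 hy with hyx | hy'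
      · rcases Finset.mem_insert.1 hz with hzx | hz'
        · exact absurd (hyx.trans hzx.symm) hyz
        · rw [hyx]
          exact hcon z hz'
      · rcases Finset.mem_insert.1 hz with hzx | hz'
        · rw [hzx, norm_sub_rev]
          exact hcon y hy'
        · exact h2 y hy' z hz' hyz
  have h3 := Nat.le_findGreatest (hb _ hP1) hP1
  rw [← hcard] at h3
  exact absurd h3 (by omega)

theorem final : ∃ (C c : ℝ) (K : ℝ → ℝ), 0 < C ∧ 0 < c ∧ (∀ q : ℝ, 2 < q → 0 < K q) ∧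
    ∀ (ν T : ℝ) (u : ℝ → V → V) (p : ℝ → V → ℝ), 0 < ν → 0 < T → IsSol ν T u p →
      (∀ r : ℝ, 0 < r → r ^ 2 ≤ ν * T → C * (1 + energy (u (T - r ^ 2 / ν)) / ν ^ 2) * r ≤ 1 →
        ∀ S : Finset V, (∀ x ∈ S, x ∈ cube ∧ Sing T u x) →
          (∀ x ∈ S, ∀ y ∈ S, x ≠ y → r ≤ ‖x - y‖) →
            S.card * (ν ^ 2 * r) ≤ C * ∫ x in fast (c * ν / r) (u (T - r ^ 2 / ν)),
              nsq (u (T - r ^ 2 / ν)) x ∧
            ∀ q M : ℝ, 2 < q → 0 ≤ M → Weak q M (u (T - r ^ 2 / ν)) →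
              (S.card : ℝ) ≤ K q * (M / ν) ^ q * r ^ (q - 3)) ∧
      (∀ q M : ℝ, 2 < q → q ≤ 3 → 0 ≤ M → (∃ᶠ t in 𝓝[<] T, Weak q M (u t)) →
        Measure.hausdorffMeasure (3 - q) {x ∈ cube | Sing T u x}
          ≤ ENNReal.ofReal (K q * (M / ν) ^ q)) ∧
      ∀ M : ℝ, 0 ≤ M → (∃ᶠ t in 𝓝[<] T, Weak 3 M (u t)) →
        {x ∈ cube | Sing T u x}.Finite ∧
          ({x ∈ cube | Sing T u x}.ncard : ℝ) ≤ K 3 * (M / ν) ^ 3 := by
  obtain ⟨C, c, hC, hc, H⟩ := mainν
  refine ⟨C, c, fun q => 2 * (C * (q / (q - 2)) * c ^ (2 - q)), hC, hc, fun q hq => ?_, ?_⟩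
  · have : 0 < q - 2 := by linarith
    positivity
  intro ν T u p hν hT hu
  have H0 := H ν T u p hν hT hu
  -- the bound with weak norms
  have hslice : ∀ r : ℝ, 0 < r → r ^ 2 ≤ ν * T → T - r ^ 2 / ν ∈ Ico 0 T := by
    intro r hr h1
    constructor
    · rw [sub_nonneg, div_le_iff₀ hν]
      linarith
    · have : 0 < r ^ 2 / ν := by positivity
      linarith
  have hq0 : ∀ r : ℝ, 0 < r → r ^ 2 ≤ ν * T →
      C * (1 + energy (u (T - r ^ 2 / ν)) / ν ^ 2) * r ≤ 1 →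
      ∀ S : Finset V, (∀ x ∈ S, x ∈ cube ∧ Sing T u x) →
      (∀ x ∈ S, ∀ y ∈ S, x ≠ y → r ≤ ‖x - y‖) → ∀ q M : ℝ, 2 < q → 0 ≤ M →
        Weak q M (u (T - r ^ 2 / ν)) →
          (S.card : ℝ) ≤ C * (q / (q - 2)) * c ^ (2 - q) * (M / ν) ^ q * r ^ (q - 3) := by
    intro r hr hrT hrC S hS hsep q M hq hM hw
    have hq2 : 0 < q - 2 := by linarith
    have h1 := H0 r hr hrT hrC S hS hsep
    have hcont : Continuous (u (T - r ^ 2 / ν)) :=
      (W919.MF.spv_of_isSol hu (hslice r hr hrT)).1.continuous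
    have h2 := weak_fast hq hM (l := c * ν / r) (by positivity) hcont hw
    have h3 : (S.card : ℝ) * (ν ^ 2 * r)
        ≤ C * (q / (q - 2) * (M ^ q * (c * ν / r) ^ (2 - q))) :=
      h1.trans (mul_le_mul_of_nonneg_left h2 hC.le)
    have e1 : (c * ν / r) ^ (2 - q) = c ^ (2 - q) * ν ^ (2 - q) * r ^ (q - 2) := by
      rw [Real.div_rpow (by positivity) hr.le, Real.mul_rpow hc.le hν.le, div_eq_mul_inv,
        ← Real.rpow_neg hr.le]
      congr 2
      ring
    have e2 : ν ^ (2 - q) = ν ^ 2 * (ν ^ q)⁻¹ := by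
      rw [sub_eq_add_neg, Real.rpow_add hν, Real.rpow_two, Real.rpow_neg hν.le]
    have e3 : r ^ (q - 2) = r ^ (q - 3) * r := by
      have : q - 2 = (q - 3) + 1 := by ring
      rw [this, Real.rpow_add hr, Real.rpow_one]
    rw [Real.div_rpow hM hν.le]
    have hνr : 0 < ν ^ 2 * r := by positivity
    refine le_of_mul_le_mul_right (h3.trans (le_of_eq ?_)) hνr
    rw [e1, e2, e3]
    field_simp
  -- small radii
  obtain ⟨r₀, hr₀, hr₀T, hr₀C⟩ : ∃ r₀ : ℝ, 0 < r₀ ∧ (∀ r : ℝ, 0 < r → r < r₀ → r ^ 2 ≤ ν * T) ∧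
      ∀ r : ℝ, 0 < r → r < r₀ → C * (1 + energy (u (T - r ^ 2 / ν)) / ν ^ 2) * r ≤ 1 := by
    have he0 : 0 ≤ energy (u 0) := W919.MF.energy_nonneg _
    have hνT : 0 < ν * T := mul_pos hν hT
    have hT1 : ∀ r : ℝ, 0 < r → r < min (√(ν * T)) (1 / (C * (1 + energy (u 0) / ν ^ 2))) →
        r ^ 2 ≤ ν * T := by
      intro r hr hrr
      have h1 := hrr.trans_le (min_le_left _ _)
      rw [Real.lt_sqrt hr.le] at h1
      exact h1.le
    refine ⟨min (√(ν * T)) (1 / (C * (1 + energy (u 0) / ν ^ 2))), by positivity, hT1,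
      fun r hr hrr => ?_⟩
    have h1 := hrr.trans_le (min_le_right _ _)
    rw [lt_div_iff₀ (by positivity)] at h1
    have h2 : energy (u (T - r ^ 2 / ν)) ≤ energy (u 0) := hu.energy_le hν (hslice r hr (hT1 r hr hrr))
    calc C * (1 + energy (u (T - r ^ 2 / ν)) / ν ^ 2) * r
        ≤ C * (1 + energy (u 0) / ν ^ 2) * r := by gcongr
      _ ≤ 1 := by linarith
  have hq1 : ∀ r : ℝ, 0 < r → r < r₀ → ∀ S : Finset V, (∀ x ∈ S, x ∈ cube ∧ Sing T u x) →
      (∀ x ∈ S, ∀ y ∈ S, x ≠ y → r ≤ ‖x - y‖) → ∀ q M : ℝ, 2 < q → 0 ≤ M →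
        Weak q M (u (T - r ^ 2 / ν)) →
          (S.card : ℝ) ≤ C * (q / (q - 2)) * c ^ (2 - q) * (M / ν) ^ q * r ^ (q - 3) :=
    fun r hr hrr => hq0 r hr (hr₀T r hr hrr) (hr₀C r hr hrr)
  -- good radii
  have hgood : ∀ q M ρ : ℝ, 0 < ρ → (∃ᶠ t in 𝓝[<] T, Weak q M (u t)) →
      ∃ r : ℝ, 0 < r ∧ r < r₀ ∧ r < ρ ∧ Weak q M (u (T - r ^ 2 / ν)) := by
    intro q M ρ hρ hfr
    have hm : 0 < min r₀ ρ := lt_min hr₀ hρ
    have h1 : ∀ᶠ t in 𝓝[<] T, t ∈ Ioo (T - (min r₀ ρ) ^ 2 / ν) T :=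
      Ioo_mem_nhdsLT (by
        have : 0 < (min r₀ ρ) ^ 2 / ν := by positivity
        linarith)
    obtain ⟨t, ht, ht1, ht2⟩ := (hfr.and_eventually h1).exists
    have h2 : 0 < ν * (T - t) := mul_pos hν (by linarith)
    have h3 : √(ν * (T - t)) < min r₀ ρ := by
      rw [Real.sqrt_lt' hm]
      have h4 : T - t < (min r₀ ρ) ^ 2 / ν := by linarith
      rw [lt_div_iff₀ hν] at h4
      linarith
    refine ⟨√(ν * (T - t)), Real.sqrt_pos.2 h2, h3.trans_le (min_le_left _ _),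
      h3.trans_le (min_le_right _ _), ?_⟩
    have e : T - √(ν * (T - t)) ^ 2 / ν = t := by
      rw [Real.sq_sqrt h2.le]
      field_simp
      ring
    rw [e]
    exact ht
  refine ⟨fun r hr hrT hrC S hS hsep => ⟨H0 r hr hrT hrC S hS hsep,
    fun q M hq hM hw => ?_⟩, fun q M hq hq3 hM hfr => ?_, fun M hM hfr => ?_⟩
  · have h1 := hq0 r hr hrT hrC S hS hsep q M hq hM hw
    have h2 : 0 ≤ C * (q / (q - 2)) * c ^ (2 - q) * (M / ν) ^ q * r ^ (q - 3) := by
      have : 0 < q - 2 := by linarith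
      positivity
    calc (S.card : ℝ) ≤ 2 * (C * (q / (q - 2)) * c ^ (2 - q) * (M / ν) ^ q * r ^ (q - 3)) := by linarith
      _ = _ := by ring
  · -- the Hausdorff measure
    have hq2 : 0 < q - 2 := by linarith
    obtain ⟨N, hN⟩ : ∃ N, N = C * (q / (q - 2)) * c ^ (2 - q) * (M / ν) ^ q := ⟨_, rfl⟩
    have hN0 : 0 ≤ N := by rw [hN]; positivity
    have hstep : ∀ n : ℕ, ∃ r : ℝ, 0 < r ∧ r < 1 / ((n : ℝ) + 1) ∧ ∃ F : Finset V,
        (F.card : ℝ) ≤ N * r ^ (q - 3) ∧ ∀ x ∈ {x ∈ cube | Sing T u x}, ∃ y ∈ F, ‖x - y‖ < r := by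
      intro n
      obtain ⟨r, hr, hrr, hrn, hw⟩ := hgood q M (1 / ((n : ℝ) + 1)) (by positivity) hfr
      obtain ⟨F, hF1, -, hF3⟩ := cover_sep (Z := {x ∈ cube | Sing T u x}) hr
        (fun S hS hsep => hq1 r hr hrr S hS hsep q M hq hM hw)
      exact ⟨r, hr, hrn, F, by rw [hN]; exact hF1, hF3⟩
    choose r hr hrn F hF1 hF2 using hstep
    have hlim : Tendsto (fun n => ENNReal.ofReal (2 * r n)) atTop (𝓝 0) := by
      have h1 : Tendsto (fun n : ℕ => 2 * (1 / ((n : ℝ) + 1))) atTop (𝓝 (2 * 0)) :=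
        tendsto_one_div_add_atTop_nhds_zero_nat.const_mul 2
      rw [mul_zero] at h1
      have h2 : Tendsto (fun n => 2 * r n) atTop (𝓝 0) :=
        squeeze_zero (fun n => by have := hr n; positivity)
          (fun n => by have := (hrn n).le; linarith) h1
      have h3 := ENNReal.tendsto_ofReal h2
      rwa [ENNReal.ofReal_zero] at h3
    have hdiam : ∀ n (y : V), Metric.ediam (Metric.ball y (r n)) ≤ ENNReal.ofReal (2 * r n) := by
      intro n y
      refine Metric.ediam_le fun a ha b hb => ?_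
      rw [edist_dist]
      apply ENNReal.ofReal_le_ofReal
      rw [Metric.mem_ball] at ha hb
      have := dist_triangle_right a b y
      linarith
    have key := Measure.hausdorffMeasure_le_liminf_sum (ι := fun n => {y // y ∈ F n}) (3 - q)
      {x ∈ cube | Sing T u x} (l := atTop) (fun n => ENNReal.ofReal (2 * r n)) hlim
      (fun n y => Metric.ball (y : V) (r n)) (Eventually.of_forall fun n y => hdiam n y)
      (Eventually.of_forall fun n x hx => by
        obtain ⟨y, hy, hxy⟩ := hF2 n x hx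
        exact mem_iUnion.2 ⟨⟨y, hy⟩, by rw [Metric.mem_ball, dist_eq_norm]; exact hxy⟩)
    refine key.trans ?_
    have hsum : ∀ n, ∑ y : {y // y ∈ F n}, Metric.ediam (Metric.ball (y : V) (r n)) ^ (3 - q)
        ≤ ENNReal.ofReal (2 * N) := by
      intro n
      have h1 : ∀ y : V, Metric.ediam (Metric.ball y (r n)) ^ (3 - q)
          ≤ ENNReal.ofReal ((2 * r n) ^ (3 - q)) := by
        intro y
        rw [← ENNReal.ofReal_rpow_of_nonneg (by have := hr n; positivity) (by linarith)]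
        exact ENNReal.rpow_le_rpow (hdiam n y) (by linarith)
      refine (Finset.sum_le_sum fun (y : {y // y ∈ F n}) _ => h1 (y : V)).trans ?_
      rw [Finset.sum_const, Finset.card_univ, Fintype.card_coe, nsmul_eq_mul,
        ← ENNReal.ofReal_natCast, ← ENNReal.ofReal_mul (by positivity)]
      apply ENNReal.ofReal_le_ofReal
      have hrn0 := hr n
      have e1 : (2 * r n) ^ (3 - q) = (2 : ℝ) ^ (3 - q) * r n ^ (3 - q) :=
        Real.mul_rpow (by norm_num) hrn0.le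
      have e2 : r n ^ (q - 3) * r n ^ (3 - q) = 1 := by
        rw [← Real.rpow_add hrn0]
        simp
      have e3 : (2 : ℝ) ^ (3 - q) ≤ 2 := by
        calc (2 : ℝ) ^ (3 - q) ≤ (2 : ℝ) ^ (1 : ℝ) :=
              Real.rpow_le_rpow_of_exponent_le (by norm_num) (by linarith)
          _ = 2 := Real.rpow_one 2
      calc ((F n).card : ℝ) * (2 * r n) ^ (3 - q) ≤ (N * r n ^ (q - 3)) * (2 * r n) ^ (3 - q) :=
            mul_le_mul_of_nonneg_right (hF1 n) (by positivity)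
        _ = N * 2 ^ (3 - q) * (r n ^ (q - 3) * r n ^ (3 - q)) := by rw [e1]; ring
        _ ≤ N * 2 * 1 := by
            rw [e2]
            gcongr
        _ = 2 * N := by ring
    refine (liminf_le_liminf (Eventually.of_forall hsum)).trans ?_
    rw [liminf_const]
    apply ENNReal.ofReal_le_ofReal
    rw [hN]
    exact le_of_eq (by ring)
  · -- finitely many points
    obtain ⟨N, hN⟩ : ∃ N, N = C * ((3 : ℝ) / (3 - 2)) * c ^ (2 - (3 : ℝ)) * (M / ν) ^ (3 : ℝ) := ⟨_, rfl⟩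
    have hN0 : 0 ≤ N := by rw [hN]; positivity
    have hcard : ∀ S : Finset V, (∀ x ∈ S, x ∈ cube ∧ Sing T u x) → (S.card : ℝ) ≤ N := by
      intro S hS
      -- the least distance
      obtain ⟨ρ, hρ, hsep⟩ : ∃ ρ : ℝ, 0 < ρ ∧ ∀ x ∈ S, ∀ y ∈ S, x ≠ y → ρ ≤ ‖x - y‖ := by
        have h1 : ∀ᶠ ρ in 𝓝[>] (0 : ℝ), ∀ x ∈ S, ∀ y ∈ S, x ≠ y → ρ ≤ ‖x - y‖ := by
          rw [Finset.eventually_all]
          intro x hx
          rw [Finset.eventually_all]
          intro y hy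
          by_cases hxy : x = y
          · exact Eventually.of_forall fun _ h => absurd hxy h
          · have h2 : 0 < ‖x - y‖ := norm_pos_iff.2 (sub_ne_zero.2 hxy)
            filter_upwards [Ioo_mem_nhdsGT h2] with ρ hρ _
            exact hρ.2.le
        obtain ⟨ρ, h2, h3⟩ := (h1.and (self_mem_nhdsWithin : Ioi (0 : ℝ) ∈ 𝓝[>] 0)).exists
        exact ⟨ρ, h3, h2⟩
      obtain ⟨r, hr, hrr, hrρ, hw⟩ := hgood 3 M ρ hρ hfr
      have h1 := hq1 r hr hrr S hS (fun x hx y hy hxy => hrρ.le.trans (hsep x hx y hy hxy)) 3 M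
        (by norm_num) hM hw
      rw [sub_self, Real.rpow_zero, mul_one] at h1
      rw [hN]
      exact h1
    have hfin : {x ∈ cube | Sing T u x}.Finite := by
      by_contra hinf
      obtain ⟨S, hS1, hS2⟩ := (Set.Infinite.exists_subset_card_eq hinf (⌊N⌋₊ + 1))
      have h1 := hcard S fun x hx => hS1 hx
      rw [hS2] at h1
      have h2 := Nat.lt_floor_add_one N
      push_cast at h1
      linarith
    refine ⟨hfin, ?_⟩
    rw [Set.ncard_eq_toFinset_card _ hfin]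
    have h1 := hcard hfin.toFinset fun x hx => by
      rw [Set.Finite.mem_toFinset] at hx
      exact hx
    refine h1.trans ?_
    rw [hN]
    have e : (M / ν) ^ (3 : ℝ) = (M / ν) ^ (3 : ℕ) := by
      rw [← Real.rpow_natCast]
      norm_num
    rw [e]
    have hdbl : ∀ a b : ℝ, 0 ≤ a * b → a * b ≤ 2 * a * b := fun a b hab => by linarith
    refine hdbl _ _ ?_
    positivity

end Run7.h219.SL
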