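import Pool.Agent.Run7.h219.SL.Count3

/-!
Counting of singular points: the gradient is bounded by a function and a small constant; the final
time is chosen before the function.
-/

set_option autoImplicit false

open MeasureTheory Set Metric Filter
open scoped ContDiff Topology ENNReal

namespace Run7.h219.SL

open H459R3.NS W221.NS
open Pool.Agent.W298.ME.MARK2 (measurable_indicator vol)
open W382.ME (cd_slice int_ball speed point B2_frv A2_bd pack gsq_nonneg gsq_cont)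

/-- The number of separated singular points. -/
def S_COUNT4 : Prop := ∃ C ε : ℝ, 0 < C ∧ 0 < ε ∧ ∀ (T κ E : ℝ) (O : Set V) (u : ℝ → V → V)
  (p : ℝ → V → ℝ), 0 ≤ κ → 0 ≤ E → LSol T κ E O u p → ∀ r : ℝ, 0 < r → 2 * r ^ 2 < T →
    C * κ * √r ≤ 1 →
    ∀ S : Finset V, (∀ x ∈ S, Sing T u x) →
    (∀ x ∈ S, ball x (C * (r + E * √r)) ⊆ O) →
    (∀ x ∈ S, ∀ y ∈ S, x ≠ y → r / 4 ≤ ‖x - y‖) →
    ∃ s : ℝ, T - r ^ 2 < s ∧ s < T ∧ ∀ g : ℝ → V → ℝ,
    ContinuousOn (fun z : ℝ × V => g z.1 z.2) (Ioo 0 T ×ˢ univ) →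
    (∀ t ∈ Ioo (s - r ^ 2) s, ∀ y ∈ O, 0 ≤ g t y ∧ gsq (u t) y ≤ 2 * g t y + ε / r ^ 4) →
      ENNReal.ofReal (S.card * r) ≤ ENNReal.ofReal C *
        ∫⁻ τ in Ioo (s - r ^ 2) s, ∫⁻ y in O, ENNReal.ofReal (g τ y)

theorem t_COUNT4 (h1 : S_LOCAL) (h2 : S_MOLL2) (h3 : S_FLOWX2) (h4 : S_FLOWM2) (h5 : S_FRAME2) :
    S_COUNT4 := by
  obtain ⟨ε, CL, hε, hCL, hloc⟩ := h1
  obtain ⟨CM, hCM, hmol⟩ := h2
  refine ⟨9 + CM + 3 * 4096 * 256 / ε, ε / 8192, by positivity, by positivity, ?_⟩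
  intro T κ E O u p hκ hE hsol r hr hrT hκr S hS hO hsep
  have hr2 : 0 < r ^ 2 := by positivity
  have hsr0 : 0 < √r := Real.sqrt_pos.2 hr
  have hss : √r * √r = r := Real.mul_self_sqrt hr.le
  have hsr : √(r ^ 3) = r * √r := by
    rw [show r ^ 3 = r ^ 2 * r by ring, Real.sqrt_mul (by positivity), Real.sqrt_sq hr.le]
  obtain ⟨L, hgood⟩ := hmol T κ E O u p hκ hE hsol r hr
  have hMr : CM * E / √(r ^ 3) * r ^ 2 = CM * E * √r := by
    rw [hsr, div_mul_eq_mul_div, div_eq_iff (by positivity)]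
    calc CM * E * r ^ 2 = CM * E * (r * (√r * √r)) := by rw [hss]; ring
      _ = _ := by ring
  have hκ' : CM * κ / √(r ^ 3) * r ^ 2 ≤ 1 := by
    have e : CM * κ / √(r ^ 3) * r ^ 2 = CM * κ * √r := by
      rw [hsr, div_mul_eq_mul_div, div_eq_iff (by positivity)]
      calc CM * κ * r ^ 2 = CM * κ * (r * (√r * √r)) := by rw [hss]; ring
        _ = _ := by ring
    rw [e]
    refine le_trans ?_ hκr
    have : 0 ≤ 3 * 4096 * 256 / ε := by positivity
    gcongr
    linarith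
  set M := CM * E / √(r ^ 3) with hMdef
  have hM0 : 0 ≤ M := by positivity
  obtain ⟨δ, hδ0, hδ1, hδ2, hδ3⟩ : ∃ δ : ℝ, 0 < δ ∧ δ ≤ r ^ 2 / 32 ∧ δ ≤ r / 16 ∧ M * δ ≤ r / 16 := by
    refine ⟨min (r ^ 2 / 32) (r / 16 / (M + 1)), by positivity, min_le_left _ _, ?_, ?_⟩
    · refine (min_le_right _ _).trans (div_le_self (by positivity) (by linarith))
    · calc M * min (r ^ 2 / 32) (r / 16 / (M + 1)) ≤ (M + 1) * (r / 16 / (M + 1)) := by
            apply mul_le_mul (by linarith) (min_le_right _ _) (by positivity) (by positivity)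
        _ = r / 16 := by field_simp
  set Q := CL * (1 + √(2 * r ^ 2 * ((r ^ 3)⁻¹ * E ^ 2 + 1536 * M ^ 2))) with hQ
  have hsing : ∀ x : V, ∃ t : ℝ, ∃ y : V, x ∈ S → (t ∈ Ioo (T - δ) T ∧ y ∈ ball x δ ∧
      Q / r + M < ‖u t y‖) := by
    intro x
    by_cases hx : x ∈ S
    · obtain ⟨t, ht, y, hy, h⟩ := hS x hx δ hδ0 (Q / r + M)
      exact ⟨t, y, fun _ => ⟨ht, hy, h⟩⟩
    · exact ⟨0, 0, fun h => absurd h hx⟩
  choose tx yx htx using hsing
  obtain ⟨s, hs1, hs2, hs3⟩ : ∃ s, T - δ < s ∧ s < T ∧ ∀ x ∈ S, tx x < s := by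
    have e1 : ∀ᶠ s in 𝓝[<] T, s ∈ Ioo (T - δ) T := Ioo_mem_nhdsLT (by linarith)
    have e2 : ∀ᶠ s in 𝓝[<] T, ∀ x ∈ S, tx x < s := by
      rw [Finset.eventually_all]
      intro x hx
      filter_upwards [Ioo_mem_nhdsLT (htx x hx).1.2] with s hs
      exact hs.1
    obtain ⟨s, h1, h2⟩ := (e1.and e2).exists
    exact ⟨s, h1.1, h1.2, h2⟩
  refine ⟨s, by linarith, hs2, fun g hg hgu => ?_⟩
  have hrs : r ^ 2 < s := by linarith
  have hα : 0 < s - r ^ 2 := by linarith
  have hαβ : s - r ^ 2 < s := by linarith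
  obtain ⟨X, hX⟩ := h3 T M L _ (mol r u) hgood (s - r ^ 2) s hα hαβ hs2
  have hmeas := h4 T M L _ (mol r u) hgood (s - r ^ 2) s hα hαβ hs2 X hX
  have hMb : ∀ t ∈ Ioo (s - r ^ 2) s, ∀ x, ‖mol r u t x‖ ≤ M := fun t ht x =>
    hgood.bd t ⟨hα.trans ht.1, ht.2.trans hs2⟩ x
  have hmark := mark3 hsol.openO hg hr hrs hs2 X _ hX.cont hmeas
  have hexp : Real.exp (CM * κ / √(r ^ 3) * (s - (s - r ^ 2))) ≤ 3 := by
    rw [sub_sub_cancel]
    calc Real.exp (CM * κ / √(r ^ 3) * r ^ 2) ≤ Real.exp 1 := Real.exp_le_exp.2 hκ'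
      _ ≤ 3 := by linarith [Real.exp_one_lt_d9]
  have hclaim : ∀ x ∈ S, ∀ z ∈ ball x (r / 8), ENNReal.ofReal (ε / (4 * r)) ≤
      ∫⁻ t in Ioo (-1 : ℝ) 0, ∫⁻ y in ball (X (s + r ^ 2 * t) z) (8 * r) ∩ O,
          ENNReal.ofReal (g (s + r ^ 2 * t) y) := by
    intro x hx z hz
    by_contra hlt
    rw [not_le] at hlt
    replace hlt : ∫⁻ t in Ioo (-1 : ℝ) 0, ∫⁻ y in ball (X (s + r ^ 2 * t) z) (8 * r) ∩ O,
          ENNReal.ofReal (gsq (u (s + r ^ 2 * t)) y) < ENNReal.ofReal (ε / r) := by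
      have hin : ∀ t ∈ Ioo (-1 : ℝ) 0, ∫⁻ y in ball (X (s + r ^ 2 * t) z) (8 * r) ∩ O,
          ENNReal.ofReal (gsq (u (s + r ^ 2 * t)) y)
          ≤ 2 * (∫⁻ y in ball (X (s + r ^ 2 * t) z) (8 * r) ∩ O, ENNReal.ofReal (g (s + r ^ 2 * t) y))
            + ENNReal.ofReal (ε / (2 * r)) := by
        intro t ht
        have a1 : r ^ 2 * (-1) < r ^ 2 * t := (mul_lt_mul_iff_right₀ hr2).2 ht.1
        have a2 : r ^ 2 * t < r ^ 2 * 0 := (mul_lt_mul_iff_right₀ hr2).2 ht.2
        have htT : s + r ^ 2 * t ∈ Ioo (s - r ^ 2) s := ⟨by linarith, by linarith⟩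
        have hmb : MeasurableSet (ball (X (s + r ^ 2 * t) z) (8 * r) ∩ O) :=
          measurableSet_ball.inter hsol.openO.measurableSet
        have hpt : ∀ y ∈ ball (X (s + r ^ 2 * t) z) (8 * r) ∩ O,
            ENNReal.ofReal (gsq (u (s + r ^ 2 * t)) y)
            ≤ 2 * ENNReal.ofReal (g (s + r ^ 2 * t) y) + ENNReal.ofReal (ε / 8192 / r ^ 4) := by
          intro y hy
          obtain ⟨h1, h2⟩ := hgu _ htT y hy.2
          have e2 : (2 : ℝ≥0∞) = ENNReal.ofReal 2 := by simp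
          rw [e2, ← ENNReal.ofReal_mul (by norm_num), ← ENNReal.ofReal_add (by positivity) (by positivity)]
          exact ENNReal.ofReal_le_ofReal h2
        have htI : s + r ^ 2 * t ∈ Ioo 0 T := ⟨by linarith, htT.2.trans hs2⟩
        have hgc : Continuous (fun y => g (s + r ^ 2 * t) y) :=
          hg.comp_continuous (f := fun y : V => ((s + r ^ 2 * t, y) : ℝ × V)) (by fun_prop)
            (fun y => ⟨htI, mem_univ _⟩)
        have hvol : volume (ball (X (s + r ^ 2 * t) z) (8 * r) ∩ O) ≤ ENNReal.ofReal (4096 * r ^ 3) := by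
          refine (measure_mono inter_subset_left).trans (le_of_eq ?_)
          rw [Real.volume_pi_ball _ (by positivity : 0 < 8 * r)]
          have h3 : (2 * (8 * r)) ^ Fintype.card (Fin 3) = 4096 * r ^ 3 := by
            rw [Fintype.card_fin]
            ring
          rw [h3]
        refine (setLIntegral_mono' hmb hpt).trans ?_
        rw [lintegral_add_right _ measurable_const, lintegral_const_mul _
          (hgc.measurable.ennreal_ofReal), setLIntegral_const]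
        refine add_le_add le_rfl ?_
        refine (mul_le_mul_right hvol _).trans (le_of_eq ?_)
        rw [← ENNReal.ofReal_mul (by positivity)]
        congr 1
        field_simp
        norm_num
      have hin2 : ∫⁻ t in Ioo (-1 : ℝ) 0, ∫⁻ y in ball (X (s + r ^ 2 * t) z) (8 * r) ∩ O,
          ENNReal.ofReal (gsq (u (s + r ^ 2 * t)) y)
          ≤ 2 * (∫⁻ t in Ioo (-1 : ℝ) 0, ∫⁻ y in ball (X (s + r ^ 2 * t) z) (8 * r) ∩ O,
            ENNReal.ofReal (g (s + r ^ 2 * t) y)) + ENNReal.ofReal (ε / (2 * r)) := by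
        refine (setLIntegral_mono' measurableSet_Ioo hin).trans ?_
        rw [lintegral_add_right _ measurable_const, lintegral_const_mul' _ _ (by norm_num),
          setLIntegral_const]
        refine add_le_add le_rfl (le_of_eq ?_)
        rw [Real.volume_Ioo]
        norm_num
      refine hin2.trans_lt ?_
      have e3 : ENNReal.ofReal (ε / r) = 2 * ENNReal.ofReal (ε / (4 * r)) + ENNReal.ofReal (ε / (2 * r)) := by
        have e2 : (2 : ℝ≥0∞) = ENNReal.ofReal 2 := by simp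
        rw [e2, ← ENNReal.ofReal_mul (by norm_num), ← ENNReal.ofReal_add (by positivity) (by positivity)]
        congr 1
        field_simp
        norm_num
      rw [e3]
      refine ENNReal.add_lt_add_right ENNReal.ofReal_ne_top ?_
      exact ENNReal.mul_lt_mul_right (by norm_num) (by norm_num) hlt
    have hz' : ‖z - x‖ < r / 8 := by rwa [mem_ball, dist_eq_norm] at hz
    have htube : ∀ t ∈ Ioo (s - r ^ 2) s, ball (X t z) (8 * r) ⊆ O := by
      intro t ht
      refine subset_trans ?_ (hO x hx)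
      intro y hy
      rw [mem_ball, dist_eq_norm] at hy ⊢
      have hsp : ‖X s z - X t z‖ ≤ M * (s - t) := speed hX hMb ht z
      rw [hX.fin z] at hsp
      have hsp2 : ‖z - X t z‖ ≤ CM * E * √r := by
        rw [← hMr]
        exact hsp.trans (mul_le_mul_of_nonneg_left (by linarith [ht.1]) hM0)
      have h1 : ‖y - x‖ < 8 * r + CM * E * √r + r / 8 := by
        calc ‖y - x‖ = ‖(y - X t z) - (z - X t z) + (z - x)‖ := by congr 1; abel
          _ ≤ ‖(y - X t z) - (z - X t z)‖ + ‖z - x‖ := norm_add_le _ _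
          _ ≤ ‖y - X t z‖ + ‖z - X t z‖ + ‖z - x‖ := by gcongr; exact norm_sub_le _ _
          _ < _ := by linarith
      have hA : 0 ≤ 3 * 4096 * 256 / ε := by positivity
      have hB : 0 ≤ E * √r := by positivity
      nlinarith [mul_nonneg hA hr.le, mul_nonneg hA hB, mul_nonneg hCM.le hr.le]
    have hsm : ContDiffOn ℝ ∞ (fun τ => X τ z) (Ioo (s - r ^ 2) s) := hX.smooth z
    have hode : ∀ t ∈ Ioo (s - r ^ 2) s,
        HasDerivAt (fun τ => X τ z) (mol r u t ((fun τ => X τ z) t)) t := fun t ht => hX.ode z t ht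
    have hL2 := h5 T κ E O u p hsol r s hr hrs hs2 (fun τ => X τ z) hsm hode htube
    have htime : ∀ t ∈ Ioo (-1 : ℝ) 0, s + r ^ 2 * t ∈ Ioo (s - r ^ 2) s := by
      intro t ht
      have a1 : r ^ 2 * (-1) < r ^ 2 * t := (mul_lt_mul_iff_right₀ hr2).2 ht.1
      have a2 : r ^ 2 * t < r ^ 2 * 0 := (mul_lt_mul_iff_right₀ hr2).2 ht.2
      constructor <;> linarith
    have hT' : ∀ t ∈ Ioo (-1 : ℝ) 0, s + r ^ 2 * t ∈ Ioo 0 T := fun t ht =>
      ⟨hα.trans (htime t ht).1, (htime t ht).2.trans hs2⟩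
    have hcd : ∀ t ∈ Ioo (-1 : ℝ) 0, ContDiff ℝ ∞ (u (s + r ^ 2 * t)) := fun t ht =>
      cd_slice hsol.smooth_u (hT' t ht)
    have hB0 : ∀ t, 0 ≤ B2 0 8 (frv r s (fun τ => X τ z) u t) := fun t =>
      setIntegral_nonneg measurableSet_ball fun w _ => gsq_nonneg _ w
    have hBl : ∀ t ∈ Ioo (-1 : ℝ) 0, ENNReal.ofReal (B2 0 8 (frv r s (fun τ => X τ z) u t))
        = ENNReal.ofReal r * ∫⁻ y in ball (X (s + r ^ 2 * t) z) (8 * r) ∩ O,
          ENNReal.ofReal (gsq (u (s + r ^ 2 * t)) y) := by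
      intro t ht
      rw [inter_eq_self_of_subset_left (htube _ (htime t ht)), B2_frv hr (hcd t ht),
        ENNReal.ofReal_mul hr.le, mul_comm r 8]
      congr 1
      exact ofReal_integral_eq_lintegral_ofReal (int_ball (gsq_cont (hcd t ht)) _ _)
        (Eventually.of_forall fun y => gsq_nonneg _ y)
    have hcont : ContinuousOn (fun t => B2 0 8 (frv r s (fun τ => X τ z) u t)) (Ioo (-1) 0) :=
      ((W335.MD.t_CT Pool.Agent.W333.MD.t_PCONT (-1) 0 _ hL2.smooth_v).1 0 8).2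
    have hlint : ∫⁻ t in Ioo (-1 : ℝ) 0, ENNReal.ofReal (B2 0 8 (frv r s (fun τ => X τ z) u t))
        < ENNReal.ofReal ε := by
      rw [setLIntegral_congr_fun measurableSet_Ioo hBl, lintegral_const_mul' _ _ ENNReal.ofReal_ne_top]
      have : ENNReal.ofReal ε = ENNReal.ofReal r * ENNReal.ofReal (ε / r) := by
        rw [← ENNReal.ofReal_mul hr.le]
        congr 1
        field_simp
      rw [this]
      exact ENNReal.mul_lt_mul_right (by simpa using hr) ENNReal.ofReal_ne_top hlt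
    have hInt : IntegrableOn (fun t => B2 0 8 (frv r s (fun τ => X τ z) u t)) (Ioo (-1) 0) := by
      refine ⟨hcont.aestronglyMeasurable measurableSet_Ioo, ?_⟩
      rw [hasFiniteIntegral_iff_ofReal (Eventually.of_forall hB0)]
      exact hlint.trans ENNReal.ofReal_lt_top
    have hle : ∫ t in Ioo (-1 : ℝ) 0, B2 0 8 (frv r s (fun τ => X τ z) u t) ≤ ε := by
      rw [← ofReal_integral_eq_lintegral_ofReal hInt (Eventually.of_forall hB0)] at hlint
      exact ((ENNReal.ofReal_lt_ofReal_iff hε).1 hlint).le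
    have hl := hloc _ _ hL2 hInt hle
    have hl' : ∀ t ∈ Ioo (-1 / 16 : ℝ) 0, ∀ w ∈ ball (0 : V) (1 / 4), ∀ i,
        |frv r s (fun τ => X τ z) u t w i| ≤ Q := by
      intro t ht w hw i
      refine (hl t ht w hw i).trans ?_
      have ht' : t ∈ Ioo (-1 : ℝ) 0 := ⟨by linarith [ht.1], ht.2⟩
      have hA2 : A2 0 4 (frv r s (fun τ => X τ z) u t)
          ≤ 2 * r ^ 2 * ((r ^ 3)⁻¹ * E ^ 2 + 1536 * M ^ 2) := by
        refine A2_bd (hcd t ht') (hsol.en_int _ (hT' t ht')) (hsol.en _ (hT' t ht')) hr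
          (X (s + r ^ 2 * t) z) (fun i => deriv (fun τ => X τ z i) (s + r ^ 2 * t)) ?_
        intro i
        have hd : HasDerivAt (fun τ => X τ z i) (mol r u (s + r ^ 2 * t) (X (s + r ^ 2 * t) z) i)
            (s + r ^ 2 * t) := (hasDerivAt_pi.1 (hX.ode z _ (htime t ht'))) i
        rw [hd.deriv]
        exact (norm_le_pi_norm (mol r u _ (X _ z)) i).trans (hMb _ (htime t ht') _)
      rw [hQ]
      gcongr
    obtain ⟨ht, hy, hbig⟩ := htx x hx
    have := point (CL := Q) hr hM0 hX hMb hδ1 hδ2 hδ3 (t := tx x) (by linarith [ht.1]) (hs3 x hx)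
      hz hy hl'
    linarith
  have hpack := pack hr S hsep hclaim
  set J := ∫⁻ τ in Ioo (s - r ^ 2) s, ∫⁻ y in O, ENNReal.ofReal (g τ y) with hJ
  have hfin : S.card * (ENNReal.ofReal (ε / (4 * r)) * ENNReal.ofReal ((r / 4) ^ 3))
      ≤ ENNReal.ofReal 3 * ENNReal.ofReal (4096 * r) * J := by
    refine (hpack.trans hmark).trans ?_
    gcongr
  have hk : ENNReal.ofReal (256 / (ε * r)) * (S.card * (ENNReal.ofReal (ε / (4 * r)) *
      ENNReal.ofReal ((r / 4) ^ 3))) ≤ ENNReal.ofReal (256 / (ε * r)) *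
        (ENNReal.ofReal 3 * ENNReal.ofReal (4096 * r) * J) := by gcongr
  calc ENNReal.ofReal (S.card * r) = ENNReal.ofReal (256 / (ε * r)) *
        (S.card * (ENNReal.ofReal (ε / (4 * r)) * ENNReal.ofReal ((r / 4) ^ 3))) := by
        rw [← ENNReal.ofReal_mul (by positivity), ← ENNReal.ofReal_natCast S.card,
          ← ENNReal.ofReal_mul (by positivity), ← ENNReal.ofReal_mul (by positivity)]
        congr 1
        field_simp
        ring
    _ ≤ _ := hk
    _ = ENNReal.ofReal (3 * 4096 * 256 / ε) * J := by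
        rw [← mul_assoc, ← ENNReal.ofReal_mul (by positivity), ← ENNReal.ofReal_mul (by positivity)]
        congr 2
        field_simp
    _ ≤ _ := by
        gcongr
        linarith



end Run7.h219.SL
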