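import Pool.Agent.Run7.h219.SL.Jet

/-!
Duhamel's integral.
-/

set_option autoImplicit false

open MeasureTheory Set Filter Topology ProbabilityTheory
open scoped ContDiff NNReal

namespace Run7.h219.SL

open H459R3.NS

/-- Duhamel's integral. -/
noncomputable def DD (g : ℝ → V → ℝ) (t : ℝ) (x : V) : ℝ := ∫ s in (0 : ℝ)..t, P (t - s) (g s) x

section

variable {g : ℝ → V → ℝ}

lemma dα : Continuous (fun z : ℝ × ℝ => (fun t s : ℝ => t - s) z.1 z.2) := by fun_prop
lemma dβ : Continuous (fun z : ℝ × ℝ => (fun _ s : ℝ => s) z.1 z.2) := by fun_prop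
lemma dβ' : Continuous (fun z : ℝ × ℝ => (fun t _ : ℝ => t) z.1 z.2) := by fun_prop

lemma DD_eq (g : ℝ → V → ℝ) : DD g = LL (fun t s => t - s) (fun _ s => s) (fun t => t) g := rfl

lemma JJ.DD (hg : JJ g) : JJ (DD g) := by
  rw [DD_eq]
  exact hg.LL dα dβ continuous_id

lemma pd_DD (hg : JJ g) (t : ℝ) (j : Fin 3) : pd j (DD g t) = DD (fun s => pd j (g s)) t := by
  rw [DD_eq, DD_eq]
  exact pd_LL dα dβ hg t j

lemma DD_ii (hg : JJ g) (t : ℝ) (x : V) : Continuous (fun s => P (t - s) (g s) x) :=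
  LL_ii (α := fun t s => t - s) (β := fun _ s => s) dα dβ hg t x

lemma DD_sum {ι : Type*} {S : Finset ι} {g : ι → ℝ → V → ℝ} (hg : ∀ i ∈ S, JJ (g i)) (t : ℝ) (x : V) :
    DD (fun s y => ∑ i ∈ S, g i s y) t x = ∑ i ∈ S, DD (g i) t x := by
  unfold DD
  rw [← intervalIntegral.integral_finsetSum fun i hi => (DD_ii (hg i hi) t x).intervalIntegrable _ _]
  congr 1
  funext s
  exact P_sum (fun i hi => (hg i hi).sp s) _ x

lemma lap_DD (hg : JJ g) (t : ℝ) : lap (DD g t) = DD (fun s => lap (g s)) t := by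
  funext x
  have h1 : DD (fun s => lap (g s)) t x = ∑ j, DD (fun s => pd j (pd j (g s))) t x :=
    DD_sum (fun j _ => (hg.pd j).pd j) t x
  rw [h1]
  unfold lap
  refine Finset.sum_congr rfl fun j _ => ?_
  rw [pd_DD hg, pd_DD (hg.pd j)]

/-- The time derivative of Duhamel's integral. -/
lemma DD_t (hg : JJ g) {t : ℝ} (ht : 0 < t) (x : V) :
    HasDerivAt (fun t => DD g t x) (g t x + DD (fun s => lap (g s)) t x) t := by
  -- joint continuity
  have hjc : Continuous (fun q : ℝ × ℝ => P (q.1 - q.2) (g q.2) x) :=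
    hg.P_cont.comp (by fun_prop : Continuous fun q : ℝ × ℝ => ((q.1 - q.2, q.2, x) : ℝ × ℝ × V))
  obtain ⟨K, hK0, hK⟩ := hg.lap.bdd 0 t
  have hA : HasDerivAt (fun τ => ∫ s in (0 : ℝ)..t, P (τ - s) (g s) x)
      (∫ s in (0 : ℝ)..t, P (t - s) (lap (g s)) x) t := by
    refine (intervalIntegral.hasDerivAt_integral_of_dominated_loc_of_lip (μ := volume)
      (F := fun τ s => P (τ - s) (g s) x) (F' := fun s => P (t - s) (lap (g s)) x) (x₀ := t)
      (bound := fun _ => K) (s := univ) Filter.univ_mem ?_ ?_ ?_ ?_ ?_ ?_).2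
    · exact Eventually.of_forall fun τ => (DD_ii hg τ x).aestronglyMeasurable
    · exact (DD_ii hg t x).intervalIntegrable _ _
    · exact (DD_ii hg.lap t x).aestronglyMeasurable
    · refine ae_of_all _ fun s hs => ?_
      rw [uIoc_of_le ht.le] at hs
      refine LipschitzOnWith.of_dist_le_mul fun σ _ τ _ => ?_
      rw [Real.dist_eq, Real.dist_eq, Real.coe_nnabs, abs_of_nonneg hK0]
      have h1 := P_lip (hg.sp s) (hK s ⟨hs.1.le, hs.2⟩) x (σ - s) (τ - s)
      rwa [sub_sub_sub_cancel_right] at h1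
    · exact intervalIntegrable_const
    · have h1 : ∀ᵐ s : ℝ, s ∈ ({t}ᶜ : Set ℝ) := compl_mem_ae_iff.2 (measure_singleton t)
      filter_upwards [h1] with s hs1 hs
      rw [uIoc_of_le ht.le] at hs
      have h2 : 0 < t - s := by
        have : s ≠ t := hs1
        have := lt_of_le_of_ne hs.2 this
        linarith
      exact (P_t (hg.sp s) h2 x).comp_sub_const t s
  have hB : HasDerivAt (fun τ => ∫ s in t..τ, P (τ - s) (g s) x) (g t x) t := by
    rw [hasDerivAt_iff_isLittleO, Asymptotics.isLittleO_iff]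
    intro ε hε
    have h1 : ContinuousAt (fun q : ℝ × ℝ => P (q.1 - q.2) (g q.2) x) (t, t) := hjc.continuousAt
    obtain ⟨δ, hδ, h2⟩ := Metric.continuousAt_iff.1 h1 ε hε
    have h3 : P (t - t) (g t) x = g t x := by
      rw [sub_self, P_zero]
    filter_upwards [Metric.ball_mem_nhds t hδ] with τ hτ
    rw [intervalIntegral.integral_same, sub_zero]
    have h4 : (∫ s in t..τ, P (τ - s) (g s) x) - (τ - t) • g t x
        = ∫ s in t..τ, (P (τ - s) (g s) x - g t x) := by
      rw [intervalIntegral.integral_sub ((DD_ii hg τ x).intervalIntegrable _ _)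
        intervalIntegrable_const, intervalIntegral.integral_const]
    rw [h4, Real.norm_eq_abs (τ - t)]
    refine intervalIntegral.norm_integral_le_of_norm_le_const fun s hs => ?_
    have hs' : |s - t| ≤ |τ - t| := by
      rcases le_total t τ with h | h
      · rw [uIoc_of_le h] at hs
        rw [abs_of_nonneg (by linarith [hs.1]), abs_of_nonneg (by linarith)]
        linarith [hs.2]
      · rw [uIoc_of_ge h] at hs
        rw [abs_of_nonpos (by linarith [hs.2]), abs_of_nonpos (by linarith)]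
        linarith [hs.1]
    have hτ' : |τ - t| < δ := by rwa [Metric.mem_ball, Real.dist_eq] at hτ
    have h5 := @h2 (τ, s) (by
      rw [Prod.dist_eq, Real.dist_eq, Real.dist_eq]
      exact max_lt hτ' (hs'.trans_lt hτ'))
    simp only at h5
    rw [h3, Real.dist_eq] at h5
    rw [Real.norm_eq_abs]
    exact h5.le
  have hsum := hB.add hA
  have e : (fun τ => DD g τ x) = fun τ => (∫ s in t..τ, P (τ - s) (g s) x)
      + ∫ s in (0 : ℝ)..t, P (τ - s) (g s) x := by
    funext τ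
    rw [add_comm]
    exact (intervalIntegral.integral_add_adjacent_intervals ((DD_ii hg τ x).intervalIntegrable _ _)
      ((DD_ii hg τ x).intervalIntegrable _ _)).symm
  rw [e]
  exact hsum

/-- Heat flow of an integral. -/
lemma P_int_comm {k : ℝ → V → ℝ} (hk : Continuous (fun z : ℝ × V => k z.1 z.2)) {a b B : ℝ}
    (hb : ∀ s ∈ Set.uIoc a b, ∀ y, |k s y| ≤ B) (σ : ℝ) (x : V) :
    P σ (fun y => ∫ s in a..b, k s y) x = ∫ s in a..b, P σ (k s) x := by
  unfold P
  rw [MeasureTheory.intervalIntegral_integral_swap]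
  have : IsFiniteMeasure ((volume : Measure ℝ).restrict (Set.uIoc a b)) :=
    ⟨by rw [Measure.restrict_apply_univ]; simp [uIoc]⟩
  have hc : Continuous (Function.uncurry fun (s : ℝ) (z : V) => k s (x + √(2 * σ) • z)) :=
    hk.comp (by fun_prop : Continuous fun q : ℝ × V => ((q.1, x + √(2 * σ) • q.2) : ℝ × V))
  refine Integrable.mono' (g := fun _ => B) (integrable_const B) hc.aestronglyMeasurable ?_
  have h1 : ∀ᵐ q ∂(((volume : Measure ℝ).restrict (Set.uIoc a b)).prod G), q.1 ∈ Set.uIoc a b := by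
    have h2 := (Measure.quasiMeasurePreserving_fst (μ := (volume : Measure ℝ).restrict (Set.uIoc a b))
      (ν := G)).ae (ae_restrict_mem measurableSet_uIoc)
    exact h2
  filter_upwards [h1] with q hq
  rw [Real.norm_eq_abs]
  exact hb _ hq _

/-- The heat flow of Duhamel's integral. -/
lemma DD_split (hg : JJ g) {τ t : ℝ} (h0 : 0 ≤ τ) (h : τ ≤ t) (x : V) :
    DD g t x = P (t - τ) (DD g τ) x + ∫ s in τ..t, P (t - s) (g s) x := by
  have h1 : P (t - τ) (DD g τ) x = ∫ s in (0 : ℝ)..τ, P (t - s) (g s) x := by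
    obtain ⟨B, -, hB⟩ := hg.bdd 0 τ
    have h2 := P_int_comm (k := fun s y => P (τ - s) (g s) y) (a := 0) (b := τ) (B := B)
      (hg.P_cont.comp (by fun_prop : Continuous fun z : ℝ × V => ((τ - z.1, z.1, z.2) : ℝ × ℝ × V)))
      (fun s hs y => by
        rw [uIoc_of_le h0] at hs
        exact P_abs _ _ (hB s ⟨hs.1.le, hs.2⟩)) (t - τ) x
    have h3 : DD g τ = fun y => ∫ s in (0 : ℝ)..τ, P (τ - s) (g s) y := rfl
    rw [h3, h2]
    refine intervalIntegral.integral_congr_ae (ae_of_all _ fun s hs => ?_)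
    rw [uIoc_of_le h0] at hs
    rw [P_add_time (hg.sp s) (by linarith) (by linarith [hs.2])]
    congr 1
    ring
  rw [h1]
  exact (intervalIntegral.integral_add_adjacent_intervals ((DD_ii hg t x).intervalIntegrable _ _)
      ((DD_ii hg t x).intervalIntegrable _ _)).symm

end

/-! ### The integral of the heat flow from time zero -/

section

variable {f : V → ℝ} {H : ℝ}

lemma hh_eq (f : V → ℝ) (H t : ℝ) :
    hh 0 H f = LL (fun _ s => s) (fun t _ => t) (fun _ => H) (fun _ => f) t := rfl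

lemma hh0_sp (hf : SP f) (H : ℝ) : SP (hh 0 H f) := by
  rw [hh_eq f H 0]
  exact LL_sp dβ dβ' continuous_const (JJ.const hf) 0

lemma pd_hh0 (hf : SP f) (H : ℝ) (j : Fin 3) : pd j (hh 0 H f) = hh 0 H (pd j f) := by
  rw [hh_eq f H 0, pd_LL dβ dβ' (JJ.const hf)]
  rfl

lemma JJ.hh {g : ℝ → V → ℝ} (hg : JJ g) (H : ℝ) : JJ (fun t => hh 0 H (g t)) :=
  hg.LL dβ dβ' (continuous_const (y := H))

lemma lap_hh0 (hf : SP f) (hH : 0 ≤ H) (x : V) : lap (hh 0 H f) x = P H f x - f x := by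
  have h1 : lap (hh 0 H f) x = hh 0 H (lap f) x := by
    have e : hh 0 H (lap f) x = ∑ j, hh 0 H (pd j (pd j f)) x := by
      unfold lap
      exact hh_sum (fun j _ => (hf.pd j).pd j) 0 H x
    rw [e]
    unfold lap
    refine Finset.sum_congr rfl fun j _ => ?_
    rw [pd_hh0 hf, pd_hh0 (hf.pd j)]
  rw [h1]
  unfold hh
  have h2 := intervalIntegral.integral_eq_sub_of_hasDerivAt_of_le (f := fun s => P s f x)
    (f' := fun s => P s (lap f) x) hH (P_cont_t hf x).continuousOn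
    (fun s hs => P_t hf hs.1 x) (hh_ii hf.lap x 0 H)
  rw [h2, P_zero]

lemma P_hh (hf : SP f) {σ : ℝ} (hσ : 0 ≤ σ) (hH : 0 ≤ H) (x : V) :
    P σ (hh 0 H f) x = hh σ (σ + H) f x := by
  obtain ⟨B, -, hB⟩ := spb hf
  have h2 := P_int_comm (k := fun s y => P s f y) (a := 0) (b := H) (B := B)
    (P_cont hf) (fun s _ y => P_abs _ _ hB) σ x
  have h3 : hh 0 H f = fun y => ∫ s in (0 : ℝ)..H, P s f y := rfl
  rw [h3, h2]
  have h4 : ∫ s in (0 : ℝ)..H, P σ (P s f) x = ∫ s in (0 : ℝ)..H, P (σ + s) f x := by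
    refine intervalIntegral.integral_congr_ae (ae_of_all _ fun s hs => ?_)
    rw [uIoc_of_le hH] at hs
    exact P_add_time hf hσ hs.1.le x
  rw [h4, intervalIntegral.integral_comp_add_left (fun s => P s f x) σ, add_zero]
  rfl

lemma P_two (hf : SP f) {s : ℝ} (hs : 0 < s) {B : ℝ} (hB : ∀ x, |f x| ≤ B) (i j : Fin 3) (x : V) :
    |P s (pd i (pd j f)) x| ≤ s⁻¹ * B := by
  have h2 : 0 < s / 2 := by positivity
  have e : √(2 * (s / 2)) = √s := by congr 1; ring
  have b1 : ∀ x, |P (s / 2) (pd j f) x| ≤ (√s)⁻¹ * B := fun x => by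
    have := P_grad hf h2 hB j x
    rwa [e] at this
  have b2 := P_grad (P_sp (hf.pd j) h2.le) h2 b1 i x
  rw [e] at b2
  have e1 : P s (pd i (pd j f)) x = P (s / 2) (pd i (P (s / 2) (pd j f))) x := by
    rw [pd_P (hf.pd j) h2.le, P_add_time ((hf.pd j).pd i) h2.le h2.le]
    congr 1
    ring
  rw [e1]
  refine b2.trans (le_of_eq ?_)
  rw [← mul_assoc, ← mul_inv, Real.mul_self_sqrt hs.le]

lemma P_four (hf : SP f) {s : ℝ} (hs : 0 < s) {B : ℝ} (hB : ∀ x, |f x| ≤ B) (i j k l : Fin 3) (x : V) :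
    |P s (pd i (pd j (pd k (pd l f)))) x| ≤ 4 * B / s ^ 2 := by
  have h2 : 0 < s / 2 := by positivity
  have b1 : ∀ x, |P (s / 2) (pd k (pd l f)) x| ≤ (s / 2)⁻¹ * B := fun x => P_two hf h2 hB k l x
  have b2 := P_two (P_sp ((hf.pd l).pd k) h2.le) h2 b1 i j x
  have e1 : P s (pd i (pd j (pd k (pd l f)))) x = P (s / 2) (pd i (pd j (P (s / 2) (pd k (pd l f))))) x := by
    rw [pd_P ((hf.pd l).pd k) h2.le, pd_P (((hf.pd l).pd k).pd j) h2.le,
      P_add_time ((((hf.pd l).pd k).pd j).pd i) h2.le h2.le]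
    congr 1
    ring
  rw [e1]
  refine b2.trans (le_of_eq ?_)
  field_simp
  ring

end

/-! ### The integral of the singular kernel -/

lemma ker_ii (τ t : ℝ) : IntervalIntegrable (fun s => (√(t - s))⁻¹) volume τ t := by
  have h1 : IntervalIntegrable (fun s : ℝ => s ^ (-(1 / 2) : ℝ)) volume (t - τ) 0 :=
    intervalIntegral.intervalIntegrable_rpow' (by norm_num)
  have h2 : IntervalIntegrable (fun s : ℝ => (√s)⁻¹) volume (t - τ) 0 := by
    rcases le_total 0 (t - τ) with h | h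
    · refine h1.congr fun s hs => ?_
      rw [uIoc_of_ge h] at hs
      rw [Real.rpow_neg hs.1.le, Real.sqrt_eq_rpow]
    · have h3 : IntervalIntegrable (fun _ : ℝ => (0 : ℝ)) volume (t - τ) 0 := intervalIntegrable_const
      refine h3.congr fun s hs => ?_
      rw [uIoc_of_le h] at hs
      rw [Real.sqrt_eq_zero_of_nonpos hs.2, inv_zero]
  have h4 := h2.comp_sub_left t
  simpa using h4

lemma ker_val {τ t : ℝ} (h : τ ≤ t) : ∫ s in τ..t, (√(t - s))⁻¹ = 2 * √(t - τ) := by
  have h1 := intervalIntegral.integral_eq_sub_of_hasDerivAt_of_le (f := fun s => -(2 * √(t - s)))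
    (f' := fun s => (√(t - s))⁻¹) h (by fun_prop) (fun s hs => ?_) (ker_ii τ t)
  · rw [h1]
    simp
  · have h2 : 0 < t - s := by linarith [hs.2]
    have h3 : HasDerivAt (fun s => t - s) (-1) s := by
      simpa using (hasDerivAt_id s).const_sub t
    have h4 := ((h3.sqrt h2.ne').const_mul 2).neg
    refine h4.congr_deriv ?_
    field_simp

lemma ker_bd {k : ℝ → ℝ} {τ t K : ℝ} (h : τ ≤ t) (hk : ∀ s ∈ Ioo τ t, |k s| ≤ K * (√(t - s))⁻¹) :
    |∫ s in τ..t, k s| ≤ 2 * K * √(t - τ) := by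
  have h1 : ‖∫ s in τ..t, k s‖ ≤ ∫ s in τ..t, K * (√(t - s))⁻¹ := by
    refine intervalIntegral.norm_integral_le_of_norm_le h ?_ ((ker_ii τ t).const_mul K)
    have h1 : ∀ᵐ s : ℝ, s ∈ ({t}ᶜ : Set ℝ) := compl_mem_ae_iff.2 (measure_singleton t)
    filter_upwards [h1] with s hs1 hs
    rw [Real.norm_eq_abs]
    exact hk s ⟨hs.1, lt_of_le_of_ne hs.2 hs1⟩
  rw [Real.norm_eq_abs, intervalIntegral.integral_const_mul, ker_val h] at h1
  linarith

end Run7.h219.SL
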