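import Pool.Agent.Run7.h219.SL.Tint

/-!
The energy estimate at one time for the difference of a solution and a heat flow.
-/

set_option autoImplicit false

open MeasureTheory Set Filter Topology
open scoped ContDiff NNReal

namespace Run7.h219.SL

open H459R3.NS

/-- The integral over the period cell. -/
noncomputable def I (f : V → ℝ) : ℝ := ∫ x in cube, f x

section

variable {f g : V → ℝ}

lemma sp_const (c : ℝ) : SP (fun _ : V => c) := ⟨contDiff_const, fun _ _ => rfl⟩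

lemma sp_cmul (hf : SP f) (c : ℝ) : SP (fun x => c * f x) := (sp_const c).mul hf

lemma sp_neg (hf : SP f) : SP (fun x => -f x) := by
  have h := sp_cmul hf (-1)
  simpa using h

lemma sp_sub (hf : SP f) (hg : SP g) : SP (fun x => f x - g x) := by
  have h := hf.add (sp_neg hg)
  simpa [sub_eq_add_neg] using h

lemma I_add (hf : SP f) (hg : SP g) : I (fun x => f x + g x) = I f + I g := by
  unfold I
  exact integral_add hf.int hg.int

lemma I_sub (hf : SP f) (hg : SP g) : I (fun x => f x - g x) = I f - I g := by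
  unfold I
  exact integral_sub hf.int hg.int

lemma I_neg (f : V → ℝ) : I (fun x => -f x) = -I f := by
  unfold I
  exact integral_neg _

lemma I_cmul (c : ℝ) (f : V → ℝ) : I (fun x => c * f x) = c * I f := by
  unfold I
  exact integral_const_mul _ _

lemma I_sum {ι : Type*} {s : Finset ι} {f : ι → V → ℝ} (hf : ∀ i ∈ s, SP (f i)) :
    I (fun x => ∑ i ∈ s, f i x) = ∑ i ∈ s, I (f i) := by
  unfold I
  exact integral_finsetSum _ fun i hi => (hf i hi).int

lemma I_mono (hf : SP f) (hg : SP g) (h : ∀ x, f x ≤ g x) : I f ≤ I g := by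
  unfold I
  exact integral_mono hf.int hg.int h

lemma I_nonneg (h : ∀ x, 0 ≤ f x) : 0 ≤ I f := by
  unfold I
  exact integral_nonneg h

lemma pd_sub (hf : SP f) (hg : SP g) (j : Fin 3) (x : V) :
    pd j (fun y => f y - g y) x = pd j f x - pd j g x := by
  have h : HasFDerivAt (fun y => f y - g y) _ x := (hf.diff x).hasFDerivAt.sub (hg.diff x).hasFDerivAt
  unfold pd
  rw [h.fderiv]
  rfl

lemma lap_sub (hf : SP f) (hg : SP g) (x : V) : lap (fun y => f y - g y) x = lap f x - lap g x := by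
  unfold lap
  rw [← Finset.sum_sub_distrib]
  refine Finset.sum_congr rfl fun j _ => ?_
  have e : pd j (fun y => f y - g y) = fun y => pd j f y - pd j g y := funext fun y => pd_sub hf hg j y
  rw [e, pd_sub (hf.pd j) (hg.pd j)]

/-- The second derivatives. -/
lemma hess (hf : SP f) : ∑ i, ∑ j, I (fun x => pd i (pd j f) x ^ 2) = I (fun x => lap f x ^ 2) := by
  have h1 : ∀ i j, I (fun x => pd i (pd j f) x ^ 2) = I (fun x => pd i (pd i f) x * pd j (pd j f) x) := by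
    intro i j
    have e1 : (fun x => pd i (pd j f) x ^ 2) = fun x => pd i (pd j f) x * pd j (pd i f) x := by
      funext x
      rw [pd_comm hf j i]
      ring
    have e2 := ibp (hf.pd j) ((hf.pd i).pd j) i
    have e3 := ibp ((hf.pd i).pd i) (hf.pd j) j
    have e4 : pd i (pd j (pd i f)) = pd j (pd i (pd i f)) := pd_comm (hf.pd i) i j
    unfold I
    rw [e1, e2, e4]
    have e5 : ∫ x in cube, pd i (pd i f) x * pd j (pd j f) x
        = -∫ x in cube, pd j (pd i (pd i f)) x * pd j f x := by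
      rw [e3]
      ring
    rw [e5]
    congr 1
    congr 1
    funext x
    ring
  simp_rw [h1]
  have e : (fun x => lap f x ^ 2) = fun x => ∑ i, ∑ j, pd i (pd i f) x * pd j (pd j f) x := by
    funext x
    unfold lap
    rw [sq, Finset.sum_mul_sum]
  rw [e, I_sum fun i _ => SP.sum fun j _ => ((hf.pd i).pd i).mul ((hf.pd j).pd j)]
  refine Finset.sum_congr rfl fun i _ => ?_
  rw [I_sum fun j _ => ((hf.pd i).pd i).mul ((hf.pd j).pd j)]

end

lemma alg0 (V1 V2 w1 w2 g H : ℝ) {M : ℝ} (hM : |H| ≤ M) :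
    V1 * ((V2 + w2) * g) - (V1 + w1) * ((V2 + w2) * H)
      ≤ 1 / 8 * g ^ 2 + 1 / 48 * H ^ 2 + 40 * (V1 ^ 2 * V2 ^ 2)
        + 40 * (V1 ^ 2 * w2 ^ 2) + 36 * (w1 ^ 2 * V2 ^ 2) + M / 2 * (w1 ^ 2 + w2 ^ 2) := by
  have a1 : V1 * ((V2 + w2) * g) ≤ 1 / 8 * g ^ 2 + 4 * (V1 ^ 2 * V2 ^ 2) + 4 * (V1 ^ 2 * w2 ^ 2) := by
    have b1 := sq_nonneg (g - 4 * (V1 * (V2 + w2)))
    have b2 := sq_nonneg (V1 * (V2 - w2))
    linarith
  obtain ⟨F, hF⟩ : ∃ F, F = V1 * V2 + V1 * w2 + w1 * V2 := ⟨_, rfl⟩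
  have a2 : F ^ 2 ≤ 3 * (V1 ^ 2 * V2 ^ 2 + V1 ^ 2 * w2 ^ 2 + w1 ^ 2 * V2 ^ 2) := by
    rw [hF]
    have b1 := sq_nonneg (V1 * V2 - V1 * w2)
    have b2 := sq_nonneg (V1 * V2 - w1 * V2)
    have b3 := sq_nonneg (V1 * w2 - w1 * V2)
    linarith
  have a3 : -(F * H) ≤ 1 / 48 * H ^ 2 + 12 * F ^ 2 := by
    have b1 := sq_nonneg (H + 24 * F)
    linarith
  have hM0 : 0 ≤ M := (abs_nonneg _).trans hM
  have a4 : -(w1 * w2 * H) ≤ M / 2 * (w1 ^ 2 + w2 ^ 2) := by
    have b1 : -(w1 * w2 * H) ≤ |w1 * w2| * M := by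
      calc -(w1 * w2 * H) ≤ |w1 * w2 * H| := neg_le_abs _
        _ = |w1 * w2| * |H| := abs_mul _ _
        _ ≤ _ := mul_le_mul_of_nonneg_left hM (abs_nonneg _)
    have b2 : |w1 * w2| ≤ (w1 ^ 2 + w2 ^ 2) / 2 := by
      rw [abs_le]
      constructor
      · linarith [sq_nonneg (w1 + w2)]
      · linarith [sq_nonneg (w1 - w2)]
    have := mul_le_mul_of_nonneg_right b2 hM0
    linarith
  have e : (V1 + w1) * ((V2 + w2) * H) = F * H + w1 * w2 * H := by
    rw [hF]
    ring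
  rw [e]
  linarith

/-- The pointwise estimate. -/
lemma alg1 (Vv w u : Fin 3 → ℝ) (hu : ∀ i, u i = Vv i + w i) (g H : Fin 3 → Fin 3 → ℝ) {Λ M : ℝ}
    (hΛ : ∑ i, Vv i ^ 2 ≤ Λ) (hM : ∀ i j, |H i j| ≤ M) :
    (∑ i, ∑ j, Vv i * (u j * g i j)) - ∑ i, ∑ j, u i * (u j * H i j)
      ≤ 1 / 8 * (∑ i, ∑ j, g i j ^ 2) + 1 / 48 * (∑ i, ∑ j, H i j ^ 2)
        + 40 * (∑ i, Vv i ^ 2) ^ 2 + (76 * Λ + 3 * M) * ∑ i, w i ^ 2 := by
  have h2 := Finset.sum_le_sum fun i (_ : i ∈ (Finset.univ : Finset (Fin 3))) =>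
    Finset.sum_le_sum fun j (_ : j ∈ (Finset.univ : Finset (Fin 3))) =>
      alg0 (Vv i) (Vv j) (w i) (w j) (g i j) (H i j) (hM i j)
  have hY : 0 ≤ ∑ i, w i ^ 2 := Finset.sum_nonneg fun i _ => sq_nonneg _
  have h3 := mul_le_mul_of_nonneg_right hΛ hY
  have e1 : (∑ i, ∑ j, Vv i * (u j * g i j)) - ∑ i, ∑ j, u i * (u j * H i j)
      = ∑ i, ∑ j, (Vv i * ((Vv j + w j) * g i j) - (Vv i + w i) * ((Vv j + w j) * H i j)) := by
    rw [← Finset.sum_sub_distrib]
    refine Finset.sum_congr rfl fun i _ => ?_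
    rw [← Finset.sum_sub_distrib]
    refine Finset.sum_congr rfl fun j _ => ?_
    rw [hu i, hu j]
  rw [e1]
  refine h2.trans ?_
  have e2 : ∑ i, ∑ j, (1 / 8 * g i j ^ 2 + 1 / 48 * H i j ^ 2 + 40 * (Vv i ^ 2 * Vv j ^ 2)
        + 40 * (Vv i ^ 2 * w j ^ 2) + 36 * (w i ^ 2 * Vv j ^ 2) + M / 2 * (w i ^ 2 + w j ^ 2))
      = 1 / 8 * (∑ i, ∑ j, g i j ^ 2) + 1 / 48 * (∑ i, ∑ j, H i j ^ 2)
        + 40 * ((∑ i, Vv i ^ 2) * (∑ i, Vv i ^ 2)) + 76 * ((∑ i, Vv i ^ 2) * ∑ i, w i ^ 2)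
        + 3 * M * ∑ i, w i ^ 2 := by
    simp only [Finset.sum_add_distrib, ← Finset.mul_sum, ← Finset.sum_mul, Finset.sum_const,
      Finset.card_univ, Fintype.card_fin, nsmul_eq_mul]
    push_cast
    ring
  rw [e2]
  linarith

section

variable {u w Vf : Fin 3 → V → ℝ}

lemma transport (hu : ∀ i, SP (u i)) (hV : ∀ i, SP (Vf i)) (hdiv : ∀ x, ∑ i, pd i (u i) x = 0)
    (hw : ∀ i, w i = fun x => u i x - Vf i x) :
    ∑ i, I (fun x => w i x * conv u i x) = -∑ i, ∑ j, I (fun x => Vf i x * (u j x * pd j (w i) x)) := by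
  have hws : ∀ i, SP (w i) := fun i => by rw [hw i]; exact sp_sub (hu i) (hV i)
  rw [← Finset.sum_neg_distrib]
  refine Finset.sum_congr rfl fun i _ => ?_
  have h1 := transport_zero hu hdiv (hws i)
  have h2 := int_press hu hdiv ((hws i).mul (hV i))
  have e2 : ∀ j, ∫ x in cube, u j x * pd j (fun y => w i y * Vf i y) x
      = I (fun x => u j x * (w i x * pd j (Vf i) x)) + I (fun x => Vf i x * (u j x * pd j (w i) x)) := by
    intro j
    rw [← I_add ((hu j).mul ((hws i).mul ((hV i).pd j))) ((hV i).mul ((hu j).mul ((hws i).pd j)))]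
    unfold I
    congr 1
    funext x
    rw [pd_mul (hws i) (hV i)]
    ring
  simp_rw [e2] at h2
  rw [Finset.sum_add_distrib] at h2
  have e3 : I (fun x => w i x * conv u i x)
      = ∑ j, I (fun x => u j x * (w i x * pd j (Vf i) x)) + ∑ j, ∫ x in cube, u j x * (w i x * pd j (w i) x) := by
    rw [← Finset.sum_add_distrib]
    have e4 : (fun x => w i x * conv u i x) = fun x => ∑ j, (u j x * (w i x * pd j (Vf i) x)
        + u j x * (w i x * pd j (w i) x)) := by
      funext x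
      unfold conv
      rw [Finset.mul_sum]
      refine Finset.sum_congr rfl fun j _ => ?_
      have e5 : pd j (w i) x = pd j (u i) x - pd j (Vf i) x := by
        rw [hw i]
        exact pd_sub (hu i) (hV i) j x
      rw [e5]
      ring
    rw [e4, I_sum fun j _ => ((hu j).mul ((hws i).mul ((hV i).pd j))).add
      ((hu j).mul ((hws i).mul ((hws i).pd j)))]
    refine Finset.sum_congr rfl fun j _ => ?_
    exact I_add ((hu j).mul ((hws i).mul ((hV i).pd j))) ((hu j).mul ((hws i).mul ((hws i).pd j)))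
  rw [e3, h1]
  linarith

lemma press {p : V → ℝ} (hu : ∀ i, SP (u i)) (hV : ∀ i, SP (Vf i)) (hp : SP p)
    (hdiv : ∀ x, ∑ i, pd i (u i) x = 0) (hw : ∀ i, w i = fun x => u i x - Vf i x) :
    ∑ i, I (fun x => w i x * pd i p x) = I (fun x => p x * ∑ i, pd i (Vf i) x) := by
  have hws : ∀ i, SP (w i) := fun i => by rw [hw i]; exact sp_sub (hu i) (hV i)
  have h1 : ∀ i, I (fun x => w i x * pd i p x) = I (fun x => -(pd i (w i) x * p x)) := by
    intro i
    rw [I_neg]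
    have := ibp (hws i) hp i
    unfold I
    rw [this, neg_neg]
  simp_rw [h1]
  rw [← I_sum fun i _ => sp_neg (((hws i).pd i).mul hp)]
  congr 1
  funext x
  rw [Finset.sum_neg_distrib, ← Finset.sum_mul]
  have e : ∑ i, pd i (w i) x = -∑ i, pd i (Vf i) x := by
    have e5 : ∀ i, pd i (w i) x = pd i (u i) x - pd i (Vf i) x := fun i => by
      rw [hw i]
      exact pd_sub (hu i) (hV i) i x
    simp_rw [e5]
    rw [Finset.sum_sub_distrib, hdiv x]
    ring
  rw [e]
  ring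

end

end Run7.h219.SL
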