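import Pool.Agent.Run7.h219.SL.En

/-!
The energy estimate at one time for the difference of a solution and a heat flow: conclusion.
-/

set_option autoImplicit false

open MeasureTheory Set Filter Topology
open scoped ContDiff NNReal

namespace Run7.h219.SL

open H459R3.NS

lemma I_le_of_le {f : V → ℝ} (hf : SP f) {c : ℝ} (h : ∀ x, f x ≤ c) : I f ≤ c := by
  have h1 := I_mono hf (sp_const c) h
  have h2 : I (fun _ => c) = c := by
    unfold I
    rw [setIntegral_const]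
    have : volume.real cube = 1 := by
      rw [measureReal_def, cube, Real.volume_Icc_pi]
      simp
    rw [this, smul_eq_mul, one_mul]
  linarith

lemma sq3 (a : Fin 3 → ℝ) : (∑ i, a i) ^ 2 ≤ 3 * ∑ i, a i ^ 2 := by
  simp only [Fin.sum_univ_three]
  nlinarith [sq_nonneg (a 0 - a 1), sq_nonneg (a 0 - a 2), sq_nonneg (a 1 - a 2)]

section

variable {u b w : Fin 3 → V → ℝ} {p : V → ℝ}

/-- The divergence of the datum. -/
noncomputable def d0 (b : Fin 3 → V → ℝ) (x : V) : ℝ := ∑ i, pd i (b i) x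

lemma d0_sp (hb : ∀ i, SP (b i)) : SP (d0 b) := SP.sum fun i _ => (hb i).pd i

lemma div_P (hb : ∀ i, SP (b i)) {τ : ℝ} (hτ : 0 ≤ τ) (x : V) :
    ∑ i, pd i (P τ (b i)) x = P τ (d0 b) x := by
  have e : P τ (d0 b) x = ∑ i, P τ (pd i (b i)) x := P_sum (fun i _ => (hb i).pd i) τ x
  rw [e]
  exact Finset.sum_congr rfl fun i _ => by rw [pd_P (hb i) hτ]

lemma d0_P_bd (hb : ∀ i, SP (b i)) {B : ℝ} (hB : ∀ i x, |b i x| ≤ B) {s : ℝ} (hs : 0 < s) (x : V) :
    |P s (d0 b) x| ≤ 3 * ((√(2 * s))⁻¹ * B) := by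
  have e : P s (d0 b) x = ∑ i, P s (pd i (b i)) x := P_sum (fun i _ => (hb i).pd i) s x
  rw [e]
  refine (Finset.abs_sum_le_sum_abs _ _).trans ?_
  refine (Finset.sum_le_sum fun i _ => P_grad (hb i) hs (hB i) i x).trans (le_of_eq ?_)
  simp

lemma hess_bd (hb : ∀ i, SP (b i)) {B : ℝ} (hB : ∀ i x, |b i x| ≤ B) {τ T' : ℝ} (hτ : 0 < τ)
    (hT : τ ≤ T') (i j : Fin 3) (x : V) :
    |pd i (pd j (hh τ T' (d0 b))) x| ≤ 12 * B * (√τ)⁻¹ := by
  rw [pd_hh (d0_sp hb) hτ hT, pd_hh ((d0_sp hb).pd j) hτ hT]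
  have e1 : pd j (d0 b) = fun y => ∑ k, pd j (pd k (b k)) y := by
    funext y
    exact pd_sum (fun k _ => (hb k).pd k) j y
  have e2 : pd i (pd j (d0 b)) = fun y => ∑ k, pd i (pd j (pd k (b k))) y := by
    funext y
    rw [e1]
    exact pd_sum (fun k _ => ((hb k).pd k).pd j) i y
  rw [e2, hh_sum fun k _ => (((hb k).pd k).pd j).pd i]
  refine (Finset.abs_sum_le_sum_abs _ _).trans ?_
  refine (Finset.sum_le_sum fun k _ => hh_third (hb k) hτ hT (hB k) i j k x).trans (le_of_eq ?_)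
  simp
  ring

/-- The estimate with an error term. -/
lemma slice_err (hu : ∀ i, SP (u i)) (hb : ∀ i, SP (b i)) (hp : SP p)
    (hdiv : ∀ x, ∑ i, pd i (u i) x = 0)
    (hpe : ∀ h, SP h → I (fun x => p x * lap h x)
      + ∑ i, ∑ j, I (fun x => u i x * (u j x * pd i (pd j h) x)) = 0)
    {B : ℝ} (hB : ∀ i x, |b i x| ≤ B) {τ T' : ℝ} (hτ : 0 < τ) (hT : τ ≤ T')
    (hw : ∀ i, w i = fun x => u i x - P τ (b i) x) :
    2 * ∑ i, I (fun x => w i x * (lap (u i) x - conv u i x - pd i p x - lap (P τ (b i)) x))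
      + ∑ i, ∑ j, I (fun x => pd j (w i) x ^ 2)
      ≤ 80 * I (fun x => (∑ i, P τ (b i) x ^ 2) ^ 2)
        + (456 * B ^ 2 + 72 * B * (√τ)⁻¹) * ∑ i, I (fun x => w i x ^ 2)
        + (-(2 * I (fun x => p x * P T' (d0 b) x)) + I (fun x => P T' (d0 b) x ^ 2)) := by
  have hVs : ∀ i, SP (P τ (b i)) := fun i => P_sp (hb i) hτ.le
  have hws : ∀ i, SP (w i) := fun i => by rw [hw i]; exact sp_sub (hu i) (hVs i)
  have hd0 := d0_sp hb
  obtain ⟨h, hh_def⟩ : ∃ h, h = hh τ T' (d0 b) := ⟨_, rfl⟩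
  have hsp : SP h := by rw [hh_def]; exact hh_sp hd0 hτ hT
  have hPT : SP (P T' (d0 b)) := P_sp hd0 (hτ.le.trans hT)
  have hPτ : SP (P τ (d0 b)) := P_sp hd0 hτ.le
  have hD0 : 0 ≤ ∑ i, ∑ j, I (fun x => pd j (w i) x ^ 2) :=
    Finset.sum_nonneg fun i _ => Finset.sum_nonneg fun j _ => I_nonneg fun x => sq_nonneg _
  -- the identity
  have t1 := transport hu hVs hdiv hw
  have t2 := press hu hVs hp hdiv hw
  have t3 : ∑ i, I (fun x => w i x * (lap (u i) x - conv u i x - pd i p x - lap (P τ (b i)) x))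
      = ∑ i, I (fun x => lap (w i) x * w i x) - ∑ i, I (fun x => w i x * conv u i x)
        - ∑ i, I (fun x => w i x * pd i p x) := by
    rw [← Finset.sum_sub_distrib, ← Finset.sum_sub_distrib]
    refine Finset.sum_congr rfl fun i _ => ?_
    rw [← I_sub ((hws i).lap.mul (hws i)) ((hws i).mul (sp_conv hu i)),
      ← I_sub (sp_sub ((hws i).lap.mul (hws i)) ((hws i).mul (sp_conv hu i))) ((hws i).mul (hp.pd i))]
    congr 1
    funext x
    have e : lap (w i) x = lap (u i) x - lap (P τ (b i)) x := by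
      rw [hw i]
      exact lap_sub (hu i) (hVs i) x
    rw [e]
    ring
  have t4 : ∑ i, I (fun x => lap (w i) x * w i x) = -∑ i, ∑ j, I (fun x => pd j (w i) x ^ 2) := by
    rw [← Finset.sum_neg_distrib]
    refine Finset.sum_congr rfl fun i _ => ?_
    unfold I
    rw [int_lap_mul (hws i) (hws i)]
    congr 1
    refine Finset.sum_congr rfl fun j _ => ?_
    congr 1
    funext x
    ring
  have t5 : I (fun x => p x * ∑ i, pd i (P τ (b i)) x) = I (fun x => p x * P T' (d0 b) x)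
      + ∑ i, ∑ j, I (fun x => u i x * (u j x * pd i (pd j h) x)) := by
    have e1 : (fun x => p x * ∑ i, pd i (P τ (b i)) x)
        = fun x => p x * P T' (d0 b) x - p x * lap h x := by
      funext x
      rw [div_P hb hτ.le, hh_def, lap_hh hd0 hτ hT]
      ring
    rw [e1, I_sub (hp.mul hPT) (hp.mul hsp.lap)]
    have := hpe h hsp
    linarith
  -- the pointwise bound
  have t6 : (∑ i, ∑ j, I (fun x => P τ (b i) x * (u j x * pd j (w i) x)))
      - ∑ i, ∑ j, I (fun x => u i x * (u j x * pd i (pd j h) x))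
      ≤ 1 / 8 * (∑ i, ∑ j, I (fun x => pd j (w i) x ^ 2))
        + 1 / 48 * (∑ i, ∑ j, I (fun x => pd i (pd j h) x ^ 2))
        + 40 * I (fun x => (∑ i, P τ (b i) x ^ 2) ^ 2)
        + (76 * (3 * B ^ 2) + 3 * (12 * B * (√τ)⁻¹)) * ∑ i, I (fun x => w i x ^ 2) := by
    have s1 : ∀ i j, SP (fun x => P τ (b i) x * (u j x * pd j (w i) x)) := fun i j =>
      (hVs i).mul ((hu j).mul ((hws i).pd j))
    have s2 : ∀ i j, SP (fun x => u i x * (u j x * pd i (pd j h) x)) := fun i j =>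
      (hu i).mul ((hu j).mul ((hsp.pd j).pd i))
    have s3 : ∀ i j, SP (fun x => pd j (w i) x ^ 2) := fun i j => sp_sq ((hws i).pd j)
    have s4 : ∀ i j, SP (fun x => pd i (pd j h) x ^ 2) := fun i j => sp_sq ((hsp.pd j).pd i)
    have s5 : SP (fun x => (∑ i, P τ (b i) x ^ 2) ^ 2) := sp_sq (SP.sum fun i _ => sp_sq (hVs i))
    have s6 : ∀ i, SP (fun x => w i x ^ 2) := fun i => sp_sq (hws i)
    have s1' : SP (fun x => ∑ i, ∑ j, P τ (b i) x * (u j x * pd j (w i) x)) :=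
      SP.sum fun i _ => SP.sum fun j _ => s1 i j
    have s2' : SP (fun x => ∑ i, ∑ j, u i x * (u j x * pd i (pd j h) x)) :=
      SP.sum fun i _ => SP.sum fun j _ => s2 i j
    have s3' : SP (fun x => ∑ i, ∑ j, pd j (w i) x ^ 2) := SP.sum fun i _ => SP.sum fun j _ => s3 i j
    have s4' : SP (fun x => ∑ i, ∑ j, pd i (pd j h) x ^ 2) :=
      SP.sum fun i _ => SP.sum fun j _ => s4 i j
    have s6' : SP (fun x => ∑ i, w i x ^ 2) := SP.sum fun i _ => s6 i
    have e1 : ∀ F : Fin 3 → Fin 3 → V → ℝ, (∀ i j, SP (F i j)) →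
        ∑ i, ∑ j, I (F i j) = I (fun x => ∑ i, ∑ j, F i j x) := by
      intro F hF
      rw [I_sum fun i _ => SP.sum fun j _ => hF i j]
      exact Finset.sum_congr rfl fun i _ => (I_sum fun j _ => hF i j).symm
    rw [e1 _ s1, e1 _ s2, e1 _ s3, e1 _ s4, ← I_sum fun i _ => s6 i, ← I_sub s1' s2', ← I_cmul, ← I_cmul,
      ← I_cmul, ← I_cmul, ← I_add (sp_cmul s3' _) (sp_cmul s4' _),
      ← I_add ((sp_cmul s3' _).add (sp_cmul s4' _)) (sp_cmul s5 _),
      ← I_add (((sp_cmul s3' _).add (sp_cmul s4' _)).add (sp_cmul s5 _)) (sp_cmul s6' _)]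
    refine I_mono (sp_sub s1' s2') ((((sp_cmul s3' _).add (sp_cmul s4' _)).add (sp_cmul s5 _)).add
      (sp_cmul s6' _)) fun x => ?_
    refine alg1 (fun i => P τ (b i) x) (fun i => w i x) (fun i => u i x) (fun i => ?_)
      (fun i j => pd j (w i) x) (fun i j => pd i (pd j h) x) ?_ (fun i j => ?_)
    · rw [hw i]
      ring
    · have : ∀ i, P τ (b i) x ^ 2 ≤ B ^ 2 := fun i => by
        rw [← sq_abs]
        exact pow_le_pow_left₀ (abs_nonneg _) (P_abs τ x (hB i)) 2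
      refine (Finset.sum_le_sum fun i _ => this i).trans (le_of_eq ?_)
      simp
    · rw [hh_def]
      exact hess_bd hb hB hτ hT i j x
  -- the second derivatives
  have t7 : ∑ i, ∑ j, I (fun x => pd i (pd j h) x ^ 2)
      ≤ 2 * I (fun x => P T' (d0 b) x ^ 2) + 6 * ∑ i, ∑ j, I (fun x => pd j (w i) x ^ 2) := by
    rw [hess hsp]
    have s3 : ∀ i j, SP (fun x => pd j (w i) x ^ 2) := fun i j => sp_sq ((hws i).pd j)
    have s3' : SP (fun x => ∑ i, ∑ j, pd j (w i) x ^ 2) := SP.sum fun i _ => SP.sum fun j _ => s3 i j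
    have e1 : ∑ i, ∑ j, I (fun x => pd j (w i) x ^ 2) = I (fun x => ∑ i, ∑ j, pd j (w i) x ^ 2) := by
      rw [I_sum fun i _ => SP.sum fun j _ => s3 i j]
      exact Finset.sum_congr rfl fun i _ => (I_sum fun j _ => s3 i j).symm
    rw [e1, ← I_cmul, ← I_cmul, ← I_add (sp_cmul (sp_sq hPT) _) (sp_cmul s3' _)]
    refine I_mono (sp_sq hsp.lap) ((sp_cmul (sp_sq hPT) _).add (sp_cmul s3' _)) fun x => ?_
    have e2 : lap h x = P T' (d0 b) x - P τ (d0 b) x := by rw [hh_def]; exact lap_hh hd0 hτ hT x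
    have e3 : P τ (d0 b) x = -∑ i, pd i (w i) x := by
      rw [← div_P hb hτ.le]
      have e5 : ∀ i, pd i (w i) x = pd i (u i) x - pd i (P τ (b i)) x := fun i => by
        rw [hw i]
        exact pd_sub (hu i) (hVs i) i x
      simp_rw [e5]
      rw [Finset.sum_sub_distrib, hdiv x]
      ring
    have e4 : P τ (d0 b) x ^ 2 ≤ 3 * ∑ i, ∑ j, pd j (w i) x ^ 2 := by
      rw [e3, neg_sq]
      refine (sq3 _).trans ?_
      refine mul_le_mul_of_nonneg_left (Finset.sum_le_sum fun i _ => ?_) (by norm_num)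
      exact Finset.single_le_sum (f := fun j => pd j (w i) x ^ 2) (fun j _ => sq_nonneg _)
        (Finset.mem_univ i)
    rw [e2]
    nlinarith [sq_nonneg (P T' (d0 b) x + P τ (d0 b) x)]
  have hQ : 0 ≤ I (fun x => P T' (d0 b) x ^ 2) := I_nonneg fun x => sq_nonneg _
  rw [t3, t4, t1, t2, t5]
  linarith

/-- The energy estimate at one time. -/
theorem slice (hu : ∀ i, SP (u i)) (hb : ∀ i, SP (b i)) (hp : SP p)
    (hdiv : ∀ x, ∑ i, pd i (u i) x = 0)
    (hpe : ∀ h, SP h → I (fun x => p x * lap h x)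
      + ∑ i, ∑ j, I (fun x => u i x * (u j x * pd i (pd j h) x)) = 0)
    {B : ℝ} (hB : ∀ i x, |b i x| ≤ B) {τ : ℝ} (hτ : 0 < τ)
    (hw : ∀ i, w i = fun x => u i x - P τ (b i) x) :
    2 * ∑ i, I (fun x => w i x * (lap (u i) x - conv u i x - pd i p x - lap (P τ (b i)) x))
      + ∑ i, ∑ j, I (fun x => pd j (w i) x ^ 2)
      ≤ 80 * I (fun x => (∑ i, P τ (b i) x ^ 2) ^ 2)
        + (456 * B ^ 2 + 72 * B * (√τ)⁻¹) * ∑ i, I (fun x => w i x ^ 2) := by
  obtain ⟨Bp, hBp0, hBp⟩ := spb hp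
  have hB0 : 0 ≤ B := (abs_nonneg _).trans (hB 0 0)
  obtain ⟨δ, hδ⟩ : ∃ δ : ℝ → ℝ, δ = fun s => 3 * ((√(2 * s))⁻¹ * B) := ⟨_, rfl⟩
  have hlim : Tendsto δ atTop (𝓝 0) := by
    have h1 : Tendsto (fun s : ℝ => 2 * s) atTop atTop := tendsto_id.const_mul_atTop two_pos
    have h2 : Tendsto (fun s : ℝ => (√(2 * s))⁻¹) atTop (𝓝 0) :=
      tendsto_inv_atTop_zero.comp (Real.tendsto_sqrt_atTop.comp h1)
    have h3 := (h2.mul_const B).const_mul 3
    rw [hδ]
    simpa using h3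
  obtain ⟨R, hR⟩ : ∃ R, R = 80 * I (fun x => (∑ i, P τ (b i) x ^ 2) ^ 2)
        + (456 * B ^ 2 + 72 * B * (√τ)⁻¹) * ∑ i, I (fun x => w i x ^ 2) := ⟨_, rfl⟩
  have hlim2 : Tendsto (fun s => R + (2 * (Bp * δ s) + δ s ^ 2)) atTop (𝓝 R) := by
    have h4 := ((hlim.const_mul Bp).const_mul 2).add (hlim.pow 2)
    have h5 := h4.const_add R
    simpa using h5
  rw [← hR]
  refine ge_of_tendsto hlim2 ?_
  filter_upwards [eventually_ge_atTop τ] with T' hT
  have h1 := slice_err hu hb hp hdiv hpe hB hτ hT hw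
  rw [← hR] at h1
  refine h1.trans (add_le_add le_rfl ?_)
  have hT0 : 0 < T' := hτ.trans_le hT
  have hbd : ∀ x, |P T' (d0 b) x| ≤ δ T' := fun x => by
    rw [hδ]
    exact d0_P_bd hb hB hT0 x
  have hPT : SP (P T' (d0 b)) := P_sp (d0_sp hb) hT0.le
  have a1 : -(2 * I (fun x => p x * P T' (d0 b) x)) ≤ 2 * (Bp * δ T') := by
    have a2 : I (fun x => -(p x * P T' (d0 b) x)) ≤ Bp * δ T' := by
      refine I_le_of_le (sp_neg (hp.mul hPT)) fun x => ?_
      calc -(p x * P T' (d0 b) x) ≤ |p x * P T' (d0 b) x| := neg_le_abs _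
        _ = |p x| * |P T' (d0 b) x| := abs_mul _ _
        _ ≤ _ := mul_le_mul (hBp x) (hbd x) (abs_nonneg _) hBp0
    rw [I_neg] at a2
    linarith
  have a3 : I (fun x => P T' (d0 b) x ^ 2) ≤ δ T' ^ 2 := by
    refine I_le_of_le (sp_sq hPT) fun x => ?_
    rw [← sq_abs]
    exact pow_le_pow_left₀ (abs_nonneg _) (hbd x) 2
  linarith

end

end Run7.h219.SL
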