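import Pool.Agent.Run7.h219.SL.Pic

/-!
The energy estimate at one time for the difference of a solution and a Picard iterate.
-/

set_option autoImplicit false

open MeasureTheory Set Filter Topology
open scoped ContDiff NNReal

namespace Run7.h219.SL

open H459R3.NS

lemma alg3 (V1 V2 w1 w2 g H F : ℝ) {M : ℝ} (hM : |H| ≤ M) :
    V1 * ((V2 + w2) * g) - F * g - (V1 + w1) * ((V2 + w2) * H) + F * H
      ≤ 1 / 8 * g ^ 2 + 1 / 48 * H ^ 2 + 40 * (V1 * V2 - F) ^ 2
        + 40 * (V1 ^ 2 * w2 ^ 2) + 36 * (w1 ^ 2 * V2 ^ 2) + M / 2 * (w1 ^ 2 + w2 ^ 2) := by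
  obtain ⟨R, hR⟩ : ∃ R, R = V1 * V2 - F := ⟨_, rfl⟩
  have a1 : (V1 * w2 + R) * g ≤ 1 / 8 * g ^ 2 + 4 * (V1 ^ 2 * w2 ^ 2) + 4 * R ^ 2 := by
    have b1 := sq_nonneg (g - 4 * (V1 * w2 + R))
    have b2 := sq_nonneg (V1 * w2 - R)
    nlinarith
  obtain ⟨Y, hY⟩ : ∃ Y, Y = w1 * V2 + V1 * w2 + R := ⟨_, rfl⟩
  have a2 : Y ^ 2 ≤ 3 * (w1 ^ 2 * V2 ^ 2 + V1 ^ 2 * w2 ^ 2 + R ^ 2) := by
    rw [hY]
    have b1 := sq_nonneg (w1 * V2 - V1 * w2)
    have b2 := sq_nonneg (w1 * V2 - R)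
    have b3 := sq_nonneg (V1 * w2 - R)
    nlinarith
  have a3 : -(Y * H) ≤ 1 / 48 * H ^ 2 + 12 * Y ^ 2 := by
    have b1 := sq_nonneg (H + 24 * Y)
    linarith
  have hM0 : 0 ≤ M := (abs_nonneg _).trans hM
  have a4 : -(w1 * w2 * H) ≤ M / 2 * (w1 ^ 2 + w2 ^ 2) := by
    have b1 : -(w1 * w2 * H) ≤ |w1 * w2| * M := by
      calc -(w1 * w2 * H) ≤ |w1 * w2 * H| := neg_le_abs _
        _ = |w1 * w2| * |H| := abs_mul _ _
        _ ≤ _ := mul_le_mul_of_nonneg_left hM (abs_nonneg _)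
    have b2 : |w1 * w2| ≤ (w1 ^ 2 + w2 ^ 2) / 2 := by
      rw [abs_le]
      constructor
      · linarith [sq_nonneg (w1 + w2)]
      · linarith [sq_nonneg (w1 - w2)]
    have := mul_le_mul_of_nonneg_right b2 hM0
    linarith
  have e : V1 * ((V2 + w2) * g) - F * g - (V1 + w1) * ((V2 + w2) * H) + F * H
      = (V1 * w2 + R) * g - Y * H - w1 * w2 * H := by
    rw [hY, hR]
    ring
  rw [e, ← hR]
  linarith

/-- The pointwise estimate. -/
lemma alg4 (Vv w u : Fin 3 → ℝ) (hu : ∀ i, u i = Vv i + w i) (g H F : Fin 3 → Fin 3 → ℝ) {Λ M : ℝ}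
    (hΛ : ∑ i, Vv i ^ 2 ≤ Λ) (hM : ∀ i j, |H i j| ≤ M) :
    (∑ i, ∑ j, Vv i * (u j * g i j)) - (∑ i, ∑ j, F i j * g i j)
        - (∑ i, ∑ j, u i * (u j * H i j)) + (∑ i, ∑ j, F i j * H i j)
      ≤ 1 / 8 * (∑ i, ∑ j, g i j ^ 2) + 1 / 48 * (∑ i, ∑ j, H i j ^ 2)
        + 40 * (∑ i, ∑ j, (Vv i * Vv j - F i j) ^ 2) + (76 * Λ + 3 * M) * ∑ i, w i ^ 2 := by
  have h2 := Finset.sum_le_sum fun i (_ : i ∈ (Finset.univ : Finset (Fin 3))) =>
    Finset.sum_le_sum fun j (_ : j ∈ (Finset.univ : Finset (Fin 3))) =>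
      alg3 (Vv i) (Vv j) (w i) (w j) (g i j) (H i j) (F i j) (hM i j)
  have hY : 0 ≤ ∑ i, w i ^ 2 := Finset.sum_nonneg fun i _ => sq_nonneg _
  have h3 := mul_le_mul_of_nonneg_right hΛ hY
  have e1 : (∑ i, ∑ j, Vv i * (u j * g i j)) - (∑ i, ∑ j, F i j * g i j)
        - (∑ i, ∑ j, u i * (u j * H i j)) + (∑ i, ∑ j, F i j * H i j)
      = ∑ i, ∑ j, (Vv i * ((Vv j + w j) * g i j) - F i j * g i j
          - (Vv i + w i) * ((Vv j + w j) * H i j) + F i j * H i j) := by
    rw [← Finset.sum_sub_distrib, ← Finset.sum_sub_distrib, ← Finset.sum_add_distrib]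
    refine Finset.sum_congr rfl fun i _ => ?_
    rw [← Finset.sum_sub_distrib, ← Finset.sum_sub_distrib, ← Finset.sum_add_distrib]
    refine Finset.sum_congr rfl fun j _ => ?_
    rw [hu i, hu j]
  rw [e1]
  refine h2.trans ?_
  have e2 : ∑ i, ∑ j, (1 / 8 * g i j ^ 2 + 1 / 48 * H i j ^ 2 + 40 * (Vv i * Vv j - F i j) ^ 2
        + 40 * (Vv i ^ 2 * w j ^ 2) + 36 * (w i ^ 2 * Vv j ^ 2) + M / 2 * (w i ^ 2 + w j ^ 2))
      = 1 / 8 * (∑ i, ∑ j, g i j ^ 2) + 1 / 48 * (∑ i, ∑ j, H i j ^ 2)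
        + 40 * (∑ i, ∑ j, (Vv i * Vv j - F i j) ^ 2) + 76 * ((∑ i, Vv i ^ 2) * ∑ i, w i ^ 2)
        + 3 * M * ∑ i, w i ^ 2 := by
    simp only [Finset.sum_add_distrib, ← Finset.mul_sum, ← Finset.sum_mul, Finset.sum_const,
      Finset.card_univ, Fintype.card_fin, nsmul_eq_mul]
    push_cast
    ring
  rw [e2]
  linarith

section

variable {u Vf w : Fin 3 → V → ℝ} {F : Fin 3 → Fin 3 → V → ℝ} {p q h z r : V → ℝ}

lemma I_sum2 {F : Fin 3 → Fin 3 → V → ℝ} (hF : ∀ i j, SP (F i j)) :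
    ∑ i, ∑ j, I (F i j) = I (fun x => ∑ i, ∑ j, F i j x) := by
  rw [I_sum fun i _ => SP.sum fun j _ => hF i j]
  exact Finset.sum_congr rfl fun i _ => (I_sum fun j _ => hF i j).symm

/-- The energy estimate at one time. -/
lemma slice3 (hu : ∀ i, SP (u i)) (hV : ∀ i, SP (Vf i)) (hF : ∀ i j, SP (F i j)) (hp : SP p)
    (hq : SP q) (hh : SP h) (hz : SP z) (hr : SP r)
    (hdiv : ∀ x, ∑ i, pd i (u i) x = 0)
    (hpe : ∀ k, SP k → I (fun x => p x * lap k x)
      + ∑ i, ∑ j, I (fun x => u i x * (u j x * pd i (pd j k) x)) = 0)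
    (hdV : ∀ x, ∑ i, pd i (Vf i) x = z x - lap h x)
    (hlq : ∀ x, lap q x = r x - dd2 F x)
    {Λ M : ℝ} (hΛ : ∀ x, ∑ i, Vf i x ^ 2 ≤ Λ) (hM : ∀ i j x, |pd i (pd j h) x| ≤ M)
    (hw : ∀ i, w i = fun x => u i x - Vf i x) :
    2 * ∑ i, I (fun x => w i x * (lap (u i) x - conv u i x - pd i p x
        - (lap (Vf i) x - (∑ j, pd j (F i j) x + pd i q x))))
      + ∑ i, ∑ j, I (fun x => pd j (w i) x ^ 2)
      ≤ 80 * I (fun x => ∑ i, ∑ j, (Vf i x * Vf j x - F i j x) ^ 2)
        + (152 * Λ + 6 * M) * ∑ i, I (fun x => w i x ^ 2)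
        + (1 / 12 * I (fun x => z x ^ 2) - 2 * I (fun x => h x * r x) - 2 * I (fun x => p x * z x)
          + 2 * I (fun x => q x * z x)) := by
  have hws : ∀ i, SP (w i) := fun i => by rw [hw i]; exact sp_sub (hu i) (hV i)
  have hD0 : 0 ≤ ∑ i, ∑ j, I (fun x => pd j (w i) x ^ 2) :=
    Finset.sum_nonneg fun i _ => Finset.sum_nonneg fun j _ => I_nonneg fun x => sq_nonneg _
  -- the identity
  have t1 := transport hu hV hdiv hw
  have t2 := press hu hV hp hdiv hw
  have t2' := press hu hV hq hdiv hw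
  have t3 : ∑ i, I (fun x => w i x * (lap (u i) x - conv u i x - pd i p x
        - (lap (Vf i) x - (∑ j, pd j (F i j) x + pd i q x))))
      = ∑ i, I (fun x => lap (w i) x * w i x) - ∑ i, I (fun x => w i x * conv u i x)
        - ∑ i, I (fun x => w i x * pd i p x) + ∑ i, I (fun x => w i x * pd i q x)
        + ∑ i, ∑ j, I (fun x => w i x * pd j (F i j) x) := by
    rw [← Finset.sum_sub_distrib, ← Finset.sum_sub_distrib, ← Finset.sum_add_distrib,
      ← Finset.sum_add_distrib]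
    refine Finset.sum_congr rfl fun i _ => ?_
    have s1 := (hws i).lap.mul (hws i)
    have s2 := (hws i).mul (sp_conv hu i)
    have s3 := (hws i).mul (hp.pd i)
    have s4 := (hws i).mul (hq.pd i)
    have s5 : ∀ j, SP (fun x => w i x * pd j (F i j) x) := fun j => (hws i).mul ((hF i j).pd j)
    rw [← I_sum fun j _ => s5 j, ← I_sub s1 s2, ← I_sub (sp_sub s1 s2) s3,
      ← I_add (sp_sub (sp_sub s1 s2) s3) s4,
      ← I_add ((sp_sub (sp_sub s1 s2) s3).add s4) (SP.sum fun j _ => s5 j)]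
    congr 1
    funext x
    have e : lap (w i) x = lap (u i) x - lap (Vf i) x := by
      rw [hw i]
      exact lap_sub (hu i) (hV i) x
    rw [e, ← Finset.mul_sum]
    ring
  have t4 : ∑ i, I (fun x => lap (w i) x * w i x) = -∑ i, ∑ j, I (fun x => pd j (w i) x ^ 2) := by
    rw [← Finset.sum_neg_distrib]
    refine Finset.sum_congr rfl fun i _ => ?_
    unfold I
    rw [int_lap_mul (hws i) (hws i)]
    congr 1
    refine Finset.sum_congr rfl fun j _ => ?_
    congr 1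
    funext x
    ring
  have t4' : ∑ i, ∑ j, I (fun x => w i x * pd j (F i j) x)
      = -∑ i, ∑ j, I (fun x => F i j x * pd j (w i) x) := by
    rw [← Finset.sum_neg_distrib]
    refine Finset.sum_congr rfl fun i _ => ?_
    rw [← Finset.sum_neg_distrib]
    refine Finset.sum_congr rfl fun j _ => ?_
    have := ibp (hF i j) (hws i) j
    unfold I
    have e1 : ∫ x in cube, w i x * pd j (F i j) x = ∫ x in cube, pd j (F i j) x * w i x := by
      congr 1
      funext x
      ring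
    rw [e1, this]
  have t5 : I (fun x => p x * ∑ i, pd i (Vf i) x) = I (fun x => p x * z x)
      + ∑ i, ∑ j, I (fun x => u i x * (u j x * pd i (pd j h) x)) := by
    have e1 : (fun x => p x * ∑ i, pd i (Vf i) x)
        = fun x => p x * z x - p x * lap h x := by
      funext x
      rw [hdV]
      ring
    rw [e1, I_sub (hp.mul hz) (hp.mul hh.lap)]
    have := hpe h hh
    linarith
  have t5' : I (fun x => q x * ∑ i, pd i (Vf i) x) = I (fun x => q x * z x)
      - I (fun x => h x * r x) + ∑ i, ∑ j, I (fun x => F i j x * pd i (pd j h) x) := by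
    have e1 : (fun x => q x * ∑ i, pd i (Vf i) x)
        = fun x => q x * z x - q x * lap h x := by
      funext x
      rw [hdV]
      ring
    have e2 : I (fun x => q x * lap h x) = I (fun x => h x * lap q x) := by
      have a1 := int_lap_mul hh hq
      have a2 := int_lap_mul hq hh
      have a3 : I (fun x => q x * lap h x) = ∫ x in cube, lap h x * q x := by
        unfold I
        congr 1
        funext x
        ring
      have a4 : I (fun x => h x * lap q x) = ∫ x in cube, lap q x * h x := by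
        unfold I
        congr 1
        funext x
        ring
      rw [a3, a4, a1, a2]
      congr 1
      refine Finset.sum_congr rfl fun j _ => ?_
      congr 1
      funext x
      ring
    have e3 : I (fun x => h x * lap q x) = I (fun x => h x * r x)
        - ∑ i, ∑ j, I (fun x => F i j x * pd i (pd j h) x) := by
      have b1 : (fun x => h x * lap q x) = fun x => h x * r x - h x * dd2 F x := by
        funext x
        rw [hlq]
        ring
      rw [b1, I_sub (hh.mul hr) (hh.mul (dd2_sp hF))]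
      congr 1
      have b2 : (fun x => h x * dd2 F x) = fun x => ∑ i, ∑ j, h x * pd i (pd j (F i j)) x := by
        funext x
        unfold dd2
        rw [Finset.mul_sum]
        exact Finset.sum_congr rfl fun i _ => Finset.mul_sum _ _ _
      rw [b2, ← I_sum2 fun i j => hh.mul (((hF i j).pd j).pd i)]
      refine Finset.sum_congr rfl fun i _ => Finset.sum_congr rfl fun j _ => ?_
      have c1 := ibp ((hF i j).pd j) hh i
      have c2 := ibp (hF i j) (hh.pd i) j
      have c3 : I (fun x => h x * pd i (pd j (F i j)) x) = ∫ x in cube, pd i (pd j (F i j)) x * h x := by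
        unfold I
        congr 1
        funext x
        ring
      rw [c3, c1, c2, neg_neg, pd_comm hh j i]
      rfl
    rw [e1, I_sub (hq.mul hz) (hq.mul hh.lap), e2, e3]
    ring
  -- the pointwise bound
  have t6 : (∑ i, ∑ j, I (fun x => Vf i x * (u j x * pd j (w i) x)))
      - (∑ i, ∑ j, I (fun x => F i j x * pd j (w i) x))
      - (∑ i, ∑ j, I (fun x => u i x * (u j x * pd i (pd j h) x)))
      + (∑ i, ∑ j, I (fun x => F i j x * pd i (pd j h) x))
      ≤ 1 / 8 * (∑ i, ∑ j, I (fun x => pd j (w i) x ^ 2))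
        + 1 / 48 * (∑ i, ∑ j, I (fun x => pd i (pd j h) x ^ 2))
        + 40 * I (fun x => ∑ i, ∑ j, (Vf i x * Vf j x - F i j x) ^ 2)
        + (76 * Λ + 3 * M) * ∑ i, I (fun x => w i x ^ 2) := by
    have s1 : ∀ i j, SP (fun x => Vf i x * (u j x * pd j (w i) x)) := fun i j =>
      (hV i).mul ((hu j).mul ((hws i).pd j))
    have s1a : ∀ i j, SP (fun x => F i j x * pd j (w i) x) := fun i j => (hF i j).mul ((hws i).pd j)
    have s2 : ∀ i j, SP (fun x => u i x * (u j x * pd i (pd j h) x)) := fun i j =>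
      (hu i).mul ((hu j).mul ((hh.pd j).pd i))
    have s2a : ∀ i j, SP (fun x => F i j x * pd i (pd j h) x) := fun i j =>
      (hF i j).mul ((hh.pd j).pd i)
    have s3 : ∀ i j, SP (fun x => pd j (w i) x ^ 2) := fun i j => sp_sq ((hws i).pd j)
    have s4 : ∀ i j, SP (fun x => pd i (pd j h) x ^ 2) := fun i j => sp_sq ((hh.pd j).pd i)
    have s5 : SP (fun x => ∑ i, ∑ j, (Vf i x * Vf j x - F i j x) ^ 2) :=
      SP.sum fun i _ => SP.sum fun j _ => sp_sq (sp_sub ((hV i).mul (hV j)) (hF i j))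
    have s6 : ∀ i, SP (fun x => w i x ^ 2) := fun i => sp_sq (hws i)
    have s1' : SP (fun x => ∑ i, ∑ j, Vf i x * (u j x * pd j (w i) x)) :=
      SP.sum fun i _ => SP.sum fun j _ => s1 i j
    have s1a' : SP (fun x => ∑ i, ∑ j, F i j x * pd j (w i) x) :=
      SP.sum fun i _ => SP.sum fun j _ => s1a i j
    have s2' : SP (fun x => ∑ i, ∑ j, u i x * (u j x * pd i (pd j h) x)) :=
      SP.sum fun i _ => SP.sum fun j _ => s2 i j
    have s2a' : SP (fun x => ∑ i, ∑ j, F i j x * pd i (pd j h) x) :=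
      SP.sum fun i _ => SP.sum fun j _ => s2a i j
    have s3' : SP (fun x => ∑ i, ∑ j, pd j (w i) x ^ 2) := SP.sum fun i _ => SP.sum fun j _ => s3 i j
    have s4' : SP (fun x => ∑ i, ∑ j, pd i (pd j h) x ^ 2) :=
      SP.sum fun i _ => SP.sum fun j _ => s4 i j
    have s6' : SP (fun x => ∑ i, w i x ^ 2) := SP.sum fun i _ => s6 i
    rw [I_sum2 s1, I_sum2 s1a, I_sum2 s2, I_sum2 s2a, I_sum2 s3, I_sum2 s4, ← I_sum fun i _ => s6 i,
      ← I_sub s1' s1a', ← I_sub (sp_sub s1' s1a') s2', ← I_add (sp_sub (sp_sub s1' s1a') s2') s2a',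
      ← I_cmul, ← I_cmul, ← I_cmul, ← I_cmul, ← I_add (sp_cmul s3' _) (sp_cmul s4' _),
      ← I_add ((sp_cmul s3' _).add (sp_cmul s4' _)) (sp_cmul s5 _),
      ← I_add (((sp_cmul s3' _).add (sp_cmul s4' _)).add (sp_cmul s5 _)) (sp_cmul s6' _)]
    refine I_mono ((sp_sub (sp_sub s1' s1a') s2').add s2a') ((((sp_cmul s3' _).add
      (sp_cmul s4' _)).add (sp_cmul s5 _)).add (sp_cmul s6' _)) fun x => ?_
    refine alg4 (fun i => Vf i x) (fun i => w i x) (fun i => u i x) (fun i => ?_)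
      (fun i j => pd j (w i) x) (fun i j => pd i (pd j h) x) (fun i j => F i j x) (hΛ x)
      (fun i j => hM i j x)
    rw [hw i]
    ring
  -- the second derivatives
  have t7 : ∑ i, ∑ j, I (fun x => pd i (pd j h) x ^ 2)
      ≤ 2 * I (fun x => z x ^ 2) + 6 * ∑ i, ∑ j, I (fun x => pd j (w i) x ^ 2) := by
    rw [hess hh]
    have s3 : ∀ i j, SP (fun x => pd j (w i) x ^ 2) := fun i j => sp_sq ((hws i).pd j)
    have s3' : SP (fun x => ∑ i, ∑ j, pd j (w i) x ^ 2) := SP.sum fun i _ => SP.sum fun j _ => s3 i j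
    rw [I_sum2 s3, ← I_cmul, ← I_cmul, ← I_add (sp_cmul (sp_sq hz) _) (sp_cmul s3' _)]
    refine I_mono (sp_sq hh.lap) ((sp_cmul (sp_sq hz) _).add (sp_cmul s3' _)) fun x => ?_
    obtain ⟨y, hy⟩ : ∃ y, y = ∑ i, pd i (w i) x := ⟨_, rfl⟩
    have e2 : lap h x = z x + y := by
      have e5 : ∀ i, pd i (w i) x = pd i (u i) x - pd i (Vf i) x := fun i => by
        rw [hw i]
        exact pd_sub (hu i) (hV i) i x
      have e6 := hdV x
      have e7 : y = -∑ i, pd i (Vf i) x := by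
        rw [hy]
        simp_rw [e5]
        rw [Finset.sum_sub_distrib, hdiv x]
        ring
      rw [e7]
      linarith
    have e4 : y ^ 2 ≤ 3 * ∑ i, ∑ j, pd j (w i) x ^ 2 := by
      rw [hy]
      refine (sq3 _).trans ?_
      refine mul_le_mul_of_nonneg_left (Finset.sum_le_sum fun i _ => ?_) (by norm_num)
      exact Finset.single_le_sum (f := fun j => pd j (w i) x ^ 2) (fun j _ => sq_nonneg _)
        (Finset.mem_univ i)
    rw [e2]
    nlinarith [sq_nonneg (z x - y)]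
  have hQ : 0 ≤ I (fun x => z x ^ 2) := I_nonneg fun x => sq_nonneg _
  rw [t3, t4, t1, t2, t2', t5, t5', t4']
  linarith

end

end Run7.h219.SL
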