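import Pool.Agent.Run7.h219.SL.En3

/-!
The error terms due to the finite horizon of the approximate pressure.
-/

set_option autoImplicit false

open MeasureTheory Set Filter Topology
open scoped ContDiff NNReal

namespace Run7.h219.SL

open H459R3.NS

lemma I_abs {f : V → ℝ} (hf : SP f) {c : ℝ} (h : ∀ x, |f x| ≤ c) : |I f| ≤ c := by
  rw [abs_le]
  constructor
  · have h1 := I_le_of_le (sp_neg hf) (c := c) fun x => (neg_le_abs _).trans (h x)
    rw [I_neg] at h1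
    linarith
  · exact I_le_of_le hf fun x => (le_abs_self _).trans (h x)

section

variable {f : Fin 3 → Fin 3 → V → ℝ}

lemma P_dd2 (hf : ∀ i j, SP (f i j)) (σ : ℝ) (x : V) :
    P σ (dd2 f) x = ∑ j, ∑ k, P σ (pd j (pd k (f j k))) x := by
  have e1 : dd2 f = fun y => ∑ j, (fun y => ∑ k, pd j (pd k (f j k)) y) y := rfl
  rw [e1, P_sum fun j _ => SP.sum fun k _ => ((hf j k).pd k).pd j]
  refine Finset.sum_congr rfl fun j _ => ?_
  exact P_sum (fun k _ => ((hf j k).pd k).pd j) σ x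

lemma dd2_P_bd (hf : ∀ i j, SP (f i j)) {M : ℝ} (hM : ∀ i j x, |f i j x| ≤ M) {s : ℝ} (hs : 0 < s)
    (x : V) : |P s (dd2 f) x| ≤ 9 * (s⁻¹ * M) := by
  rw [P_dd2 hf]
  refine (Finset.abs_sum_le_sum_abs _ _).trans ?_
  refine (Finset.sum_le_sum fun j _ => (Finset.abs_sum_le_sum_abs _ _).trans
      (Finset.sum_le_sum fun k _ => P_two (hf j k) hs (hM j k) j k x)).trans (le_of_eq ?_)
  simp
  ring

lemma dd2_P4_bd (hf : ∀ i j, SP (f i j)) {M : ℝ} (hM : ∀ i j x, |f i j x| ≤ M) {s : ℝ} (hs : 0 < s)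
    (a c : Fin 3) (x : V) : |P s (pd a (pd c (dd2 f))) x| ≤ 36 * M / s ^ 2 := by
  rw [pd_dd2 hf, pd_dd2 fun i j => (hf i j).pd c, P_dd2 fun i j => ((hf i j).pd c).pd a]
  refine (Finset.abs_sum_le_sum_abs _ _).trans ?_
  refine (Finset.sum_le_sum fun j _ => (Finset.abs_sum_le_sum_abs _ _).trans
      (Finset.sum_le_sum fun k _ => P_four (hf j k) hs (hM j k) j k a c x)).trans (le_of_eq ?_)
  simp
  ring

lemma hh_dd2 (hf : ∀ i j, SP (f i j)) (H : ℝ) (x : V) :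
    hh 0 H (dd2 f) x = ∑ j, ∑ k, pd j (pd k (hh 0 H (f j k))) x := by
  have e1 : dd2 f = fun y => ∑ j, (fun y => ∑ k, pd j (pd k (f j k)) y) y := rfl
  rw [e1, hh_sum fun j _ => SP.sum fun k _ => ((hf j k).pd k).pd j]
  refine Finset.sum_congr rfl fun j _ => ?_
  rw [hh_sum fun k _ => ((hf j k).pd k).pd j]
  refine Finset.sum_congr rfl fun k _ => ?_
  rw [pd_hh0 (hf j k), pd_hh0 ((hf j k).pd k)]

lemma hh0_bd {g : V → ℝ} {M H : ℝ} (hM : ∀ x, |g x| ≤ M) (hH : 0 ≤ H) (x : V) :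
    |hh 0 H g x| ≤ M * H := by
  have h1 := intervalIntegral.norm_integral_le_of_norm_le_const (a := 0) (b := H) (C := M)
    (f := fun s => P s g x) fun s _ => by
      rw [Real.norm_eq_abs]
      exact P_abs s x hM
  rw [Real.norm_eq_abs, sub_zero, abs_of_nonneg hH] at h1
  exact h1

end

lemma int_inv_sqrt {a b : ℝ} (ha : 0 < a) (hab : a ≤ b) :
    ∫ s in a..b, (√s)⁻¹ = 2 * √b - 2 * √a := by
  have h : ∀ s ∈ Set.uIcc a b, HasDerivAt (fun s => 2 * √s) ((√s)⁻¹) s := by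
    intro s hs
    rw [uIcc_of_le hab] at hs
    have hs0 : 0 < s := ha.trans_le hs.1
    refine ((Real.hasDerivAt_sqrt hs0.ne').const_mul 2).congr_deriv ?_
    field_simp
  have hc : ContinuousOn (fun s : ℝ => (√s)⁻¹) (Set.uIcc a b) := by
    intro s hs
    rw [uIcc_of_le hab] at hs
    have hs0 : 0 < s := ha.trans_le hs.1
    exact (Real.continuous_sqrt.continuousAt.inv₀ (Real.sqrt_pos.2 hs0).ne').continuousWithinAt
  rw [intervalIntegral.integral_eq_sub_of_hasDerivAt h hc.intervalIntegrable]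

section

variable {H B t₀ : ℝ} {b : Fin 3 → V → ℝ}

lemma h_bd (hb : ∀ i, SP (b i)) (hB : ∀ i x, |b i x| ≤ B) {t : ℝ} (ht : 0 < t) (htH : t ≤ H) (x : V) :
    |hh t H (d0 b) x| ≤ 6 * B * √H := by
  have hB0 : 0 ≤ B := (abs_nonneg _).trans (hB 0 0)
  have hc : ContinuousOn (fun s : ℝ => 3 * B * (√s)⁻¹) (Set.uIcc t H) := by
    intro s hs
    rw [uIcc_of_le htH] at hs
    have hs0 : 0 < s := ht.trans_le hs.1
    exact (continuousAt_const.mul (Real.continuous_sqrt.continuousAt.inv₀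
      (Real.sqrt_pos.2 hs0).ne')).continuousWithinAt
  have h1 : ‖∫ s in t..H, P s (d0 b) x‖ ≤ ∫ s in t..H, 3 * B * (√s)⁻¹ := by
    refine intervalIntegral.norm_integral_le_of_norm_le htH ?_ hc.intervalIntegrable
    refine ae_of_all _ fun s hs => ?_
    have hs0 : 0 < s := ht.trans hs.1
    rw [Real.norm_eq_abs]
    refine (d0_P_bd hb hB hs0 x).trans ?_
    have hle : (√(2 * s))⁻¹ ≤ (√s)⁻¹ :=
      inv_anti₀ (Real.sqrt_pos.2 hs0) (Real.sqrt_le_sqrt (by linarith))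
    calc 3 * ((√(2 * s))⁻¹ * B) ≤ 3 * ((√s)⁻¹ * B) := by gcongr
      _ = _ := by ring
  rw [Real.norm_eq_abs, intervalIntegral.integral_const_mul, int_inv_sqrt ht htH] at h1
  have h2 : 0 ≤ √t := Real.sqrt_nonneg _
  have h3 : hh t H (d0 b) x = ∫ s in t..H, P s (d0 b) x := rfl
  rw [h3]
  refine h1.trans ?_
  nlinarith

lemma d0_P3_bd (hb : ∀ i, SP (b i)) (hB : ∀ i x, |b i x| ≤ B) {s : ℝ} (hs : 0 < s) (i j : Fin 3)
    (x : V) : |P s (pd i (pd j (d0 b))) x| ≤ 6 * B * ((√s)⁻¹ / s) := by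
  have e1 : pd j (d0 b) = fun y => ∑ k, pd j (pd k (b k)) y := by
    funext y
    exact pd_sum (fun k _ => (hb k).pd k) j y
  have e2 : pd i (pd j (d0 b)) = fun y => ∑ k, pd i (pd j (pd k (b k))) y := by
    funext y
    rw [e1]
    exact pd_sum (fun k _ => ((hb k).pd k).pd j) i y
  rw [e2, P_sum fun k _ => (((hb k).pd k).pd j).pd i]
  refine (Finset.abs_sum_le_sum_abs _ _).trans ?_
  refine (Finset.sum_le_sum fun k _ => P_third (hb k) hs (hB k) i j k x).trans (le_of_eq ?_)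
  simp
  ring

lemma er_bd (hb : ∀ i, SP (b i)) (hB : ∀ i x, |b i x| ≤ B) (hH : 0 < H)
    (hs : 640 * B * √t₀ ≤ 1) (n : ℕ) {t : ℝ} (ht : t ∈ Icc 0 t₀) (x : V) :
    |er H b n t x| ≤ 36 * t₀ * B ^ 2 / H := by
  have h1 := intervalIntegral.norm_integral_le_of_norm_le_const (a := 0) (b := t)
    (C := 9 * (H⁻¹ * (4 * B ^ 2)))
    (f := fun s => P (t - s) (P H (dd2 fun i j => FP H b n i j s)) x) fun s hs' => by
      rw [uIoc_of_le ht.1] at hs'
      rw [Real.norm_eq_abs]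
      refine P_abs _ x fun y => dd2_P_bd (fun i j => (FP_jj hb n i j).sp s) (fun i j x => ?_) hH y
      exact FP_bd hb hB hH.le hs n s ⟨hs'.1.le, hs'.2.trans ht.2⟩ i j x
  rw [Real.norm_eq_abs, sub_zero, abs_of_nonneg ht.1] at h1
  have h2 : er H b n t x = ∫ s in (0 : ℝ)..t, P (t - s) (P H (dd2 fun i j => FP H b n i j s)) x := rfl
  rw [h2]
  refine h1.trans ?_
  have h3 := ht.2
  have h4 := ht.1
  calc 9 * (H⁻¹ * (4 * B ^ 2)) * t ≤ 9 * (H⁻¹ * (4 * B ^ 2)) * t₀ := by gcongr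
    _ = _ := by field_simp; ring

lemma er2_bd (hb : ∀ i, SP (b i)) (hB : ∀ i x, |b i x| ≤ B) (hH : 0 < H)
    (hs : 640 * B * √t₀ ≤ 1) (n : ℕ) {t : ℝ} (ht : t ∈ Icc 0 t₀) (a c : Fin 3) (x : V) :
    |pd a (pd c (er H b n t)) x| ≤ 144 * t₀ * B ^ 2 / H ^ 2 := by
  have hjj := er_jj0 (H := H) hb n
  have e0 : pd a (pd c (er H b n t)) = DD (fun s => pd a (pd c (P H (dd2 fun i j => FP H b n i j s)))) t := by
    unfold er
    rw [pd_DD hjj, pd_DD (hjj.pd c)]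
  have h1 := intervalIntegral.norm_integral_le_of_norm_le_const (a := 0) (b := t)
    (C := 36 * (4 * B ^ 2) / H ^ 2)
    (f := fun s => P (t - s) (pd a (pd c (P H (dd2 fun i j => FP H b n i j s)))) x) fun s hs' => by
      rw [uIoc_of_le ht.1] at hs'
      rw [Real.norm_eq_abs]
      have hsp := dd2_sp fun i j => (FP_jj (H := H) hb n i j).sp s
      rw [pd_P' hsp, pd_P' (hsp.pd c)]
      refine P_abs _ x fun y => dd2_P4_bd (fun i j => (FP_jj hb n i j).sp s) (fun i j x => ?_) hH a c y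
      exact FP_bd hb hB hH.le hs n s ⟨hs'.1.le, hs'.2.trans ht.2⟩ i j x
  rw [Real.norm_eq_abs, sub_zero, abs_of_nonneg ht.1] at h1
  rw [e0]
  refine h1.trans ?_
  have h3 := ht.2
  have h4 := ht.1
  calc 36 * (4 * B ^ 2) / H ^ 2 * t ≤ 36 * (4 * B ^ 2) / H ^ 2 * t₀ := by gcongr
    _ = _ := by field_simp; ring

/-- The constant of the error. -/
noncomputable def KK (B Bp t₀ : ℝ) : ℝ := (3 * B + 36 * t₀ * B ^ 2) ^ 2 + 864 * B ^ 3
  + 2 * (Bp * (3 * B + 36 * t₀ * B ^ 2)) + 10368 * t₀ * B ^ 4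

lemma err_bd (hb : ∀ i, SP (b i)) (hB : ∀ i x, |b i x| ≤ B) (hH : 1 ≤ H)
    (hs : 640 * B * √t₀ ≤ 1) (n : ℕ) {t : ℝ} (ht : t ∈ Ioc 0 t₀) (htH : t₀ ≤ H) {p : V → ℝ}
    (hp : SP p) {Bp : ℝ} (hBp : ∀ x, |p x| ≤ Bp) {z : V → ℝ}
    (hz : z = fun x => P H (d0 b) x - er H b n t x) :
    1 / 12 * I (fun x => z x ^ 2)
      - 2 * I (fun x => hh t H (d0 b) x * P H (dd2 fun i j => FP H b n i j t) x)
      - 2 * I (fun x => p x * z x) + 2 * I (fun x => hh 0 H (dd2 fun i j => FP H b n i j t) x * z x)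
      ≤ KK B Bp t₀ / √H := by
  have hB0 : 0 ≤ B := (abs_nonneg _).trans (hB 0 0)
  have hBp0 : 0 ≤ Bp := (abs_nonneg _).trans (hBp 0)
  have hH0 : 0 < H := by linarith
  have ht0 : 0 ≤ t₀ := ht.1.le.trans ht.2
  have htI : t ∈ Icc 0 t₀ := ⟨ht.1.le, ht.2⟩
  obtain ⟨σ, hσ⟩ : ∃ σ, σ = √H := ⟨_, rfl⟩
  have hσ1 : 1 ≤ σ := by rw [hσ]; exact Real.one_le_sqrt.2 hH
  have hσ0 : 0 < σ := by linarith
  have hσH : H = σ ^ 2 := by rw [hσ, Real.sq_sqrt hH0.le]
  have hd0 := d0_sp hb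
  have hFs : ∀ i j, SP (FP H b n i j t) := fun i j => (FP_jj hb n i j).sp t
  have hFb : ∀ i j x, |FP H b n i j t x| ≤ 4 * B ^ 2 := FP_bd hb hB hH0.le hs n t htI
  have hzs : SP z := by rw [hz]; exact sp_sub (P_sp' hd0 H) (er_sp hb n t)
  obtain ⟨Kz, hKz⟩ : ∃ Kz, Kz = 3 * B + 36 * t₀ * B ^ 2 := ⟨_, rfl⟩
  have hKz0 : 0 ≤ Kz := by rw [hKz]; positivity
  have hzb : ∀ x, |z x| ≤ Kz / σ := by
    intro x
    rw [hz]
    refine (abs_sub _ _).trans ?_
    have h1 := d0_P_bd hb hB hH0 x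
    have h2 := er_bd hb hB hH0 hs n htI x
    have hle : (√(2 * H))⁻¹ ≤ σ⁻¹ := by
      rw [hσ]
      exact inv_anti₀ (Real.sqrt_pos.2 hH0) (Real.sqrt_le_sqrt (by linarith))
    have h3 : 36 * t₀ * B ^ 2 / H ≤ 36 * t₀ * B ^ 2 / σ := by
      rw [hσH]
      apply div_le_div_of_nonneg_left (by positivity) hσ0
      nlinarith
    calc |P H (d0 b) x| + |er H b n t x| ≤ 3 * (σ⁻¹ * B) + 36 * t₀ * B ^ 2 / σ :=
          add_le_add (h1.trans (by gcongr)) (h2.trans h3)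
      _ = Kz / σ := by rw [hKz]; field_simp
  have hz2 : ∀ a c x, |pd a (pd c z) x| ≤ 6 * B / σ ^ 3 + 144 * t₀ * B ^ 2 / σ ^ 4 := by
    intro a c x
    have e1 : pd c z = fun x => pd c (P H (d0 b)) x - pd c (er H b n t) x := by
      funext y
      rw [hz]
      exact pd_sub (P_sp' hd0 H) (er_sp hb n t) c y
    rw [e1, pd_sub ((P_sp' hd0 H).pd c) ((er_sp hb n t).pd c), pd_P' hd0, pd_P' (hd0.pd c)]
    refine (abs_sub _ _).trans ?_
    have h1 := d0_P3_bd hb hB hH0 a c x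
    have h2 := er2_bd hb hB hH0 hs n htI a c x
    refine add_le_add (h1.trans (le_of_eq ?_)) (h2.trans (le_of_eq ?_))
    · rw [← hσ, hσH]
      field_simp
    · rw [hσH]
      ring_nf
  -- the four terms
  have b1 : I (fun x => z x ^ 2) ≤ Kz ^ 2 / σ := by
    refine I_le_of_le (sp_sq hzs) fun x => ?_
    have h1 : z x ^ 2 ≤ (Kz / σ) ^ 2 := by
      rw [← sq_abs]
      exact pow_le_pow_left₀ (abs_nonneg _) (hzb x) 2
    refine h1.trans ?_
    rw [div_pow]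
    apply div_le_div_of_nonneg_left (by positivity) hσ0
    nlinarith
  have b2 : |I (fun x => hh t H (d0 b) x * P H (dd2 fun i j => FP H b n i j t) x)| ≤ 216 * B ^ 3 / σ := by
    refine I_abs ((hh_sp hd0 ht.1 (ht.2.trans htH)).mul (P_sp' (dd2_sp hFs) H)) fun x => ?_
    have h1 := h_bd hb hB ht.1 (ht.2.trans htH) x
    have h2 := dd2_P_bd hFs hFb hH0 x
    rw [abs_mul]
    calc |hh t H (d0 b) x| * |P H (dd2 fun i j => FP H b n i j t) x|
        ≤ (6 * B * √H) * (9 * (H⁻¹ * (4 * B ^ 2))) := mul_le_mul h1 h2 (abs_nonneg _) (by positivity)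
      _ = 216 * B ^ 3 / σ := by
          rw [← hσ, hσH]
          field_simp
          ring
  have b3 : |I (fun x => p x * z x)| ≤ Bp * Kz / σ := by
    refine I_abs (hp.mul hzs) fun x => ?_
    rw [abs_mul]
    calc |p x| * |z x| ≤ Bp * (Kz / σ) := mul_le_mul (hBp x) (hzb x) (abs_nonneg _) hBp0
      _ = _ := by ring
  have b4 : |I (fun x => hh 0 H (dd2 fun i j => FP H b n i j t) x * z x)|
      ≤ 216 * B ^ 3 / σ + 5184 * t₀ * B ^ 4 / σ := by
    have hsp : ∀ j k, SP (hh 0 H (FP H b n j k t)) := fun j k => hh0_sp (hFs j k) H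
    have e1 : (fun x => hh 0 H (dd2 fun i j => FP H b n i j t) x * z x)
        = fun x => ∑ j, ∑ k, pd j (pd k (hh 0 H (FP H b n j k t))) x * z x := by
      funext x
      rw [hh_dd2 hFs, Finset.sum_mul]
      exact Finset.sum_congr rfl fun j _ => Finset.sum_mul _ _ _
    rw [e1, ← I_sum2 fun j k => (((hsp j k).pd k).pd j).mul hzs]
    have e2 : ∀ j k, I (fun x => pd j (pd k (hh 0 H (FP H b n j k t))) x * z x)
        = I (fun x => hh 0 H (FP H b n j k t) x * pd k (pd j z) x) := by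
      intro j k
      have c1 := ibp ((hsp j k).pd k) hzs j
      have c2 := ibp (hsp j k) (hzs.pd j) k
      unfold I
      rw [c1, c2, neg_neg]
    have e3 : ∀ j k, |I (fun x => pd j (pd k (hh 0 H (FP H b n j k t))) x * z x)|
        ≤ 24 * B ^ 3 / σ + 576 * t₀ * B ^ 4 / σ := by
      intro j k
      rw [e2]
      refine I_abs ((hsp j k).mul ((hzs.pd j).pd k)) fun x => ?_
      rw [abs_mul]
      have h1 := hh0_bd (hFb j k) hH0.le x
      have h2 := hz2 k j x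
      calc |hh 0 H (FP H b n j k t) x| * |pd k (pd j z) x|
          ≤ (4 * B ^ 2 * H) * (6 * B / σ ^ 3 + 144 * t₀ * B ^ 2 / σ ^ 4) :=
            mul_le_mul h1 h2 (abs_nonneg _) (by positivity)
        _ = 24 * B ^ 3 / σ + 576 * t₀ * B ^ 4 / σ ^ 2 := by
            rw [hσH]
            field_simp
            ring
        _ ≤ 24 * B ^ 3 / σ + 576 * t₀ * B ^ 4 / σ := by
            refine add_le_add le_rfl (div_le_div_of_nonneg_left (by positivity) hσ0 ?_)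
            nlinarith
    refine (Finset.abs_sum_le_sum_abs _ _).trans ?_
    refine (Finset.sum_le_sum fun j _ => (Finset.abs_sum_le_sum_abs _ _).trans
      (Finset.sum_le_sum fun k _ => e3 j k)).trans (le_of_eq ?_)
    simp
    ring
  have a2 := neg_abs_le (I (fun x => hh t H (d0 b) x * P H (dd2 fun i j => FP H b n i j t) x))
  have a3 := neg_abs_le (I (fun x => p x * z x))
  have a4 := le_abs_self (I (fun x => hh 0 H (dd2 fun i j => FP H b n i j t) x * z x))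
  have hfin : KK B Bp t₀ / √H = Kz ^ 2 / σ + 864 * B ^ 3 / σ + 2 * (Bp * Kz / σ)
      + 10368 * t₀ * B ^ 4 / σ := by
    unfold KK
    rw [← hσ, ← hKz]
    ring
  rw [hfin]
  have c1 : 0 ≤ I (fun x => z x ^ 2) := I_nonneg fun x => sq_nonneg _
  have c2 : 864 * B ^ 3 / σ = 2 * (216 * B ^ 3 / σ) + 2 * (216 * B ^ 3 / σ) := by ring
  have c3 : 10368 * t₀ * B ^ 4 / σ = 2 * (5184 * t₀ * B ^ 4 / σ) := by ring
  rw [c2, c3]
  linarith

end

end Run7.h219.SL
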