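import Pool.Agent.Run7.h219.SL.En2
import Pool.Agent.H459R3.NS.Sol

/-!
The difference of a solution and a heat flow: evolution of the energy.
-/

set_option autoImplicit false

open MeasureTheory Set Filter Topology
open scoped ContDiff NNReal

namespace Run7.h219.SL

open H459R3.NS

section

variable {T : ℝ} {u : ℝ → V → V} {p : ℝ → V → ℝ} {b : Fin 3 → V → ℝ}

/-- The pressure equation, in the weak form. -/
lemma press_eq (h : IsSol 1 T u p) {t : ℝ} (ht : t ∈ Ioo 0 T) {k : V → ℝ} (hk : SP k) :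
    I (fun x => p t x * lap k x)
      + ∑ i, ∑ j, I (fun x => u t x i * (u t x j * pd i (pd j k) x)) = 0 := by
  have hI : t ∈ Ico 0 T := ⟨ht.1.le, ht.2⟩
  obtain ⟨v, hv⟩ : ∃ v : Fin 3 → V → ℝ, v = fun i y => u t y i := ⟨_, rfl⟩
  have hsp : ∀ i, SP (v i) := fun i => by rw [hv]; exact h.sp hI i
  have hdiv : ∀ x, ∑ i, pd i (v i) x = 0 := by rw [hv]; exact h.divfree t hI
  have hps : SP (p t) := h.sp_p hI
  -- the derivative of zero
  have h1 : ∀ i, HasDerivAt (fun s => ∫ x in cube, u s x i * pd i k x)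
      (∫ x in cube, dt (fun s y => u s y i) t x * pd i k x) t := by
    intro i
    have hF : ContDiffOn ℝ 1 (fun z : ℝ × V => u z.1 z.2 i * pd i k z.2) (Ioo 0 T ×ˢ univ) := by
      refine (mono_Ioo (f := fun s y => u s y i) (h.smooth_c i) (by norm_cast)).mul ?_
      exact (((hk.pd i).smooth.of_le (by norm_cast)).comp contDiff_snd).contDiffOn
    have key := hasDerivAt_int (F := fun s x => u s x i * pd i k x) hF ht
    refine key.congr_deriv ?_
    congr 1
    funext x
    have h2 : HasDerivAt (fun s => u s x i) (dt (fun s y => u s y i) t x) t := by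
      have := hasDerivAt_slice (F := fun s y => u s y i)
        (mono_Ioo (f := fun s y => u s y i) (h.smooth_c i) (by norm_cast)) ht x
      rwa [← H459R3.NS.dt_eq (f := fun s y => u s y i) (h.smooth_c i) ht x] at this
    exact (h2.mul_const _).deriv
  have h2 : HasDerivAt (fun s => ∑ i, ∫ x in cube, u s x i * pd i k x)
      (∑ i, ∫ x in cube, dt (fun s y => u s y i) t x * pd i k x) t := HasDerivAt.fun_sum fun i _ => h1 i
  have h3 : (fun s => ∑ i, ∫ x in cube, u s x i * pd i k x) =ᶠ[𝓝 t] fun _ => 0 := by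
    filter_upwards [Ioo_mem_nhds ht.1 ht.2] with s hs
    have hs' : s ∈ Ico 0 T := ⟨hs.1.le, hs.2⟩
    exact int_press (v := fun i y => u s y i) (fun i => h.sp hs' i) (h.divfree s hs') hk
  have h4 : ∑ i, ∫ x in cube, dt (fun s y => u s y i) t x * pd i k x = 0 := by
    have := h2.congr_of_eventuallyEq h3.symm
    exact this.unique (hasDerivAt_const t 0)
  have h5 : ∀ i, ∫ x in cube, dt (fun s y => u s y i) t x * pd i k x
      = I (fun x => lap (v i) x * pd i k x) - I (fun x => conv v i x * pd i k x)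
        - I (fun x => pd i (p t) x * pd i k x) := by
    intro i
    rw [← I_sub ((hsp i).lap.mul (hk.pd i)) ((sp_conv hsp i).mul (hk.pd i)),
      ← I_sub (sp_sub ((hsp i).lap.mul (hk.pd i)) ((sp_conv hsp i).mul (hk.pd i)))
        ((hps.pd i).mul (hk.pd i))]
    unfold I
    congr 1
    funext x
    rw [h.dt_eq ht, hv]
    ring
  simp_rw [h5] at h4
  rw [Finset.sum_sub_distrib, Finset.sum_sub_distrib] at h4
  have h6 : ∑ i, I (fun x => lap (v i) x * pd i k x) = 0 := int_lap_press hsp hdiv hk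
  have h7 : ∑ i, I (fun x => pd i (p t) x * pd i k x) = -I (fun x => p t x * lap k x) := by
    have e1 : ∀ i, I (fun x => pd i (p t) x * pd i k x) = -I (fun x => p t x * pd i (pd i k) x) :=
      fun i => ibp hps (hk.pd i) i
    simp_rw [e1]
    rw [Finset.sum_neg_distrib, ← I_sum fun i _ => hps.mul ((hk.pd i).pd i)]
    congr 2
    funext x
    unfold lap
    rw [Finset.mul_sum]
  have h8 : ∑ i, I (fun x => conv v i x * pd i k x)
      = -∑ i, ∑ j, I (fun x => v i x * (v j x * pd i (pd j k) x)) := by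
    rw [← Finset.sum_neg_distrib]
    refine Finset.sum_congr rfl fun i _ => ?_
    have e1 := int_press hsp hdiv ((hsp i).mul (hk.pd i))
    have e2 : ∀ j, ∫ x in cube, v j x * pd j (fun y => v i y * pd i k y) x
        = I (fun x => v i x * (v j x * pd i (pd j k) x)) + I (fun x => v j x * pd j (v i) x * pd i k x) := by
      intro j
      rw [← I_add ((hsp i).mul ((hsp j).mul ((hk.pd j).pd i)))
        (((hsp j).mul ((hsp i).pd j)).mul (hk.pd i))]
      unfold I
      congr 1
      funext x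
      rw [pd_mul (hsp i) (hk.pd i), pd_comm hk i j]
      ring
    simp_rw [e2] at e1
    rw [Finset.sum_add_distrib] at e1
    have e3 : I (fun x => conv v i x * pd i k x) = ∑ j, I (fun x => v j x * pd j (v i) x * pd i k x) := by
      rw [← I_sum fun j _ => ((hsp j).mul ((hsp i).pd j)).mul (hk.pd i)]
      congr 1
      funext x
      unfold conv
      rw [Finset.sum_mul]
    rw [e3]
    linarith
  rw [h6, h7, h8] at h4
  rw [hv] at h4
  linarith

/-- The energy of the difference. -/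
noncomputable def en (u : ℝ → V → V) (b : Fin 3 → V → ℝ) (t : ℝ) : ℝ :=
  ∑ i, I (fun x => (u t x i - P t (b i) x) ^ 2)

/-- The dissipation of the difference. -/
noncomputable def di (u : ℝ → V → V) (b : Fin 3 → V → ℝ) (t : ℝ) : ℝ :=
  ∑ i, ∑ j, I (fun x => (pd j (fun y => u t y i) x - P t (pd j (b i)) x) ^ 2)

lemma di_nonneg (t : ℝ) : 0 ≤ di u b t :=
  Finset.sum_nonneg fun _ _ => Finset.sum_nonneg fun _ _ => I_nonneg fun _ => sq_nonneg _

lemma en_nonneg (t : ℝ) : 0 ≤ en u b t := Finset.sum_nonneg fun _ _ => I_nonneg fun _ => sq_nonneg _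

lemma en_deriv (h : IsSol 1 T u p) (hb : ∀ i, SP (b i)) {t : ℝ} (ht : t ∈ Ioo 0 T) :
    HasDerivAt (en u b) (2 * ∑ i, I (fun x => (u t x i - P t (b i) x) *
      (lap (fun y => u t y i) x - conv (fun i y => u t y i) i x - pd i (p t) x
        - lap (P t (b i)) x))) t := by
  have h1 : ∀ i, HasDerivAt (fun s => I (fun x => (u s x i - P s (b i) x) ^ 2))
      (2 * I (fun x => (u t x i - P t (b i) x) *
      (lap (fun y => u t y i) x - conv (fun i y => u t y i) i x - pd i (p t) x
        - lap (P t (b i)) x))) t := by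
    intro i
    have hP : ContDiffOn ℝ 1 (fun z : ℝ × V => P z.1 (b i) z.2) (Ioo 0 T ×ˢ univ) :=
      ((P_smooth (hb i)).of_le (by norm_cast)).mono
        (prod_mono Ioo_subset_Ioi_self subset_rfl)
    have hF : ContDiffOn ℝ 1 (fun z : ℝ × V => (u z.1 z.2 i - P z.1 (b i) z.2) ^ 2)
        (Ioo 0 T ×ˢ univ) :=
      ((mono_Ioo (f := fun s y => u s y i) (h.smooth_c i) (by norm_cast)).sub hP).pow 2
    have key := hasDerivAt_int (F := fun s x => (u s x i - P s (b i) x) ^ 2) hF ht
    unfold I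
    refine key.congr_deriv ?_
    rw [← integral_const_mul]
    congr 1
    funext x
    have h2 : HasDerivAt (fun s => u s x i) (dt (fun s y => u s y i) t x) t := by
      have := hasDerivAt_slice (F := fun s y => u s y i)
        (mono_Ioo (f := fun s y => u s y i) (h.smooth_c i) (by norm_cast)) ht x
      rwa [← H459R3.NS.dt_eq (f := fun s y => u s y i) (h.smooth_c i) ht x] at this
    have h3 := (h2.sub (P_t (hb i) ht.1 x)).pow 2
    have h4 : HasDerivAt (fun s => (u s x i - P s (b i) x) ^ 2) _ t := h3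
    rw [h4.deriv, h.dt_eq ht, lap_P (hb i) ht.1.le]
    push_cast
    simp only [Pi.sub_apply]
    ring
  have h2 := HasDerivAt.fun_sum fun i (_ : i ∈ (Finset.univ : Finset (Fin 3))) => h1 i
  unfold en
  refine h2.congr_deriv ?_
  rw [Finset.mul_sum]

lemma en_cont (h : IsSol 1 T u p) (hb : ∀ i, SP (b i)) : ContinuousOn (en u b) (Ico 0 T) := by
  unfold en
  refine continuousOn_finsetSum _ fun i _ => ?_
  exact continuousOn_int (F := fun s x => (u s x i - P s (b i) x) ^ 2)
    (((h.smooth_c i).continuousOn.sub (P_cont (hb i)).continuousOn).pow 2)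

lemma di_cont (h : IsSol 1 T u p) (hb : ∀ i, SP (b i)) : ContinuousOn (di u b) (Ico 0 T) := by
  unfold di
  refine continuousOn_finsetSum _ fun i _ => continuousOn_finsetSum _ fun j _ => ?_
  exact continuousOn_int (F := fun s x => (pd j (fun y => u s y i) x - P s (pd j (b i)) x) ^ 2)
    (((contDiffOn_pd (f := fun s y => u s y i) (h.smooth_c i) j).continuousOn.sub
      (P_cont ((hb i).pd j)).continuousOn).pow 2)

/-- The fourth power. -/
lemma four_le (hb : ∀ i, SP (b i)) {t : ℝ} (ht : 0 ≤ t) :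
    I (fun x => (∑ i, P t (b i) x ^ 2) ^ 2) ≤ I (fun x => (∑ i, b i x ^ 2) ^ 2) := by
  have hs : SP (fun x => ∑ i, b i x ^ 2) := SP.sum fun i _ => sp_sq (hb i)
  have hV : ∀ i, SP (P t (b i)) := fun i => P_sp (hb i) ht
  have h1 : I (fun x => (∑ i, P t (b i) x ^ 2) ^ 2) ≤ I (P t (fun x => (∑ i, b i x ^ 2) ^ 2)) := by
    refine I_mono (sp_sq (SP.sum fun i _ => sp_sq (hV i))) (P_sp (sp_sq hs) ht) fun x => ?_
    have h2 : ∑ i, P t (b i) x ^ 2 ≤ P t (fun x => ∑ i, b i x ^ 2) x := by
      rw [P_sum fun i _ => sp_sq (hb i)]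
      exact Finset.sum_le_sum fun i _ => P_sq (hb i) t x
    have h3 : 0 ≤ ∑ i, P t (b i) x ^ 2 := Finset.sum_nonneg fun i _ => sq_nonneg _
    exact (pow_le_pow_left₀ h3 h2 2).trans (P_sq hs t x)
  refine h1.trans (le_of_eq ?_)
  unfold I
  exact P_mass (sp_sq hs) t

/-- The differential inequality. -/
lemma en_ineq (h : IsSol 1 T u p) (hb : ∀ i, SP (b i)) {B : ℝ} (hB : ∀ i x, |b i x| ≤ B) {t : ℝ}
    (ht : t ∈ Ioo 0 T) : ∃ e', HasDerivAt (en u b) e' t ∧
      e' + di u b t ≤ 80 * I (fun x => (∑ i, b i x ^ 2) ^ 2)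
        + (456 * B ^ 2 + 72 * B * (√t)⁻¹) * en u b t := by
  have hI : t ∈ Ico 0 T := ⟨ht.1.le, ht.2⟩
  refine ⟨_, en_deriv h hb ht, ?_⟩
  have key := slice (u := fun i y => u t y i) (b := b) (p := p t)
    (w := fun i x => u t x i - P t (b i) x) (fun i => h.sp hI i) hb (h.sp_p hI) (h.divfree t hI)
    (fun k hk => press_eq h ht hk) hB ht.1 (fun i => rfl)
  have e1 : ∀ i j, (fun x => pd j (fun x => u t x i - P t (b i) x) x ^ 2)
      = fun x => (pd j (fun y => u t y i) x - P t (pd j (b i)) x) ^ 2 := by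
    intro i j
    funext x
    rw [pd_sub (h.sp hI i) (P_sp (hb i) ht.1.le), pd_P (hb i) ht.1.le]
  have e2 : ∑ i, ∑ j, I (fun x => pd j (fun x => u t x i - P t (b i) x) x ^ 2) = di u b t := by
    unfold di
    exact Finset.sum_congr rfl fun i _ => Finset.sum_congr rfl fun j _ => by rw [e1]
  rw [e2] at key
  refine key.trans ?_
  have := four_le hb ht.1.le
  unfold en
  linarith

/-- The exponent. -/
noncomputable def gam (B t : ℝ) : ℝ := 456 * B ^ 2 * t + 144 * B * √t

/-- The dissipation of the difference. -/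
theorem dissip (h : IsSol 1 T u p) (hb : ∀ i, SP (b i)) {B : ℝ} (hB : ∀ i x, |b i x| ≤ B) {t₁ : ℝ}
    (ht₁ : t₁ ∈ Ioo 0 T) : ∫ t in (0 : ℝ)..t₁, di u b t
      ≤ Real.exp (gam B t₁) * (en u b 0 + 80 * t₁ * I (fun x => (∑ i, b i x ^ 2) ^ 2)) := by
  obtain ⟨Q, hQ⟩ : ∃ Q, Q = I (fun x => (∑ i, b i x ^ 2) ^ 2) := ⟨_, rfl⟩
  have hQ0 : 0 ≤ Q := by rw [hQ]; exact I_nonneg fun x => sq_nonneg _
  have hB0 : 0 ≤ B := (abs_nonneg _).trans (hB 0 0)
  obtain ⟨c, hc⟩ : ∃ c, c = Real.exp (-gam B t₁) := ⟨_, rfl⟩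
  have hc0 : 0 < c := by rw [hc]; exact Real.exp_pos _
  have hgc : Continuous (gam B) := by unfold gam; fun_prop
  have hsub : Icc 0 t₁ ⊆ Ico 0 T := fun s hs => ⟨hs.1, hs.2.trans_lt ht₁.2⟩
  have hdc : ContinuousOn (di u b) (Icc 0 t₁) := (di_cont h hb).mono hsub
  obtain ⟨Φ, hΦ⟩ : ∃ Φ : ℝ → ℝ, Φ = fun t => en u b t * Real.exp (-gam B t) - 80 * Q * t
      + c * ∫ s in (0 : ℝ)..t, di u b s := ⟨_, rfl⟩
  have hΦc : ContinuousOn Φ (Icc 0 t₁) := by
    rw [hΦ]
    refine (((((en_cont h hb).mono hsub).mul ((Real.continuous_exp.comp hgc.neg).continuousOn)).sub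
      (by fun_prop)).add (continuousOn_const.mul ?_))
    exact intervalIntegral.continuousOn_primitive_interval
      (by rw [uIcc_of_le ht₁.1.le]; exact hdc.integrableOn_Icc)
      |>.mono (by rw [uIcc_of_le ht₁.1.le])
  have hΦd : ∀ t ∈ Ioo 0 t₁, ∃ d, HasDerivAt Φ d t ∧ d ≤ 0 := by
    intro t ht
    have htT : t ∈ Ioo 0 T := ⟨ht.1, ht.2.trans ht₁.2⟩
    obtain ⟨e', he', hle⟩ := en_ineq h hb hB htT
    rw [← hQ] at hle
    have hst : 0 < √t := Real.sqrt_pos.2 ht.1
    have hg : HasDerivAt (gam B) (456 * B ^ 2 + 72 * B * (√t)⁻¹) t := by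
      unfold gam
      have h1 := ((hasDerivAt_id t).const_mul (456 * B ^ 2)).add
        ((Real.hasDerivAt_sqrt ht.1.ne').const_mul (144 * B))
      refine h1.congr_deriv ?_
      field_simp
      ring
    have hint : HasDerivAt (fun t => ∫ s in (0 : ℝ)..t, di u b s) (di u b t) t := by
      have hcont : ContinuousAt (di u b) t :=
        (di_cont h hb).continuousAt (Ico_mem_nhds ht.1 (ht.2.trans ht₁.2))
      refine intervalIntegral.integral_hasDerivAt_right ?_ ?_ hcont
      · refine ContinuousOn.intervalIntegrable ?_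
        rw [uIcc_of_le ht.1.le]
        exact hdc.mono (Icc_subset_Icc_right ht.2.le)
      · exact ContinuousOn.stronglyMeasurableAtFilter isOpen_Ioo
          (hdc.mono Ioo_subset_Icc_self) t ht
    have hd := ((he'.mul hg.neg.exp).sub ((hasDerivAt_id t).const_mul (80 * Q))).add
      (hint.const_mul c)
    rw [hΦ]
    refine ⟨_, hd, ?_⟩
    have hex : c ≤ Real.exp (-gam B t) := by
      rw [hc]
      apply Real.exp_le_exp.2
      have h1 : gam B t ≤ gam B t₁ := by
        unfold gam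
        have := Real.sqrt_le_sqrt ht.2.le
        have := ht.2.le
        gcongr
      linarith
    have hex1 : Real.exp (-gam B t) ≤ 1 := by
      rw [← Real.exp_zero]
      apply Real.exp_le_exp.2
      have h1 : 0 ≤ gam B t := by
        unfold gam
        have := ht.1.le
        positivity
      linarith
    have hex0 := Real.exp_pos (-gam B t)
    have h2 : (e' - (456 * B ^ 2 + 72 * B * (√t)⁻¹) * en u b t) * Real.exp (-gam B t)
        ≤ (80 * Q - di u b t) * Real.exp (-gam B t) :=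
      mul_le_mul_of_nonneg_right (by linarith) hex0.le
    have h3 : 80 * Q * Real.exp (-gam B t) ≤ 80 * Q * 1 :=
      mul_le_mul_of_nonneg_left hex1 (by positivity)
    have h4 : c * di u b t ≤ Real.exp (-gam B t) * di u b t :=
      mul_le_mul_of_nonneg_right hex (di_nonneg t)
    simp only [mul_one, Pi.neg_apply]
    linarith [h2, h3, h4]
  have hanti : AntitoneOn Φ (Icc 0 t₁) := by
    refine antitoneOn_of_deriv_nonpos (convex_Icc 0 t₁) hΦc ?_ ?_
    · rw [interior_Icc]
      intro t ht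
      obtain ⟨d, hd, -⟩ := hΦd t ht
      exact hd.differentiableAt.differentiableWithinAt
    · rw [interior_Icc]
      intro t ht
      obtain ⟨d, hd, hle⟩ := hΦd t ht
      rw [hd.deriv]
      exact hle
  have hfin := hanti ⟨le_rfl, ht₁.1.le⟩ ⟨ht₁.1.le, le_rfl⟩ ht₁.1.le
  rw [hΦ] at hfin
  simp only [intervalIntegral.integral_same, mul_zero, add_zero, sub_zero] at hfin
  have hg0 : gam B 0 = 0 := by unfold gam; simp
  rw [hg0, neg_zero, Real.exp_zero, mul_one] at hfin
  have h5 : 0 ≤ en u b t₁ * Real.exp (-gam B t₁) :=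
    mul_nonneg (en_nonneg t₁) (Real.exp_pos _).le
  have h6 : c * ∫ s in (0 : ℝ)..t₁, di u b s ≤ en u b 0 + 80 * t₁ * Q := by linarith
  have h7 : Real.exp (gam B t₁) * c = 1 := by
    rw [hc, ← Real.exp_add, add_neg_cancel, Real.exp_zero]
  rw [← hQ]
  calc ∫ s in (0 : ℝ)..t₁, di u b s = Real.exp (gam B t₁) * (c * ∫ s in (0 : ℝ)..t₁, di u b s) := by
        rw [← mul_assoc, h7, one_mul]
    _ ≤ _ := mul_le_mul_of_nonneg_left h6 (Real.exp_pos _).le

end

end Run7.h219.SL
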