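import Pool.Agent.Run7.h219.SL.Err
import Pool.Agent.Run7.h219.SL.Evo

/-!
The difference of a solution and a Picard iterate: evolution of the energy.
-/

set_option autoImplicit false

open MeasureTheory Set Filter Topology
open scoped ContDiff NNReal

namespace Run7.h219.SL

open H459R3.NS

/-- Differentiation of an integral over the period cell. -/
lemma hasDerivAt_I {F F' : ℝ → V → ℝ} {a b t : ℝ} (ht : t ∈ Ioo a b)
    (hF : ContinuousOn (fun z : ℝ × V => F z.1 z.2) (Ioo a b ×ˢ univ))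
    (hF' : ContinuousOn (fun z : ℝ × V => F' z.1 z.2) (Ioo a b ×ˢ univ))
    (hd : ∀ s ∈ Ioo a b, ∀ x, HasDerivAt (fun s => F s x) (F' s x) s) :
    HasDerivAt (fun s => I (F s)) (I (F' t)) t := by
  obtain ⟨a', ha1, ha2⟩ := exists_between ht.1
  obtain ⟨b', hb1, hb2⟩ := exists_between ht.2
  have hK : IsCompact (Icc a' b' ×ˢ cube) := isCompact_Icc.prod isCompact_Icc
  have hsub : Icc a' b' ×ˢ cube ⊆ Ioo a b ×ˢ (univ : Set V) :=
    prod_mono (fun s hs => ⟨ha1.trans_le hs.1, hs.2.trans_lt hb2⟩) (subset_univ _)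
  obtain ⟨C, hC⟩ := hK.exists_bound_of_continuousOn (hF'.mono hsub)
  have hslice : ∀ s ∈ Ioo a b, Continuous (fun x => F s x) := fun s hs => by
    have := hF.comp_continuous (f := fun x : V => ((s, x) : ℝ × V)) (by fun_prop)
      (fun x => ⟨hs, mem_univ _⟩)
    exact this
  have hnh : Icc a' b' ∈ 𝓝 t := Icc_mem_nhds ha2 hb1
  have hmeas : MeasurableSet cube := measurableSet_Icc
  have := cube_finite
  unfold I
  refine (hasDerivAt_integral_of_dominated_loc_of_deriv_le (s := Icc a' b')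
    (F := fun s x => F s x) (F' := fun s x => F' s x)
    (bound := fun _ => C) (μ := volume.restrict cube) hnh ?_ ?_ ?_ ?_ ?_ ?_).2
  · filter_upwards [Ioo_mem_nhds ht.1 ht.2] with s hs
    exact (hslice s hs).aestronglyMeasurable
  · exact integrableOn_cube (hslice t ht)
  · have : Continuous (fun x => F' t x) := by
      have h := hF'.comp_continuous (f := fun x : V => ((t, x) : ℝ × V)) (by fun_prop)
        (fun x => ⟨ht, mem_univ _⟩)
      exact h
    exact this.aestronglyMeasurable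
  · refine (ae_restrict_iff' hmeas).2 (Filter.Eventually.of_forall fun x hx s hs => ?_)
    exact hC (s, x) ⟨hs, hx⟩
  · exact integrable_const _
  · refine Filter.Eventually.of_forall fun x s hs => ?_
    exact hd s ⟨ha1.trans_le hs.1, hs.2.trans_lt hb2⟩ x

/-- Gronwall's inequality with a singular coefficient. -/
lemma gron {e d : ℝ → ℝ} {t₁ a c E : ℝ} (ht₁ : 0 ≤ t₁) (he : ContinuousOn e (Icc 0 t₁))
    (hd : ContinuousOn d (Icc 0 t₁)) (he0 : ∀ t ∈ Icc 0 t₁, 0 ≤ e t) (hd0 : ∀ t ∈ Icc 0 t₁, 0 ≤ d t)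
    (hE : 0 ≤ E) (ha : 0 ≤ a) (hc : 0 ≤ c)
    (h : ∀ t ∈ Ioo 0 t₁, ∃ e', HasDerivAt e e' t ∧ e' + d t ≤ E + (a + c * (√t)⁻¹) * e t) :
    ∫ t in (0 : ℝ)..t₁, d t ≤ Real.exp (a * t₁ + 2 * c * √t₁) * (e 0 + t₁ * E) := by
  obtain ⟨g, hg⟩ : ∃ g : ℝ → ℝ, g = fun t => a * t + 2 * c * √t := ⟨_, rfl⟩
  obtain ⟨k, hk⟩ : ∃ k, k = Real.exp (-g t₁) := ⟨_, rfl⟩
  have hk0 : 0 < k := by rw [hk]; exact Real.exp_pos _
  have hgc : Continuous g := by rw [hg]; fun_prop
  obtain ⟨Φ, hΦ⟩ : ∃ Φ : ℝ → ℝ, Φ = fun t => e t * Real.exp (-g t) - E * t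
      + k * ∫ s in (0 : ℝ)..t, d s := ⟨_, rfl⟩
  have hΦc : ContinuousOn Φ (Icc 0 t₁) := by
    rw [hΦ]
    refine (((he.mul ((Real.continuous_exp.comp hgc.neg).continuousOn)).sub
      (by fun_prop)).add (continuousOn_const.mul ?_))
    exact intervalIntegral.continuousOn_primitive_interval
      (by rw [uIcc_of_le ht₁]; exact hd.integrableOn_Icc)
      |>.mono (by rw [uIcc_of_le ht₁])
  have hΦd : ∀ t ∈ Ioo 0 t₁, ∃ d, HasDerivAt Φ d t ∧ d ≤ 0 := by
    intro t ht
    obtain ⟨e', he', hle⟩ := h t ht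
    have htI : t ∈ Icc 0 t₁ := ⟨ht.1.le, ht.2.le⟩
    have hst : 0 < √t := Real.sqrt_pos.2 ht.1
    have hg' : HasDerivAt g (a + c * (√t)⁻¹) t := by
      rw [hg]
      have h1 := ((hasDerivAt_id t).const_mul a).add
        ((Real.hasDerivAt_sqrt ht.1.ne').const_mul (2 * c))
      refine h1.congr_deriv ?_
      field_simp
    have hint : HasDerivAt (fun t => ∫ s in (0 : ℝ)..t, d s) (d t) t := by
      have hcont : ContinuousAt d t := hd.continuousAt (Icc_mem_nhds ht.1 ht.2)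
      refine intervalIntegral.integral_hasDerivAt_right ?_ ?_ hcont
      · refine ContinuousOn.intervalIntegrable ?_
        rw [uIcc_of_le ht.1.le]
        exact hd.mono (Icc_subset_Icc_right ht.2.le)
      · exact ContinuousOn.stronglyMeasurableAtFilter isOpen_Ioo
          (hd.mono Ioo_subset_Icc_self) t ht
    have hdd := ((he'.mul hg'.neg.exp).sub ((hasDerivAt_id t).const_mul E)).add
      (hint.const_mul k)
    rw [hΦ]
    refine ⟨_, hdd, ?_⟩
    have hgm : g t ≤ g t₁ := by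
      rw [hg]
      have := Real.sqrt_le_sqrt ht.2.le
      have := ht.2.le
      simp only
      gcongr
    have hg0 : 0 ≤ g t := by
      rw [hg]
      have := ht.1.le
      simp only
      positivity
    have hex : k ≤ Real.exp (-g t) := by
      rw [hk]
      apply Real.exp_le_exp.2
      linarith
    have hex1 : Real.exp (-g t) ≤ 1 := by
      rw [← Real.exp_zero]
      apply Real.exp_le_exp.2
      linarith
    have hex0 := Real.exp_pos (-g t)
    have h2 : (e' - (a + c * (√t)⁻¹) * e t) * Real.exp (-g t)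
        ≤ (E - d t) * Real.exp (-g t) :=
      mul_le_mul_of_nonneg_right (by linarith) hex0.le
    have h3 : E * Real.exp (-g t) ≤ E * 1 :=
      mul_le_mul_of_nonneg_left hex1 hE
    have h4 : k * d t ≤ Real.exp (-g t) * d t :=
      mul_le_mul_of_nonneg_right hex (hd0 t htI)
    simp only [mul_one, Pi.neg_apply]
    linarith [h2, h3, h4]
  have hanti : AntitoneOn Φ (Icc 0 t₁) := by
    refine antitoneOn_of_deriv_nonpos (convex_Icc 0 t₁) hΦc ?_ ?_
    · rw [interior_Icc]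
      intro t ht
      obtain ⟨d, hd, -⟩ := hΦd t ht
      exact hd.differentiableAt.differentiableWithinAt
    · rw [interior_Icc]
      intro t ht
      obtain ⟨d, hd, hle⟩ := hΦd t ht
      rw [hd.deriv]
      exact hle
  have hfin := hanti ⟨le_rfl, ht₁⟩ ⟨ht₁, le_rfl⟩ ht₁
  rw [hΦ] at hfin
  simp only [intervalIntegral.integral_same, mul_zero, add_zero, sub_zero] at hfin
  have hg0 : g 0 = 0 := by rw [hg]; simp
  rw [hg0, neg_zero, Real.exp_zero, mul_one] at hfin
  have h5 : 0 ≤ e t₁ * Real.exp (-g t₁) :=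
    mul_nonneg (he0 t₁ ⟨ht₁, le_rfl⟩) (Real.exp_pos _).le
  have h6 : k * ∫ s in (0 : ℝ)..t₁, d s ≤ e 0 + t₁ * E := by linarith
  have hgt : g t₁ = a * t₁ + 2 * c * √t₁ := by rw [hg]
  have h7 : Real.exp (g t₁) * k = 1 := by
    rw [hk, ← Real.exp_add, add_neg_cancel, Real.exp_zero]
  rw [← hgt]
  calc ∫ s in (0 : ℝ)..t₁, d s = Real.exp (g t₁) * (k * ∫ s in (0 : ℝ)..t₁, d s) := by
        rw [← mul_assoc, h7, one_mul]
    _ ≤ _ := mul_le_mul_of_nonneg_left h6 (Real.exp_pos _).le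

section

variable {T : ℝ} {u : ℝ → V → V} {p : ℝ → V → ℝ} {b : Fin 3 → V → ℝ} {H B t₀ : ℝ} {n : ℕ}

/-- The energy of the difference. -/
noncomputable def en3 (H : ℝ) (u : ℝ → V → V) (b : Fin 3 → V → ℝ) (n : ℕ) (t : ℝ) : ℝ :=
  ∑ i, I (fun x => (u t x i - VP H b n i t x) ^ 2)

/-- The dissipation of the difference. -/
noncomputable def di3 (H : ℝ) (u : ℝ → V → V) (b : Fin 3 → V → ℝ) (n : ℕ) (t : ℝ) : ℝ :=
  ∑ i, ∑ j, I (fun x => (pd j (fun y => u t y i) x - pd j (VP H b n i t) x) ^ 2)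

lemma di3_nonneg (t : ℝ) : 0 ≤ di3 H u b n t :=
  Finset.sum_nonneg fun _ _ => Finset.sum_nonneg fun _ _ => I_nonneg fun _ => sq_nonneg _

lemma en3_nonneg (t : ℝ) : 0 ≤ en3 H u b n t :=
  Finset.sum_nonneg fun _ _ => I_nonneg fun _ => sq_nonneg _

lemma en3_deriv (h : IsSol 1 T u p) (hb : ∀ i, SP (b i)) {t : ℝ} (ht : t ∈ Ioo 0 T) :
    HasDerivAt (en3 H u b (n + 1)) (2 * ∑ i, I (fun x => (u t x i - VP H b (n + 1) i t x) *
      (lap (fun y => u t y i) x - conv (fun i y => u t y i) i x - pd i (p t) x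
        - (lap (VP H b (n + 1) i t) x - gG H (fun i j => FP H b n i j t) i x)))) t := by
  have h1 : ∀ i, HasDerivAt (fun s => I (fun x => (u s x i - VP H b (n + 1) i s x) ^ 2))
      (2 * I (fun x => (u t x i - VP H b (n + 1) i t x) *
      (lap (fun y => u t y i) x - conv (fun i y => u t y i) i x - pd i (p t) x
        - (lap (VP H b (n + 1) i t) x - gG H (fun i j => FP H b n i j t) i x)))) t := by
    intro i
    have hV := VP_jj (H := H) hb (n + 1) i
    have hg := gG_jj (F := FP H b n) (FP_jj hb n) H i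
    have hsub : Ioo 0 T ×ˢ (univ : Set V) ⊆ Ico 0 T ×ˢ univ := prod_mono Ioo_subset_Ico_self subset_rfl
    have cu : ∀ i, ContinuousOn (fun z : ℝ × V => u z.1 z.2 i) (Ioo 0 T ×ˢ univ) := fun i =>
      (h.smooth_c i).continuousOn.mono hsub
    have cpu : ∀ i j, ContinuousOn (fun z : ℝ × V => pd j (fun y => u z.1 y i) z.2)
        (Ioo 0 T ×ˢ univ) := fun i j =>
      (contDiffOn_pd (f := fun s y => u s y i) (h.smooth_c i) j).continuousOn.mono hsub
    have clu : ∀ i, ContinuousOn (fun z : ℝ × V => lap (fun y => u z.1 y i) z.2)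
        (Ioo 0 T ×ˢ univ) := fun i => by
      unfold lap
      refine continuousOn_finsetSum _ fun j _ => ?_
      exact (contDiffOn_pd (f := fun s => pd j (fun y => u s y i))
        (contDiffOn_pd (f := fun s y => u s y i) (h.smooth_c i) j) j).continuousOn.mono hsub
    have ccu : ContinuousOn (fun z : ℝ × V => conv (fun i y => u z.1 y i) i z.2)
        (Ioo 0 T ×ˢ univ) := by
      unfold conv
      exact continuousOn_finsetSum _ fun j _ => (cu j).mul (cpu i j)
    have cp : ContinuousOn (fun z : ℝ × V => pd i (p z.1) z.2) (Ioo 0 T ×ˢ univ) :=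
      (contDiffOn_pd (f := p) h.smooth_p i).continuousOn.mono hsub
    have key := hasDerivAt_I (F := fun s x => (u s x i - VP H b (n + 1) i s x) ^ 2)
      (F' := fun s x => 2 * ((u s x i - VP H b (n + 1) i s x) *
        (lap (fun y => u s y i) x - conv (fun i y => u s y i) i x - pd i (p s) x
        - (lap (VP H b (n + 1) i s) x - gG H (fun i j => FP H b n i j s) i x)))) ht
      (((cu i).sub hV.c.continuousOn).pow 2)
      (continuousOn_const.mul (((cu i).sub hV.c.continuousOn).mul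
        ((((clu i).sub ccu).sub cp).sub (hV.lap.c.continuousOn.sub hg.c.continuousOn))))
      (fun s hs x => by
        have h2 : HasDerivAt (fun s => u s x i) (dt (fun s y => u s y i) s x) s := by
          have := hasDerivAt_slice (F := fun s y => u s y i)
            (mono_Ioo (f := fun s y => u s y i) (h.smooth_c i) (by norm_cast)) hs x
          rwa [← H459R3.NS.dt_eq (f := fun s y => u s y i) (h.smooth_c i) hs x] at this
        have h3 := (h2.sub (VP_t (H := H) hb n i hs.1 x)).pow 2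
        refine h3.congr_deriv ?_
        rw [h.dt_eq hs]
        push_cast
        simp only [Pi.sub_apply]
        ring)
    refine key.congr_deriv ?_
    exact I_cmul _ _
  have h2 := HasDerivAt.fun_sum fun i (_ : i ∈ (Finset.univ : Finset (Fin 3))) => h1 i
  unfold en3
  refine h2.congr_deriv ?_
  rw [Finset.mul_sum]

lemma en3_cont (h : IsSol 1 T u p) (hb : ∀ i, SP (b i)) : ContinuousOn (en3 H u b n) (Ico 0 T) := by
  unfold en3
  refine continuousOn_finsetSum _ fun i _ => ?_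
  exact continuousOn_int (F := fun s x => (u s x i - VP H b n i s x) ^ 2)
    (((h.smooth_c i).continuousOn.sub (VP_jj hb n i).c.continuousOn).pow 2)

lemma di3_cont (h : IsSol 1 T u p) (hb : ∀ i, SP (b i)) : ContinuousOn (di3 H u b n) (Ico 0 T) := by
  unfold di3
  refine continuousOn_finsetSum _ fun i _ => continuousOn_finsetSum _ fun j _ => ?_
  exact continuousOn_int (F := fun s x => (pd j (fun y => u s y i) x - pd j (VP H b n i s) x) ^ 2)
    (((contDiffOn_pd (f := fun s y => u s y i) (h.smooth_c i) j).continuousOn.sub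
      ((VP_jj hb n i).pd j).c.continuousOn).pow 2)

/-- The differential inequality. -/
lemma en3_ineq (h : IsSol 1 T u p) (hb : ∀ i, SP (b i)) (hB : ∀ i x, |b i x| ≤ B) (hH : 1 ≤ H)
    (hs : 640 * B * √t₀ ≤ 1) (htH : t₀ ≤ H) {t : ℝ} (ht : t ∈ Ioo 0 T) (ht₀ : t ≤ t₀) {Bp : ℝ}
    (hBp : ∀ x, |p t x| ≤ Bp) : ∃ e', HasDerivAt (en3 H u b (n + 1)) e' t ∧
      e' + di3 H u b (n + 1) t ≤ (11520 * B ^ 4 / 4 ^ n + KK B Bp t₀ / √H)
        + (1824 * B ^ 2 + 72 * B * (√t)⁻¹) * en3 H u b (n + 1) t := by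
  have hB0 : 0 ≤ B := (abs_nonneg _).trans (hB 0 0)
  have hI : t ∈ Ico 0 T := ⟨ht.1.le, ht.2⟩
  have htI : t ∈ Icc 0 t₀ := ⟨ht.1.le, ht₀⟩
  have hH0 : 0 ≤ H := by linarith
  refine ⟨_, en3_deriv h hb ht, ?_⟩
  have hd0 := d0_sp hb
  have hFs : ∀ i j, SP (FP H b n i j t) := fun i j => (FP_jj hb n i j).sp t
  have hhs := hh_sp hd0 ht.1 (ht₀.trans htH)
  have hVs : ∀ i, SP (VP H b (n + 1) i t) := fun i => (VP_jj hb (n + 1) i).sp t
  have hzs : SP (fun x => P H (d0 b) x - er H b n t x) := sp_sub (P_sp' hd0 H) (er_sp hb n t)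
  have key := slice3 (u := fun i y => u t y i) (Vf := fun i => VP H b (n + 1) i t)
    (F := fun i j => FP H b n i j t) (p := p t) (q := hh 0 H (dd2 fun i j => FP H b n i j t))
    (h := hh t H (d0 b)) (z := fun x => P H (d0 b) x - er H b n t x)
    (r := P H (dd2 fun i j => FP H b n i j t)) (w := fun i x => u t x i - VP H b (n + 1) i t x)
    (Λ := 12 * B ^ 2) (M := 12 * B * (√t)⁻¹)
    (fun i => h.sp hI i) hVs hFs (h.sp_p hI) (hh0_sp (dd2_sp hFs) H) hhs hzs
    (P_sp' (dd2_sp hFs) H) (h.divfree t hI)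
    (fun k hk => press_eq h ht hk)
    (fun x => by
      rw [VP_div hb hH0, lap_hh hd0 ht.1 (ht₀.trans htH)]
      ring)
    (fun x => lap_hh0 (dd2_sp hFs) hH0 x)
    (fun x => by
      have : ∀ i, VP H b (n + 1) i t x ^ 2 ≤ (2 * B) ^ 2 := fun i => by
        rw [← sq_abs]
        exact pow_le_pow_left₀ (abs_nonneg _) (VP_bd hb hB hH0 hs (n + 1) t htI i x) 2
      refine (Finset.sum_le_sum fun i _ => this i).trans (le_of_eq ?_)
      simp
      ring)
    (fun i j x => hess_bd hb hB ht.1 (ht₀.trans htH) i j x) (fun i => rfl)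
  have e1 : ∀ i j, (fun x => pd j (fun x => u t x i - VP H b (n + 1) i t x) x ^ 2)
      = fun x => (pd j (fun y => u t y i) x - pd j (VP H b (n + 1) i t) x) ^ 2 := by
    intro i j
    funext x
    rw [pd_sub (h.sp hI i) (hVs i)]
  have e2 : ∑ i, ∑ j, I (fun x => pd j (fun x => u t x i - VP H b (n + 1) i t x) x ^ 2)
      = di3 H u b (n + 1) t := by
    unfold di3
    exact Finset.sum_congr rfl fun i _ => Finset.sum_congr rfl fun j _ => by rw [e1]
  rw [e2] at key
  have e3 : I (fun x => ∑ i, ∑ j, (VP H b (n + 1) i t x * VP H b (n + 1) j t x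
      - FP H b n i j t x) ^ 2) ≤ 144 * B ^ 4 / 4 ^ n := by
    refine I_le_of_le (SP.sum fun i _ => SP.sum fun j _ =>
      sp_sq (sp_sub ((hVs i).mul (hVs j)) (hFs i j))) fun x => ?_
    have : ∀ i j, (VP H b (n + 1) i t x * VP H b (n + 1) j t x - FP H b n i j t x) ^ 2
        ≤ (4 * B ^ 2 / 2 ^ n) ^ 2 := fun i j => by
      rw [← sq_abs]
      exact pow_le_pow_left₀ (abs_nonneg _) (FP_err hb hB hH0 hs n htI i j x) 2
    refine (Finset.sum_le_sum fun i _ => Finset.sum_le_sum fun j _ => this i j).trans (le_of_eq ?_)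
    simp only [Finset.sum_const, Finset.card_univ, Fintype.card_fin, nsmul_eq_mul]
    rw [div_pow, ← pow_mul, mul_comm n 2, pow_mul]
    push_cast
    norm_num
    ring
  have e4 := err_bd hb hB hH hs n ⟨ht.1, ht₀⟩ htH (h.sp_p hI) hBp
    (z := fun x => P H (d0 b) x - er H b n t x) rfl
  have e5 : (152 * (12 * B ^ 2) + 6 * (12 * B * (√t)⁻¹))
      = 1824 * B ^ 2 + 72 * B * (√t)⁻¹ := by ring
  rw [e5] at key
  have e6 : 80 * (144 * B ^ 4 / 4 ^ n) = 11520 * B ^ 4 / 4 ^ n := by ring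
  refine key.trans ?_
  unfold en3
  linarith

/-- The dissipation of the difference. -/
theorem dissip3 (h : IsSol 1 T u p) (hb : ∀ i, SP (b i)) (hB : ∀ i x, |b i x| ≤ B) (hH : 1 ≤ H)
    (hs : 640 * B * √t₀ ≤ 1) (htH : t₀ ≤ H) {t₁ : ℝ} (ht₁ : t₁ ∈ Ioo 0 T) (ht₀ : t₁ ≤ t₀) {Bp : ℝ}
    (hBp : ∀ t ∈ Icc 0 t₁, ∀ x, |p t x| ≤ Bp) :
    ∫ t in (0 : ℝ)..t₁, di3 H u b (n + 1) t
      ≤ Real.exp (1824 * B ^ 2 * t₁ + 2 * (72 * B) * √t₁) * (en3 H u b (n + 1) 0
        + t₁ * (11520 * B ^ 4 / 4 ^ n + KK B Bp t₀ / √H)) := by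
  have hB0 : 0 ≤ B := (abs_nonneg _).trans (hB 0 0)
  have hBp0 : 0 ≤ Bp := (abs_nonneg _).trans (hBp 0 ⟨le_rfl, ht₁.1.le⟩ 0)
  have ht00 : 0 ≤ t₀ := ht₁.1.le.trans ht₀
  have hsub : Icc 0 t₁ ⊆ Ico 0 T := fun s hs => ⟨hs.1, hs.2.trans_lt ht₁.2⟩
  have hK : 0 ≤ KK B Bp t₀ := by unfold KK; positivity
  refine gron ht₁.1.le ((en3_cont h hb).mono hsub) ((di3_cont h hb).mono hsub)
    (fun t _ => en3_nonneg t) (fun t _ => di3_nonneg t) (by positivity) (by positivity)
    (by positivity) fun t ht => ?_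
  exact en3_ineq h hb hB hH hs htH ⟨ht.1, ht.2.trans ht₁.2⟩ (ht.2.le.trans ht₀)
    (hBp t ⟨ht.1.le, ht.2.le⟩)

end

end Run7.h219.SL
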