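import Pool.Agent.Run7.h219.SL.Main4
import Pool.Agent.W221.NS.Fin

/-!
The fast part of one time slice counts the singular points: general viscosity, consequences.
-/

set_option autoImplicit false

open MeasureTheory Set Filter Topology
open scoped ContDiff NNReal ENNReal

namespace Run7.h219.SL

open H459R3.NS W221.NS

/-- The fast fluid: the points of the period cell with speed greater than `l`. -/
def fast (l : ℝ) (v : V → V) : Set V := {x ∈ cube | l < √(nsq v x)}

/-- The weak `L^q` norm of `v` over the period cell is at most `M`. -/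
def Weak (q M : ℝ) (v : V → V) : Prop :=
  ∀ l : ℝ, 0 < l → volume (fast l v) ≤ ENNReal.ofReal ((M / l) ^ q)

lemma nsq_cont {v : V → V} (hv : Continuous v) : Continuous (nsq v) := by
  unfold nsq
  fun_prop

lemma fast_meas {v : V → V} (hv : Continuous v) (l : ℝ) : MeasurableSet (fast l v) := by
  have h1 : MeasurableSet {x : V | l < √(nsq v x)} :=
    (isOpen_lt continuous_const (nsq_cont hv).sqrt).measurableSet
  exact measurableSet_Icc.inter h1

lemma energy_scale (a : ℝ) (v : V → V) : energy (fun x => a • v x) = a ^ 2 * energy v := by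
  unfold energy
  rw [Finset.mul_sum]
  refine Finset.sum_congr rfl fun i _ => ?_
  rw [← integral_const_mul]
  congr 1
  funext x
  simp only [Pi.smul_apply, smul_eq_mul]
  ring

/-- General viscosity. -/
theorem mainν : ∃ C c : ℝ, 0 < C ∧ 0 < c ∧ ∀ (ν T : ℝ) (u : ℝ → V → V) (p : ℝ → V → ℝ), 0 < ν →
    0 < T → IsSol ν T u p → ∀ r : ℝ, 0 < r → r ^ 2 ≤ ν * T →
      C * (1 + energy (u (T - r ^ 2 / ν)) / ν ^ 2) * r ≤ 1 →
      ∀ S : Finset V, (∀ x ∈ S, x ∈ cube ∧ Sing T u x) → (∀ x ∈ S, ∀ y ∈ S, x ≠ y → r ≤ ‖x - y‖) →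
        S.card * (ν ^ 2 * r) ≤ C * ∫ x in fast (c * ν / r) (u (T - r ^ 2 / ν)),
          nsq (u (T - r ^ 2 / ν)) x := by
  obtain ⟨C, c, hC, hc, H⟩ := main4
  refine ⟨C, c, hC, hc, fun ν T u p hν hT hu => ?_⟩
  have hT' : 0 < ν * T := mul_pos hν hT
  have H1 := H (ν * T) _ _ hT' (B.p_scale ν T u p hν hT hu)
  intro r hr hrT hrC S hS hsep
  have et : (ν * T - r ^ 2) / ν = T - r ^ 2 / ν := by field_simp
  obtain ⟨v, hv⟩ : ∃ v, v = u (T - r ^ 2 / ν) := ⟨_, rfl⟩
  have e1 : (fun x => ν⁻¹ • u ((ν * T - r ^ 2) / ν) x) = fun x => ν⁻¹ • v x := by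
    rw [et, hv]
  have key := H1 r hr hrT (by
      rw [e1, energy_scale, hv, inv_pow, inv_mul_eq_div]
      exact hrC) S
    (fun x hx => ⟨(hS x hx).1, sing_scale hν (hS x hx).2⟩) hsep
  have e2 : ∀ x, nsq (fun x => ν⁻¹ • v x) x = (ν ^ 2)⁻¹ * nsq v x := by
    intro x
    unfold nsq
    rw [Finset.mul_sum]
    refine Finset.sum_congr rfl fun i _ => ?_
    simp only [Pi.smul_apply, smul_eq_mul]
    rw [mul_pow, inv_pow]
  have e3 : cube ∩ {x | c ^ 2 < r ^ 2 * nsq (fun x => ν⁻¹ • v x) x} = fast (c * ν / r) v := by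
    ext x
    unfold fast
    simp only [mem_inter_iff, mem_setOf_eq]
    refine and_congr_right fun _ => ?_
    rw [e2, Real.lt_sqrt (by positivity), div_pow, div_lt_iff₀ (by positivity)]
    constructor
    · intro h
      have : (c * ν) ^ 2 = c ^ 2 * ν ^ 2 := by ring
      rw [this]
      calc c ^ 2 * ν ^ 2 < r ^ 2 * ((ν ^ 2)⁻¹ * nsq v x) * ν ^ 2 := by gcongr
        _ = nsq v x * r ^ 2 := by field_simp
    · intro h
      have : r ^ 2 * ((ν ^ 2)⁻¹ * nsq v x) = (nsq v x * r ^ 2) / ν ^ 2 := by field_simp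
      rw [this, lt_div_iff₀ (by positivity)]
      linarith [mul_pow c ν 2]
  unfold Fs at key
  rw [e1, e3] at key
  simp_rw [e2] at key
  rw [integral_const_mul] at key
  rw [← hv]
  have hν2 : 0 < ν ^ 2 := by positivity
  calc (S.card : ℝ) * (ν ^ 2 * r) = ν ^ 2 * (S.card * r) := by ring
    _ ≤ ν ^ 2 * (C * ((ν ^ 2)⁻¹ * ∫ x in fast (c * ν / r) v, nsq v x)) :=
        mul_le_mul_of_nonneg_left key hν2.le
    _ = _ := by field_simp

/-- The energy of the fast fluid and the weak norm. -/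
lemma weak_fast {q M l : ℝ} (hq : 2 < q) (hM : 0 ≤ M) (hl : 0 < l) {v : V → V} (hv : Continuous v)
    (hw : Weak q M v) : ∫ x in fast l v, nsq v x ≤ q / (q - 2) * (M ^ q * l ^ (2 - q)) := by
  have hq2 : 0 < q - 2 := by linarith
  have hm := fast_meas hv l
  obtain ⟨s, hs⟩ : ∃ s : V → ℝ, s = fun x => √(nsq v x) := ⟨_, rfl⟩
  have hsc : Continuous s := by rw [hs]; exact (nsq_cont hv).sqrt
  have hs0 : ∀ x, 0 ≤ s x := fun x => by rw [hs]; exact Real.sqrt_nonneg _
  have hs2 : ∀ x, s x ^ (2 : ℝ) = nsq v x := fun x => by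
    rw [hs]
    rw [Real.rpow_two]
    exact Real.sq_sqrt (nsq_nn v x)
  obtain ⟨μ, hμ⟩ : ∃ μ : Measure V, μ = volume.restrict (fast l v) := ⟨_, rfl⟩
  have hlay := lintegral_rpow_eq_lintegral_meas_lt_mul μ (f := s) (ae_of_all _ hs0)
    hsc.measurable.aemeasurable (p := 2) two_pos
  simp_rw [hs2] at hlay
  have hMl : ∀ t : ℝ, 0 < t → (M / t) ^ q = M ^ q * t ^ (-q) := by
    intro t ht
    rw [Real.div_rpow hM ht.le, Real.rpow_neg ht.le]
    rfl
  -- the two parts
  have p1 : ∀ t ∈ Ioc 0 l, μ {a | t < s a} * ENNReal.ofReal (t ^ ((2 : ℝ) - 1))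
      ≤ ENNReal.ofReal (M ^ q * l ^ (-q) * t) := by
    intro t ht
    have h1 : μ {a | t < s a} ≤ ENNReal.ofReal (M ^ q * l ^ (-q)) := by
      rw [← hMl l hl]
      refine le_trans ?_ (hw l hl)
      rw [hμ]
      refine (measure_mono (subset_univ _)).trans ?_
      rw [Measure.restrict_apply_univ]
    have h2 : t ^ ((2 : ℝ) - 1) = t := by norm_num
    rw [h2, ENNReal.ofReal_mul (by positivity)]
    gcongr
  have p2 : ∀ t ∈ Ioi l, μ {a | t < s a} * ENNReal.ofReal (t ^ ((2 : ℝ) - 1))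
      ≤ ENNReal.ofReal (M ^ q * t ^ (1 - q)) := by
    intro t ht
    have ht0 : 0 < t := hl.trans ht
    have h1 : μ {a | t < s a} ≤ ENNReal.ofReal (M ^ q * t ^ (-q)) := by
      rw [← hMl t ht0]
      refine le_trans ?_ (hw t ht0)
      have hO : MeasurableSet {a | t < s a} := (isOpen_lt continuous_const hsc).measurableSet
      rw [hμ, Measure.restrict_apply hO]
      refine measure_mono fun x hx => ?_
      have h3 : t < s x := hx.1
      rw [hs] at h3
      exact ⟨hx.2.1, h3⟩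
    have h2 : t ^ ((2 : ℝ) - 1) = t := by norm_num
    rw [h2]
    calc μ {a | t < s a} * ENNReal.ofReal t ≤ ENNReal.ofReal (M ^ q * t ^ (-q)) * ENNReal.ofReal t := by
          gcongr
      _ = ENNReal.ofReal (M ^ q * t ^ (1 - q)) := by
          rw [← ENNReal.ofReal_mul (by positivity)]
          congr 1
          rw [mul_assoc]
          congr 1
          rw [sub_eq_add_neg, add_comm, Real.rpow_add ht0, Real.rpow_one]
  have i1 : ∫⁻ t in Ioc 0 l, ENNReal.ofReal (M ^ q * l ^ (-q) * t)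
      = ENNReal.ofReal (M ^ q * l ^ (2 - q) / 2) := by
    have hint : IntegrableOn (fun t : ℝ => M ^ q * l ^ (-q) * t) (Ioc 0 l) :=
      (by fun_prop : Continuous fun t : ℝ => M ^ q * l ^ (-q) * t).continuousOn.integrableOn_Icc.mono_set
        Ioc_subset_Icc_self
    rw [← ofReal_integral_eq_lintegral_ofReal hint ((ae_restrict_iff' measurableSet_Ioc).2
      (ae_of_all _ fun t ht => by have := ht.1.le; show 0 ≤ M ^ q * l ^ (-q) * t; positivity))]
    congr 1
    rw [← intervalIntegral.integral_of_le hl.le, intervalIntegral.integral_const_mul, integral_id]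
    have : l ^ (2 - q) = l ^ (-q) * l ^ 2 := by
      rw [sub_eq_add_neg, add_comm, Real.rpow_add hl, Real.rpow_two]
    rw [this]
    ring
  have i2 : ∫⁻ t in Ioi l, ENNReal.ofReal (M ^ q * t ^ (1 - q))
      = ENNReal.ofReal (M ^ q * (l ^ (2 - q) / (q - 2))) := by
    have hint : IntegrableOn (fun t : ℝ => M ^ q * t ^ (1 - q)) (Ioi l) :=
      (integrableOn_Ioi_rpow_of_lt (by linarith) hl).const_mul _
    rw [← ofReal_integral_eq_lintegral_ofReal hint ((ae_restrict_iff' measurableSet_Ioi).2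
      (ae_of_all _ fun t ht => by
        have : 0 < t := hl.trans ht
        show 0 ≤ M ^ q * t ^ (1 - q)
        positivity))]
    congr 1
    rw [integral_const_mul, integral_Ioi_rpow_of_lt (by linarith) hl]
    congr 1
    have e1 : 1 - q + 1 = 2 - q := by ring
    rw [e1]
    rw [neg_div, ← div_neg]
    congr 1
    ring
  have hsplit : ∫⁻ t in Ioi (0 : ℝ), μ {a | t < s a} * ENNReal.ofReal (t ^ ((2 : ℝ) - 1))
      ≤ ENNReal.ofReal (M ^ q * l ^ (2 - q) / 2) + ENNReal.ofReal (M ^ q * (l ^ (2 - q) / (q - 2))) := by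
    rw [← Ioc_union_Ioi_eq_Ioi hl.le]
    refine (lintegral_union_le _ _ _).trans (add_le_add ?_ ?_)
    · rw [← i1]
      exact setLIntegral_mono' measurableSet_Ioc p1
    · rw [← i2]
      exact setLIntegral_mono' measurableSet_Ioi p2
  have hfin : ∫⁻ x, ENNReal.ofReal (nsq v x) ∂μ ≤ ENNReal.ofReal (q / (q - 2) * (M ^ q * l ^ (2 - q))) := by
    rw [hlay]
    refine (mul_le_mul_right hsplit _).trans (le_of_eq ?_)
    rw [← ENNReal.ofReal_add (by positivity) (by positivity), ← ENNReal.ofReal_mul two_pos.le]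
    congr 1
    field_simp
    ring
  have hint : IntegrableOn (nsq v) (fast l v) :=
    (integrableOn_cube (nsq_cont hv)).mono_set fun x hx => hx.1
  rw [hμ, ← ofReal_integral_eq_lintegral_ofReal hint (ae_of_all _ fun x => nsq_nn v x),
    ENNReal.ofReal_le_ofReal_iff (by positivity)] at hfin
  exact hfin

end Run7.h219.SL
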