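import Mathlib
import Pool.Agent.H459R3.NS.Defs

/-!
The standard Gaussian measure of `ℝ³`: moments, Stein's identity, sums of independent variables.
-/

set_option autoImplicit false

open MeasureTheory Set Filter Topology ProbabilityTheory

namespace Run7.h219.SL

open H459R3.NS

/-- The standard Gaussian measure of the line. -/
noncomputable abbrev g1 : Measure ℝ := gaussianReal 0 1

/-- The standard Gaussian measure of the space. -/
noncomputable def G : Measure V := Measure.pi (fun _ : Fin 3 => g1)

instance : IsProbabilityMeasure G := by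
  unfold G
  infer_instance

/-- The density. -/
noncomputable def ph1 (s : ℝ) : ℝ := gaussianPDFReal 0 1 s

lemma ph1_eq (s : ℝ) : ph1 s = (√(2 * Real.pi))⁻¹ * Real.exp (-(s ^ 2 / 2)) := by
  unfold ph1 gaussianPDFReal
  simp only [NNReal.coe_one, mul_one, sub_zero]
  congr 2
  ring

lemma ph1_deriv (s : ℝ) : HasDerivAt ph1 (-(s * ph1 s)) s := by
  have e : ph1 = fun s => (√(2 * Real.pi))⁻¹ * Real.exp (-(s ^ 2 / 2)) := funext ph1_eq
  rw [e]
  have h1 : HasDerivAt (fun s : ℝ => -(s ^ 2 / 2)) (-s) s := by
    have := ((hasDerivAt_pow 2 s).div_const 2).neg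
    refine this.congr_deriv ?_
    push_cast
    ring
  refine (h1.exp.const_mul _).congr_deriv ?_
  ring

lemma int_sq_g1 : ∫ s, s ^ 2 ∂g1 = 1 := by
  have h := variance_fun_id_gaussianReal (μ := 0) (v := 1)
  rw [variance_eq_integral measurable_id'.aemeasurable, integral_id_gaussianReal] at h
  simpa using h

lemma ig_sq : Integrable (fun s : ℝ => s ^ 2) g1 := by
  have h := (memLp_id_gaussianReal (μ := 0) (v := 1) 2).integrable_sq
  simpa using h

lemma ig_id : Integrable (fun s : ℝ => s) g1 := by
  have h := (memLp_id_gaussianReal (μ := 0) (v := 1) 1)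
  simp only [ENNReal.coe_one] at h
  exact memLp_one_iff_integrable.1 h

lemma ig_abs : ∫ s, |s| ∂g1 ≤ 1 := by
  have h : ∫ s, |s| ∂g1 ≤ ∫ s, (1 + s ^ 2) / 2 ∂g1 := by
    refine integral_mono ig_id.abs (((integrable_const 1).add ig_sq).div_const 2) fun s => ?_
    have := sq_nonneg (|s| - 1)
    have h2 := sq_abs s
    show |s| ≤ (1 + s ^ 2) / 2
    nlinarith
  rw [integral_div, integral_add (integrable_const 1) ig_sq, int_sq_g1] at h
  simpa using h

/-- Functions integrable with respect to the Gaussian measure. -/
lemma ph1_int {f : ℝ → ℝ} (hf : Integrable f g1) : Integrable (fun s => ph1 s * f s) := by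
  have h := integral_gaussianReal_eq_integral_smul (μ := 0) (v := 1) (f := f) one_ne_zero
  have h2 : Integrable f ((volume : Measure ℝ).withDensity (gaussianPDF 0 1)) := by
    have e : g1 = (volume : Measure ℝ).withDensity (gaussianPDF 0 1) :=
      gaussianReal_of_var_ne_zero _ one_ne_zero
    rwa [← e]
  rw [integrable_withDensity_iff_integrable_smul' (measurable_gaussianPDF _ _)
    (ae_of_all _ fun _ => gaussianPDF_lt_top)] at h2
  refine h2.congr (ae_of_all _ fun s => ?_)
  simp only [smul_eq_mul, ph1, gaussianPDF]
  rw [ENNReal.toReal_ofReal (gaussianPDFReal_nonneg _ _ _)]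

lemma g1_eq (f : ℝ → ℝ) : ∫ s, f s ∂g1 = ∫ s, ph1 s * f s := by
  rw [integral_gaussianReal_eq_integral_smul one_ne_zero]
  rfl

/-- Stein's identity on the line. -/
lemma stein1 {g g' : ℝ → ℝ} (hg : ∀ s, HasDerivAt g (g' s) s) (hc : Continuous g') {B : ℝ}
    (hB : ∀ s, |g s| ≤ B) (hB' : ∀ s, |g' s| ≤ B) : ∫ s, s * g s ∂g1 = ∫ s, g' s ∂g1 := by
  have hgc : Continuous g := continuous_iff_continuousAt.2 fun s => (hg s).continuousAt
  have i1 : Integrable g g1 := Integrable.of_bound hgc.aestronglyMeasurable B
    (ae_of_all _ fun s => by rw [Real.norm_eq_abs]; exact hB s)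
  have i2 : Integrable g' g1 := Integrable.of_bound hc.aestronglyMeasurable B
    (ae_of_all _ fun s => by rw [Real.norm_eq_abs]; exact hB' s)
  have i3 : Integrable (fun s => s * g s) g1 := by
    refine (ig_id.abs.mul_const B).mono' (continuous_id.mul hgc).aestronglyMeasurable
      (ae_of_all _ fun s => ?_)
    rw [Real.norm_eq_abs, abs_mul]
    exact mul_le_mul_of_nonneg_left (hB s) (abs_nonneg s)
  rw [g1_eq, g1_eq]
  have h := integral_mul_deriv_eq_deriv_mul_of_integrable (u := ph1) (v := g)
    (u' := fun s => -(s * ph1 s)) (v' := g') (fun x _ => ph1_deriv x) (fun x _ => hg x)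
    (ph1_int i2) (by
      have := (ph1_int i3).neg
      refine this.congr (ae_of_all _ fun s => ?_)
      simp only [Pi.neg_apply, Pi.mul_apply]
      ring) (ph1_int i1)
  rw [h, ← integral_neg]
  congr 1
  funext s
  ring

/-- Independent copy of one coordinate. -/
lemma upd_map (j : Fin 3) : Measure.map (fun q : V × ℝ => Function.update q.1 j q.2) (G.prod g1) = G := by
  unfold G
  refine (Measure.pi_eq fun s hs => ?_).symm
  have hm : Measurable (fun q : V × ℝ => Function.update q.1 j q.2) := by
    refine measurable_pi_iff.2 fun i => ?_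
    by_cases h : i = j
    · subst h
      simp only [Function.update_self]
      exact measurable_snd
    · simp only [Function.update_of_ne h]
      exact (measurable_pi_apply i).comp measurable_fst
  rw [Measure.map_apply hm (MeasurableSet.univ_pi hs)]
  have e : (fun q : V × ℝ => Function.update q.1 j q.2) ⁻¹' (univ.pi s)
      = (univ.pi (Function.update s j univ)) ×ˢ (s j) := by
    ext q
    simp only [mem_preimage, Set.mem_pi, mem_univ, true_imp_iff, mem_prod]
    constructor
    · intro h
      refine ⟨fun i => ?_, ?_⟩
      · by_cases hi : i = j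
        · subst hi
          rw [Function.update_self]
          trivial
        · have := h i
          rw [Function.update_of_ne hi] at this
          rw [Function.update_of_ne hi]
          exact this
      · have := h j
        rwa [Function.update_self] at this
    · rintro ⟨h1, h2⟩ i
      by_cases hi : i = j
      · subst hi
        rw [Function.update_self]
        exact h2
      · have := h1 i
        rw [Function.update_of_ne hi] at this
        rw [Function.update_of_ne hi]
        exact this
  rw [e, Measure.prod_prod, Measure.pi_pi]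
  rw [← Finset.prod_erase_mul Finset.univ (fun i => g1 (s i)) (Finset.mem_univ j),
    ← Finset.prod_erase_mul Finset.univ (fun i => g1 (Function.update s j univ i)) (Finset.mem_univ j)]
  rw [Function.update_self, measure_univ, mul_one]
  congr 1
  refine Finset.prod_congr rfl fun i hi => ?_
  rw [Function.update_of_ne (Finset.ne_of_mem_erase hi)]

lemma upd_meas (j : Fin 3) : Measurable (fun q : V × ℝ => Function.update q.1 j q.2) := by
  refine measurable_pi_iff.2 fun i => ?_
  by_cases h : i = j
  · subst h
    simp only [Function.update_self]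
    exact measurable_snd
  · simp only [Function.update_of_ne h]
    exact (measurable_pi_apply i).comp measurable_fst

lemma upd_int (j : Fin 3) {F : V → ℝ} (hF : Integrable F G) :
    ∫ z, F z ∂G = ∫ z, ∫ s, F (Function.update z j s) ∂g1 ∂G := by
  have h1 : ∫ z, F z ∂G = ∫ q, F (Function.update q.1 j q.2) ∂(G.prod g1) := by
    conv_lhs => rw [← upd_map j]
    rw [integral_map (upd_meas j).aemeasurable]
    rw [upd_map j]
    exact hF.aestronglyMeasurable
  have h2 : Integrable (fun q : V × ℝ => F (Function.update q.1 j q.2)) (G.prod g1) := by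
    have := (integrable_map_measure (μ := G.prod g1) (f := fun q : V × ℝ => Function.update q.1 j q.2)
      (g := F) (by rw [upd_map j]; exact hF.aestronglyMeasurable) (upd_meas j).aemeasurable).1
      (by rw [upd_map j]; exact hF)
    exact this
  rw [h1, integral_prod _ h2]

lemma coord_map (j : Fin 3) : MeasurePreserving (fun z : V => z j) G g1 := by
  unfold G
  exact measurePreserving_eval _ j

lemma iG_coord (j : Fin 3) : Integrable (fun z : V => z j) G :=
  (coord_map j).integrable_comp_of_integrable (g := fun s => s) ig_id

lemma iG_abs (j : Fin 3) : ∫ z : V, |z j| ∂G ≤ 1 := by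
  have h := (coord_map j).map_eq
  have h2 : ∫ s, |s| ∂(Measure.map (fun z : V => z j) G) = ∫ z, |z j| ∂G := by
    refine integral_map (measurable_pi_apply j).aemeasurable ?_
    exact continuous_abs.aestronglyMeasurable
  rw [← h2, h]
  exact ig_abs

lemma iG_norm : Integrable (fun z : V => ‖z‖) G := by
  refine ((integrable_finsetSum Finset.univ fun j _ => (iG_coord j).abs)).mono'
    continuous_norm.aestronglyMeasurable (ae_of_all _ fun z => ?_)
  rw [norm_norm, pi_norm_le_iff_of_nonneg (Finset.sum_nonneg fun i _ => abs_nonneg _)]
  intro i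
  rw [Real.norm_eq_abs]
  exact Finset.single_le_sum (f := fun i => |z i|) (fun i _ => abs_nonneg _) (Finset.mem_univ i)

/-- Stein's identity. -/
lemma stein {F : V → ℝ} (hF : ContDiff ℝ 1 F) {B : ℝ} (hB : ∀ z, |F z| ≤ B) (j : Fin 3)
    (hB' : ∀ z, |pd j F z| ≤ B) : ∫ z, z j * F z ∂G = ∫ z, pd j F z ∂G := by
  have hpc : Continuous (pd j F) := (hF.continuous_fderiv one_ne_zero).clm_apply continuous_const
  have i1 : Integrable (fun z => z j * F z) G := by
    refine ((iG_coord j).abs.mul_const B).mono'
      (((continuous_apply j).mul hF.continuous).aestronglyMeasurable) (ae_of_all _ fun z => ?_)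
    rw [Real.norm_eq_abs, abs_mul]
    exact mul_le_mul_of_nonneg_left (hB z) (abs_nonneg _)
  have i2 : Integrable (pd j F) G := Integrable.of_bound hpc.aestronglyMeasurable B
    (ae_of_all _ fun z => by rw [Real.norm_eq_abs]; exact hB' z)
  rw [upd_int j i1, upd_int j i2]
  congr 1
  funext z
  simp only [Function.update_self]
  refine stein1 (g := fun s => F (Function.update z j s)) (fun s => ?_) ?_ (fun s => hB _)
    (fun s => hB' _)
  · have h1 : HasDerivAt (fun s : ℝ => Function.update z j s) (Pi.single j 1) s := by
      rw [hasDerivAt_pi]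
      intro i
      by_cases hi : i = j
      · subst hi
        simp only [Function.update_self, Pi.single_eq_same]
        exact hasDerivAt_id s
      · simp only [Function.update_of_ne hi, Pi.single_eq_of_ne hi]
        exact hasDerivAt_const s (z i)
    exact ((hF.differentiable one_ne_zero _).hasFDerivAt).comp_hasDerivAt s h1
  · exact hpc.comp (continuous_const.update j continuous_id)

end Run7.h219.SL
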