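import Pool.Agent.Run7.h219.SL.Gauss
import Pool.Agent.Q67.VD.Basic
import Pool.Agent.H459R3.NS.Ibp

/-!
The heat semigroup on smooth periodic functions.
-/

set_option autoImplicit false

open MeasureTheory Set Filter Topology ProbabilityTheory
open scoped ContDiff

namespace Run7.h219.SL

open H459R3.NS

/-- The heat semigroup. -/
noncomputable def P (σ : ℝ) (f : V → ℝ) (x : V) : ℝ := ∫ z, f (x + √(2 * σ) • z) ∂G

section

variable {f : V → ℝ}

lemma spb (hf : SP f) : ∃ B : ℝ, 0 ≤ B ∧ ∀ x, |f x| ≤ B := Pool.Agent.Q67.VD.per_bdd hf.per hf.cont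

lemma P_int (hf : SP f) (σ : ℝ) (x : V) : Integrable (fun z => f (x + √(2 * σ) • z)) G := by
  obtain ⟨B, -, hB⟩ := spb hf
  exact Integrable.of_bound (hf.cont.comp (by fun_prop)).aestronglyMeasurable B
    (ae_of_all _ fun z => by rw [Real.norm_eq_abs]; exact hB _)

lemma P_abs (σ : ℝ) (x : V) {B : ℝ} (hB : ∀ x, |f x| ≤ B) : |P σ f x| ≤ B := by
  unfold P
  have h := norm_integral_le_of_norm_le_const (μ := G) (f := fun z => f (x + √(2 * σ) • z)) (C := B)
    (ae_of_all _ fun z => by rw [Real.norm_eq_abs]; exact hB _)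
  simpa using h

lemma P_zero (x : V) : P 0 f x = f x := by
  unfold P
  simp

lemma P_per (hf : SP f) (σ : ℝ) : Per (P σ f) := by
  intro i x
  unfold P
  congr 1
  funext z
  rw [← hf.per i (x + √(2 * σ) • z)]
  congr 1
  abel

lemma P_add {g : V → ℝ} (hf : SP f) (hg : SP g) (σ : ℝ) (x : V) :
    P σ (fun y => f y + g y) x = P σ f x + P σ g x := by
  unfold P
  exact integral_add (P_int hf σ x) (P_int hg σ x)

lemma P_sum {ι : Type*} {s : Finset ι} {f : ι → V → ℝ} (hf : ∀ i ∈ s, SP (f i)) (σ : ℝ) (x : V) :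
    P σ (fun y => ∑ i ∈ s, f i y) x = ∑ i ∈ s, P σ (f i) x := by
  unfold P
  exact integral_finsetSum _ fun i hi => P_int (hf i hi) σ x

lemma P_cont (hf : SP f) : Continuous (fun q : ℝ × V => P q.1 f q.2) := by
  obtain ⟨B, -, hB⟩ := spb hf
  unfold P
  refine continuous_of_dominated (bound := fun _ => B) (fun q => ?_) (fun q => ae_of_all _ fun z => ?_)
    (integrable_const B) (ae_of_all _ fun z => ?_)
  · exact (hf.cont.comp (by fun_prop)).aestronglyMeasurable
  · rw [Real.norm_eq_abs]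
    exact hB _
  · exact hf.cont.comp (by fun_prop)

lemma fd_eq_sum (f : V → ℝ) (x y : V) : fderiv ℝ f x y = ∑ j, y j * pd j f x := by
  have h : y = ∑ j, y j • (Pi.single j (1 : ℝ) : V) := by
    funext i
    simp [Finset.sum_apply, Pi.single_apply]
  conv_lhs => rw [h]
  rw [map_sum]
  refine Finset.sum_congr rfl fun j _ => ?_
  rw [map_smul, smul_eq_mul]
  rfl

lemma fdb (hf : SP f) : ∃ B : ℝ, 0 ≤ B ∧ ∀ x, ‖fderiv ℝ f x‖ ≤ B := by
  choose B hB0 hB using fun j => spb (hf.pd j)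
  refine ⟨∑ j, B j, Finset.sum_nonneg fun j _ => hB0 j, fun x => ?_⟩
  refine ContinuousLinearMap.opNorm_le_bound _ (Finset.sum_nonneg fun j _ => hB0 j) fun y => ?_
  rw [fd_eq_sum f, Finset.sum_mul]
  refine (norm_sum_le _ _).trans (Finset.sum_le_sum fun j _ => ?_)
  rw [norm_mul, mul_comm]
  exact mul_le_mul (hB j x) (norm_le_pi_norm y j) (norm_nonneg _) (hB0 j)

/-- Stein's identity for the function `z ↦ f (x + c z)`. -/
lemma stein_f (hf : SP f) (c : ℝ) (x : V) (j : Fin 3) :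
    ∫ z, z j * f (x + c • z) ∂G = c * ∫ z, pd j f (x + c • z) ∂G := by
  obtain ⟨B, hB0, hB⟩ := spb hf
  obtain ⟨B', hB0', hB'⟩ := spb (hf.pd j)
  have hF : ContDiff ℝ 1 (fun z : V => f (x + c • z)) :=
    (hf.smooth.of_le (by norm_cast)).comp (g := f) (f := fun z : V => x + c • z) (by fun_prop)
  have hpd : ∀ z, pd j (fun z : V => f (x + c • z)) z = c * pd j f (x + c • z) := by
    intro z
    have h1 : HasFDerivAt (fun z : V => x + c • z) (c • ContinuousLinearMap.id ℝ V) z :=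
      ((hasFDerivAt_id z).const_smul c).const_add x
    have h2 := (hf.diff (x + c • z)).hasFDerivAt.comp z h1
    unfold pd
    have h3 : fderiv ℝ (fun z : V => f (x + c • z)) z = _ := h2.fderiv
    rw [h3]
    simp
  have h := stein hF (B := B + |c| * B') (fun z => (hB _).trans (by
    have : 0 ≤ |c| * B' := by positivity
    linarith)) j (fun z => by
      rw [hpd z, abs_mul]
      have := mul_le_mul_of_nonneg_left (hB' (x + c • z)) (abs_nonneg c)
      linarith)
  rw [h]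
  simp_rw [hpd]
  rw [integral_const_mul]

/-- The first derivative in all variables. -/
lemma P_fd (hf : SP f) {σ : ℝ} (hσ : 0 < σ) (x : V) :
    HasFDerivAt (fun q : ℝ × V => P q.1 f q.2)
      (P σ (lap f) x • ContinuousLinearMap.fst ℝ ℝ V
        + ∑ j, P σ (pd j f) x • (ContinuousLinearMap.proj (R := ℝ) (φ := fun _ : Fin 3 => ℝ) j).comp
            (ContinuousLinearMap.snd ℝ ℝ V)) (σ, x) := by
  obtain ⟨B, hB0, hB⟩ := fdb hf
  -- the derivative of the integrand
  obtain ⟨F', hF'⟩ : ∃ F' : ℝ × V → V → (ℝ × V →L[ℝ] ℝ), F' = fun q z =>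
      (fderiv ℝ f (q.2 + √(2 * q.1) • z)).comp (ContinuousLinearMap.snd ℝ ℝ V
        + ((√(2 * q.1))⁻¹ • ContinuousLinearMap.fst ℝ ℝ V).smulRight z) := ⟨_, rfl⟩
  have hs : {q : ℝ × V | σ / 2 < q.1} ∈ 𝓝 (σ, x) :=
    (isOpen_lt continuous_const continuous_fst).mem_nhds (by simp; linarith)
  have happ : ∀ (q : ℝ × V) (z : V) (r : ℝ × V), F' q z r
      = fderiv ℝ f (q.2 + √(2 * q.1) • z) (r.2 + ((√(2 * q.1))⁻¹ * r.1) • z) := by
    intro q z r
    rw [hF']
    simp [smul_eq_mul]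
  have hbd : ∀ z : V, ∀ q ∈ {q : ℝ × V | σ / 2 < q.1}, ‖F' q z‖ ≤ B * (1 + (√σ)⁻¹ * ‖z‖) := by
    intro z q hq
    have hq' : σ / 2 < q.1 := hq
    have h0 : (√(2 * q.1))⁻¹ ≤ (√σ)⁻¹ := by
      refine inv_anti₀ (Real.sqrt_pos.2 hσ) (Real.sqrt_le_sqrt (by linarith))
    refine ContinuousLinearMap.opNorm_le_bound _ (by positivity) fun r => ?_
    rw [happ]
    refine ((fderiv ℝ f (q.2 + √(2 * q.1) • z)).le_opNorm _).trans ?_
    have h1 : ‖r.2 + ((√(2 * q.1))⁻¹ * r.1) • z‖ ≤ (1 + (√σ)⁻¹ * ‖z‖) * ‖r‖ := by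
      refine (norm_add_le _ _).trans ?_
      rw [norm_smul, norm_mul, Real.norm_of_nonneg (inv_nonneg.2 (Real.sqrt_nonneg _))]
      have h2 : ‖r.2‖ ≤ ‖r‖ := norm_snd_le r
      have h3 : ‖r.1‖ ≤ ‖r‖ := norm_fst_le r
      have h4 : (√(2 * q.1))⁻¹ * ‖r.1‖ * ‖z‖ ≤ (√σ)⁻¹ * ‖r‖ * ‖z‖ := by gcongr
      nlinarith
    calc ‖fderiv ℝ f (q.2 + √(2 * q.1) • z)‖ * ‖r.2 + ((√(2 * q.1))⁻¹ * r.1) • z‖
        ≤ B * ((1 + (√σ)⁻¹ * ‖z‖) * ‖r‖) := mul_le_mul (hB _) h1 (norm_nonneg _) hB0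
      _ = _ := by ring
  have hmeas : AEStronglyMeasurable (F' (σ, x)) G := by
    rw [hF']
    refine Continuous.aestronglyMeasurable ?_
    have hc : Continuous (fderiv ℝ f) := hf.smooth.continuous_fderiv (by simp)
    have h1 : Continuous fun z : V => fderiv ℝ f (x + √(2 * σ) • z) := hc.comp (by fun_prop)
    have h2 : Continuous fun z : V => (ContinuousLinearMap.snd ℝ ℝ V
        + ((√(2 * σ))⁻¹ • ContinuousLinearMap.fst ℝ ℝ V).smulRight z) := by
      refine continuous_const.add ?_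
      exact (ContinuousLinearMap.smulRightL ℝ (ℝ × V) V
        ((√(2 * σ))⁻¹ • ContinuousLinearMap.fst ℝ ℝ V)).continuous
    exact h1.clm_comp h2
  have hbi : Integrable (fun z : V => B * (1 + (√σ)⁻¹ * ‖z‖)) G :=
    ((integrable_const 1).add (iG_norm.const_mul _)).const_mul B
  have key := hasFDerivAt_integral_of_dominated_of_fderiv_le (μ := G)
    (F := fun (q : ℝ × V) z => f (q.2 + √(2 * q.1) • z)) (F' := F') (x₀ := (σ, x))
    (bound := fun z => B * (1 + (√σ)⁻¹ * ‖z‖)) hs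
    (Eventually.of_forall fun q => (hf.cont.comp (by fun_prop)).aestronglyMeasurable)
    (P_int hf σ x) hmeas (ae_of_all _ hbd) hbi (ae_of_all _ fun z q hq => ?_)
  · have h1 : (fun q : ℝ × V => P q.1 f q.2) = fun q => ∫ z, f (q.2 + √(2 * q.1) • z) ∂G := rfl
    rw [h1]
    refine key.congr_fderiv ?_
    have hint : Integrable (F' (σ, x)) G :=
      hbi.mono' hmeas (ae_of_all _ fun z => hbd z _ (by simp; linarith))
    have hc0 : √(2 * σ) ≠ 0 := (Real.sqrt_pos.2 (by positivity)).ne'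
    refine ContinuousLinearMap.ext fun r => ?_
    rw [ContinuousLinearMap.integral_apply hint]
    simp_rw [happ, fd_eq_sum f]
    have e1 : ∀ z : V, ∑ j, (r.2 + ((√(2 * σ))⁻¹ * r.1) • z) j * pd j f (x + √(2 * σ) • z)
        = ∑ j, (r.2 j * pd j f (x + √(2 * σ) • z)
          + ((√(2 * σ))⁻¹ * r.1) * (z j * pd j f (x + √(2 * σ) • z))) := by
      intro z
      refine Finset.sum_congr rfl fun j _ => ?_
      simp only [Pi.add_apply, Pi.smul_apply, smul_eq_mul]
      ring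
    simp_rw [e1]
    have i1 : ∀ j, Integrable (fun z : V => pd j f (x + √(2 * σ) • z)) G := fun j => P_int (hf.pd j) σ x
    have i2 : ∀ j, Integrable (fun z : V => z j * pd j f (x + √(2 * σ) • z)) G := by
      intro j
      obtain ⟨B', -, hB'⟩ := spb (hf.pd j)
      refine ((iG_coord j).abs.mul_const B').mono' ?_ (ae_of_all _ fun z => ?_)
      · exact ((continuous_apply j).mul ((hf.pd j).cont.comp (by fun_prop))).aestronglyMeasurable
      · rw [Real.norm_eq_abs, abs_mul]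
        exact mul_le_mul_of_nonneg_left (hB' _) (abs_nonneg _)
    have i3 : ∀ j, Integrable (fun z : V => r.2 j * pd j f (x + √(2 * σ) • z)
        + ((√(2 * σ))⁻¹ * r.1) * (z j * pd j f (x + √(2 * σ) • z))) G := fun j =>
      ((i1 j).const_mul _).add ((i2 j).const_mul _)
    rw [integral_finsetSum _ fun j _ => i3 j]
    have e2 : ∀ j, ∫ z, (r.2 j * pd j f (x + √(2 * σ) • z)
          + ((√(2 * σ))⁻¹ * r.1) * (z j * pd j f (x + √(2 * σ) • z))) ∂G
        = r.2 j * P σ (pd j f) x + r.1 * P σ (pd j (pd j f)) x := by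
      intro j
      rw [integral_add ((i1 j).const_mul _) ((i2 j).const_mul _), integral_const_mul,
        integral_const_mul, stein_f (hf.pd j)]
      unfold P
      field_simp
    simp_rw [e2]
    have e3 : P σ (lap f) x = ∑ j, P σ (pd j (pd j f)) x := by
      unfold lap
      exact P_sum (fun j _ => (hf.pd j).pd j) σ x
    rw [e3, Finset.sum_add_distrib]
    simp only [add_apply, smul_apply, ContinuousLinearMap.coe_fst',
      smul_eq_mul, sum_apply, ContinuousLinearMap.coe_comp, Function.comp_apply,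
      ContinuousLinearMap.coe_snd', ContinuousLinearMap.proj_apply]
    rw [add_comm, ← Finset.mul_sum, mul_comm r.1]
    congr 1
    exact Finset.sum_congr rfl fun j _ => mul_comm _ _
  · have hq' : σ / 2 < q.1 := hq
    have hq0 : 2 * q.1 ≠ 0 := by
      have : 0 < 2 * q.1 := by linarith
      exact this.ne'
    have h1 : HasFDerivAt (fun q : ℝ × V => √(2 * q.1)) ((√(2 * q.1))⁻¹ • ContinuousLinearMap.fst ℝ ℝ V) q := by
      have h2 : HasFDerivAt (fun q : ℝ × V => 2 * q.1) ((2 : ℝ) • ContinuousLinearMap.fst ℝ ℝ V) q :=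
        (hasFDerivAt_fst (𝕜 := ℝ) (E := ℝ) (F := V) (p := q)).const_mul 2
      have h3 := (Real.hasDerivAt_sqrt hq0).comp_hasFDerivAt q h2
      refine h3.congr_fderiv ?_
      rw [smul_smul]
      congr 1
      field_simp
    have h4 : HasFDerivAt (fun q : ℝ × V => q.2 + √(2 * q.1) • z) (ContinuousLinearMap.snd ℝ ℝ V
        + ((√(2 * q.1))⁻¹ • ContinuousLinearMap.fst ℝ ℝ V).smulRight z) q :=
      (hasFDerivAt_snd (𝕜 := ℝ) (E := ℝ) (F := V) (p := q)).add (h1.smul_const z)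
    have h5 := (hf.diff (q.2 + √(2 * q.1) • z)).hasFDerivAt.comp q h4
    rw [hF']
    exact h5

/-- The heat equation. -/
lemma P_t (hf : SP f) {σ : ℝ} (hσ : 0 < σ) (x : V) :
    HasDerivAt (fun s => P s f x) (P σ (lap f) x) σ := by
  have h1 : HasDerivAt (fun s : ℝ => ((s, x) : ℝ × V)) (1, 0) σ :=
    (hasDerivAt_id σ).prodMk (hasDerivAt_const σ x)
  have h2 := (P_fd hf hσ x).comp_hasDerivAt σ h1
  refine h2.congr_deriv ?_
  simp

lemma P_x (hf : SP f) {σ : ℝ} (hσ : 0 < σ) (x : V) :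
    HasFDerivAt (P σ f) (∑ j, P σ (pd j f) x • ContinuousLinearMap.proj (R := ℝ)
      (φ := fun _ : Fin 3 => ℝ) j) x := by
  have h1 : HasFDerivAt (fun y : V => ((σ, y) : ℝ × V)) (ContinuousLinearMap.inr ℝ ℝ V) x :=
    hasFDerivAt_prodMk_right σ x
  have h2 := (P_fd hf hσ x).comp x h1
  refine h2.congr_fderiv ?_
  refine ContinuousLinearMap.ext fun y => ?_
  simp [sum_apply]

lemma pd_P (hf : SP f) {σ : ℝ} (hσ : 0 ≤ σ) (j : Fin 3) : pd j (P σ f) = P σ (pd j f) := by
  funext x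
  rcases hσ.eq_or_lt with h | h
  · subst h
    have e : P 0 f = f := funext fun x => P_zero x
    rw [e, P_zero]
  · unfold pd
    rw [(P_x hf h x).fderiv]
    simp only [sum_apply, smul_apply, ContinuousLinearMap.proj_apply, smul_eq_mul]
    rw [Finset.sum_eq_single j]
    · rw [Pi.single_eq_same, mul_one]
      rfl
    · intro i _ hij
      rw [Pi.single_eq_of_ne hij, mul_zero]
    · intro h
      exact absurd (Finset.mem_univ j) h

/-- Smoothness in all variables. -/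
lemma P_smooth_nat (n : ℕ) : ∀ f : V → ℝ, SP f →
    ContDiffOn ℝ n (fun q : ℝ × V => P q.1 f q.2) (Ioi 0 ×ˢ univ) := by
  have ho : IsOpen (Ioi (0 : ℝ) ×ˢ (univ : Set V)) := isOpen_Ioi.prod isOpen_univ
  induction n with
  | zero =>
    intro f hf
    rw [Nat.cast_zero, contDiffOn_zero]
    exact (P_cont hf).continuousOn
  | succ n ih =>
    intro f hf
    rw [Nat.cast_succ, contDiffOn_succ_iff_fderiv_of_isOpen ho]
    refine ⟨fun q hq => ((P_fd hf hq.1 q.2).differentiableAt).differentiableWithinAt, ?_, ?_⟩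
    · intro h
      exact absurd h (by exact_mod_cast WithTop.coe_ne_top)
    · have h1 : ContDiffOn ℝ n (fun q : ℝ × V => P q.1 (lap f) q.2 • ContinuousLinearMap.fst ℝ ℝ V
        + ∑ j, P q.1 (pd j f) q.2 • (ContinuousLinearMap.proj (R := ℝ) (φ := fun _ : Fin 3 => ℝ) j).comp
            (ContinuousLinearMap.snd ℝ ℝ V)) (Ioi 0 ×ˢ univ) :=
        ((ih _ hf.lap).smul contDiffOn_const).add
          (ContDiffOn.sum fun j _ => (ih _ (hf.pd j)).smul contDiffOn_const)
      exact h1.congr fun q hq => (P_fd hf hq.1 q.2).fderiv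

lemma P_smooth (hf : SP f) : ContDiffOn ℝ ∞ (fun q : ℝ × V => P q.1 f q.2) (Ioi 0 ×ˢ univ) := by
  rw [contDiffOn_infty]
  exact fun n => P_smooth_nat n f hf

lemma P_sp (hf : SP f) {σ : ℝ} (hσ : 0 ≤ σ) : SP (P σ f) := by
  rcases hσ.eq_or_lt with h | h
  · subst h
    have e : P 0 f = f := funext fun x => P_zero x
    rw [e]
    exact hf
  · refine ⟨?_, P_per hf σ⟩
    rw [← contDiffOn_univ]
    exact (P_smooth hf).comp (f := fun x : V => ((σ, x) : ℝ × V)) (by fun_prop)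
      (fun x _ => ⟨h, mem_univ _⟩)

lemma lap_P (hf : SP f) {σ : ℝ} (hσ : 0 ≤ σ) : lap (P σ f) = P σ (lap f) := by
  funext x
  have h : P σ (lap f) x = ∑ j, P σ (pd j (pd j f)) x := by
    unfold lap
    exact P_sum (fun j _ => (hf.pd j).pd j) σ x
  rw [h]
  unfold lap
  refine Finset.sum_congr rfl fun j _ => ?_
  rw [pd_P hf hσ, pd_P (hf.pd j) hσ]

/-- The gradient estimate. -/
lemma P_grad (hf : SP f) {σ : ℝ} (hσ : 0 < σ) {B : ℝ} (hB : ∀ x, |f x| ≤ B) (j : Fin 3) (x : V) :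
    |P σ (pd j f) x| ≤ (√(2 * σ))⁻¹ * B := by
  have hc : 0 < √(2 * σ) := Real.sqrt_pos.2 (by positivity)
  have h := stein_f hf (√(2 * σ)) x j
  have h1 : P σ (pd j f) x = (√(2 * σ))⁻¹ * ∫ z, z j * f (x + √(2 * σ) • z) ∂G := by
    rw [h]
    unfold P
    field_simp
  rw [h1, abs_mul, abs_of_pos (inv_pos.2 hc)]
  refine mul_le_mul_of_nonneg_left ?_ (inv_pos.2 hc).le
  have hB0 : 0 ≤ B := (abs_nonneg _).trans (hB 0)
  have h2 : |∫ z, z j * f (x + √(2 * σ) • z) ∂G| ≤ ∫ z, |z j| * B ∂G := by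
    refine (norm_integral_le_integral_norm _).trans (integral_mono_of_nonneg
      (ae_of_all _ fun z => norm_nonneg (z j * f (x + √(2 * σ) • z))) ((iG_coord j).abs.mul_const B)
      (ae_of_all _ fun z => ?_))
    simp only [norm_mul, Real.norm_eq_abs]
    exact mul_le_mul_of_nonneg_left (hB _) (abs_nonneg _)
  refine h2.trans ?_
  rw [integral_mul_const]
  have := mul_le_mul_of_nonneg_right (iG_abs j) hB0
  linarith

end

end Run7.h219.SL
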