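import Pool.Agent.Run7.h219.SL.Heat

/-!
The heat semigroup on smooth periodic functions: semigroup property, contraction, time integrals.
-/

set_option autoImplicit false

open MeasureTheory Set Filter Topology ProbabilityTheory
open scoped ContDiff NNReal

namespace Run7.h219.SL

open H459R3.NS

/-- Sums of independent Gaussian variables on the line. -/
lemma g1_sum {a b c : ℝ} (h : c ^ 2 = a ^ 2 + b ^ 2) :
    Measure.map (fun q : ℝ × ℝ => a * q.1 + b * q.2) (g1.prod g1) = Measure.map (fun s => c * s) g1 := by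
  have h1 : Measure.map (fun q : ℝ × ℝ => a * q.1 + b * q.2) (g1.prod g1)
      = (Measure.map (fun s => a * s) g1) ∗ (Measure.map (fun s => b * s) g1) := by
    unfold Measure.conv
    rw [Measure.map_prod_map _ _ (by fun_prop) (by fun_prop), Measure.map_map (by fun_prop) (by fun_prop)]
    rfl
  rw [h1, gaussianReal_map_const_mul, gaussianReal_map_const_mul, gaussianReal_conv_gaussianReal,
    gaussianReal_map_const_mul]
  congr 1
  · simp
  · ext
    push_cast
    simp only [mul_one]
    rw [h]

/-- Sums of independent Gaussian vectors. -/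
lemma G_sum {a b c : ℝ} (h : c ^ 2 = a ^ 2 + b ^ 2) :
    Measure.map (fun q : V × V => a • q.1 + b • q.2) (G.prod G) = Measure.map (fun z : V => c • z) G := by
  have hE := measurePreserving_arrowProdEquivProdArrow ℝ ℝ (Fin 3) (fun _ => g1) (fun _ => g1)
  have h1 : G.prod G = Measure.map (MeasurableEquiv.arrowProdEquivProdArrow ℝ ℝ (Fin 3))
      (Measure.pi fun _ : Fin 3 => g1.prod g1) := hE.map_eq.symm
  have h2 : (fun z : V => c • z) = fun z i => (fun s => c * s) (z i) := by
    funext z i
    rfl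
  rw [h1, Measure.map_map (by fun_prop) hE.measurable, h2]
  have h3 : Measure.map (fun (z : V) i => (fun s => c * s) (z i)) G
      = Measure.pi fun _ : Fin 3 => Measure.map (fun s => c * s) g1 := by
    unfold G
    exact Measure.pi_map_pi (fun i => by fun_prop)
  rw [h3]
  have h4 : ((fun q : V × V => a • q.1 + b • q.2) ∘ (MeasurableEquiv.arrowProdEquivProdArrow ℝ ℝ (Fin 3)))
      = fun (x : Fin 3 → ℝ × ℝ) i => (fun q : ℝ × ℝ => a * q.1 + b * q.2) (x i) := by
    funext x i
    rfl
  have h5 := Measure.pi_map_pi (μ := fun _ : Fin 3 => g1.prod g1)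
    (f := fun _ : Fin 3 => fun q : ℝ × ℝ => a * q.1 + b * q.2)
    (hμ := fun i => by
      have : IsProbabilityMeasure (Measure.map (fun q : ℝ × ℝ => a * q.1 + b * q.2) (g1.prod g1)) :=
        Measure.isProbabilityMeasure_map (by fun_prop)
      infer_instance) (fun i => by fun_prop)
  rw [h4]
  refine h5.trans ?_
  congr 1
  funext i
  exact g1_sum h

section

variable {f : V → ℝ}

/-- The semigroup property. -/
lemma P_add_time (hf : SP f) {σ τ : ℝ} (hσ : 0 ≤ σ) (hτ : 0 ≤ τ) (x : V) :
    P σ (P τ f) x = P (σ + τ) f x := by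
  have h : (√(2 * (σ + τ))) ^ 2 = (√(2 * σ)) ^ 2 + (√(2 * τ)) ^ 2 := by
    rw [Real.sq_sqrt (by positivity), Real.sq_sqrt (by positivity), Real.sq_sqrt (by positivity)]
    ring
  have hm := G_sum h
  have hc : Continuous fun z : V => f (x + z) := hf.cont.comp (by fun_prop)
  obtain ⟨B, -, hB⟩ := spb hf
  have e1 : P (σ + τ) f x = ∫ z, f (x + z) ∂(Measure.map (fun z : V => √(2 * (σ + τ)) • z) G) := by
    rw [integral_map (by fun_prop) hc.aestronglyMeasurable]
    rfl
  rw [e1, ← hm, integral_map (by fun_prop) hc.aestronglyMeasurable]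
  have hint : Integrable (fun q : V × V => f (x + (√(2 * σ) • q.1 + √(2 * τ) • q.2))) (G.prod G) :=
    Integrable.of_bound (hc.comp (by fun_prop)).aestronglyMeasurable B
      (ae_of_all _ fun z => by rw [Real.norm_eq_abs]; exact hB _)
  rw [integral_prod _ hint]
  unfold P
  congr 1
  funext z
  congr 1
  funext w
  congr 1
  abel

lemma P_mono {g : V → ℝ} (hf : SP f) (hg : SP g) (h : ∀ x, f x ≤ g x) (σ : ℝ) (x : V) :
    P σ f x ≤ P σ g x := integral_mono (P_int hf σ x) (P_int hg σ x) fun _ => h _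

lemma sp_sq (hf : SP f) : SP (fun x => f x ^ 2) := by
  have h := hf.mul hf
  have e : (fun x => f x ^ 2) = fun x => f x * f x := by
    funext x
    ring
  rw [e]
  exact h

lemma P_sq (hf : SP f) (σ : ℝ) (x : V) : (P σ f x) ^ 2 ≤ P σ (fun y => f y ^ 2) x := by
  have h1 : 0 ≤ ∫ z, (f (x + √(2 * σ) • z) - P σ f x) ^ 2 ∂G := integral_nonneg fun z => sq_nonneg _
  have e : ∀ z : V, (f (x + √(2 * σ) • z) - P σ f x) ^ 2 = f (x + √(2 * σ) • z) ^ 2
      - 2 * P σ f x * f (x + √(2 * σ) • z) + P σ f x ^ 2 := fun z => by ring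
  simp_rw [e] at h1
  have i1 : Integrable (fun z => f (x + √(2 * σ) • z) ^ 2) G := P_int (sp_sq hf) σ x
  have i2 : Integrable (fun z => 2 * P σ f x * f (x + √(2 * σ) • z)) G := (P_int hf σ x).const_mul _
  have i12 : Integrable (fun z => f (x + √(2 * σ) • z) ^ 2 - 2 * P σ f x * f (x + √(2 * σ) • z)) G :=
    i1.sub i2
  rw [integral_add i12 (integrable_const _), integral_sub i1 i2, integral_const_mul] at h1
  have e2 : ∫ z, f (x + √(2 * σ) • z) ∂G = P σ f x := rfl
  have e3 : ∫ z, f (x + √(2 * σ) • z) ^ 2 ∂G = P σ (fun y => f y ^ 2) x := rfl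
  rw [e2, e3] at h1
  simp only [integral_const, probReal_univ, smul_eq_mul, one_mul] at h1
  nlinarith

/-- The integral over the cell is preserved. -/
lemma P_mass (hf : SP f) (σ : ℝ) : ∫ x in cube, P σ f x = ∫ x in cube, f x := by
  unfold P
  obtain ⟨B, -, hB⟩ := spb hf
  rw [integral_integral_swap]
  · have e : ∀ z, ∫ x in cube, f (x + √(2 * σ) • z) = ∫ x in cube, f x := fun z =>
      Pool.Agent.Q67.VD.int_shift hf.per _
    simp_rw [e]
    simp
  · have : IsFiniteMeasure ((volume : Measure V).restrict cube) :=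
      ⟨by rw [Measure.restrict_apply_univ]; exact (isCompact_Icc (a := (0 : V)) (b := 1)).measure_lt_top⟩
    refine Integrable.of_bound (hf.cont.comp (by fun_prop : Continuous fun q : V × V =>
      q.1 + √(2 * σ) • q.2)).aestronglyMeasurable B
      (ae_of_all _ fun z => by rw [Real.norm_eq_abs]; exact hB _)

end

end Run7.h219.SL
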