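import Pool.Agent.Run7.h219.SL.En2

/-!
Families of smooth periodic functions all of whose spatial derivatives are jointly continuous.
-/

set_option autoImplicit false

open MeasureTheory Set Filter Topology ProbabilityTheory
open scoped ContDiff NNReal

namespace Run7.h219.SL

open H459R3.NS

/-! ### The heat semigroup for all real times -/

section

variable {f g : V → ℝ}

lemma P_neg {σ : ℝ} (hσ : σ ≤ 0) (f : V → ℝ) : P σ f = f := by
  funext x
  unfold P
  rw [Real.sqrt_eq_zero_of_nonpos (by linarith)]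
  simp

lemma P_x' (hf : SP f) (σ : ℝ) (x : V) :
    HasFDerivAt (P σ f) (∑ j, P σ (pd j f) x • ContinuousLinearMap.proj (R := ℝ)
      (φ := fun _ : Fin 3 => ℝ) j) x := by
  rcases le_or_gt σ 0 with h | h
  · simp_rw [P_neg h]
    refine (hf.diff x).hasFDerivAt.congr_fderiv ?_
    refine ContinuousLinearMap.ext fun y => ?_
    rw [fd_eq_sum f]
    simp only [sum_apply, smul_apply, ContinuousLinearMap.proj_apply, smul_eq_mul]
    exact Finset.sum_congr rfl fun j _ => mul_comm _ _
  · exact P_x hf h x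

lemma pd_P' (hf : SP f) (σ : ℝ) (j : Fin 3) : pd j (P σ f) = P σ (pd j f) := by
  rcases le_or_gt σ 0 with h | h
  · simp_rw [P_neg h]
  · exact pd_P hf h.le j

lemma P_sp' (hf : SP f) (σ : ℝ) : SP (P σ f) := by
  rcases le_or_gt σ 0 with h | h
  · rw [P_neg h]
    exact hf
  · exact P_sp hf h.le

lemma lap_P' (hf : SP f) (σ : ℝ) : lap (P σ f) = P σ (lap f) := by
  rcases le_or_gt σ 0 with h | h
  · simp_rw [P_neg h]
  · exact lap_P hf h.le

lemma P_sub (hf : SP f) (hg : SP g) (σ : ℝ) (x : V) :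
    P σ (fun y => f y - g y) x = P σ f x - P σ g x := by
  unfold P
  exact integral_sub (P_int hf σ x) (P_int hg σ x)

/-- Lipschitz continuity in time. -/
lemma P_lip (hf : SP f) {K : ℝ} (hK : ∀ x, |lap f x| ≤ K) (x : V) (σ τ : ℝ) :
    |P σ f x - P τ f x| ≤ K * |σ - τ| := by
  have hK0 : 0 ≤ K := (abs_nonneg _).trans (hK 0)
  have key : ∀ σ τ : ℝ, 0 ≤ σ → σ ≤ τ → |P τ f x - P σ f x| ≤ K * (τ - σ) := by
    intro σ τ h0 h
    have h1 := norm_image_sub_le_of_norm_deriv_le_segment' (f := fun s => P s f x) (a := σ) (b := τ)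
      (f' := fun s => P s (lap f) x) (C := K)
    rcases h0.eq_or_lt with h2 | h2
    · -- approach zero
      subst h2
      have hc : Continuous fun a => K * (τ - a) := by fun_prop
      rcases h.eq_or_lt with h3 | h3
      · subst h3
        simp
      refine le_of_tendsto_of_tendsto
        (f := fun a : ℝ => |P τ f x - P a f x|) (g := fun a : ℝ => K * (τ - a)) (b := 𝓝[>] 0)
        ?_ ?_ ?_
      · have h4 : Continuous fun a : ℝ => |P τ f x - P a f x| :=
          (continuous_const.sub (P_cont_t hf x)).abs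
        exact (h4.tendsto 0).mono_left nhdsWithin_le_nhds
      · exact (hc.tendsto 0).mono_left nhdsWithin_le_nhds
      · filter_upwards [Ioo_mem_nhdsGT h3] with a ha
        have h5 := norm_image_sub_le_of_norm_deriv_le_segment' (f := fun s => P s f x) (a := a) (b := τ)
          (f' := fun s => P s (lap f) x) (C := K)
          (fun s hs => (P_t hf (ha.1.trans_le hs.1) x).hasDerivWithinAt)
          (fun s _ => by rw [Real.norm_eq_abs]; exact P_abs s x hK) τ ⟨ha.2.le, le_rfl⟩
        rwa [Real.norm_eq_abs] at h5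
    · have h5 := h1 (fun s hs => (P_t hf (h2.trans_le hs.1) x).hasDerivWithinAt)
        (fun s _ => by rw [Real.norm_eq_abs]; exact P_abs s x hK) τ ⟨h, le_rfl⟩
      rwa [Real.norm_eq_abs] at h5
  have key2 : ∀ σ τ : ℝ, σ ≤ τ → |P τ f x - P σ f x| ≤ K * (τ - σ) := by
    intro σ τ h
    rcases le_or_gt 0 σ with h0 | h0
    · exact key σ τ h0 h
    · rcases le_or_gt τ 0 with h1 | h1
      · rw [P_neg h1, P_neg h0.le]
        simp only [sub_self, abs_zero]
        exact mul_nonneg hK0 (by linarith)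
      · have h2 := key 0 τ le_rfl h1.le
        rw [P_neg (le_refl (0 : ℝ))] at h2
        rw [P_neg h0.le]
        refine h2.trans (mul_le_mul_of_nonneg_left (by linarith) hK0)
  rcases le_total σ τ with h | h
  · rw [abs_sub_comm, abs_sub_comm σ, abs_of_nonneg (sub_nonneg.2 h)]
    exact key2 σ τ h
  · rw [abs_of_nonneg (sub_nonneg.2 h)]
    exact key2 τ σ h

end

/-! ### Iterated derivatives -/

/-- The iterated derivative. -/
noncomputable def pdl : List (Fin 3) → (V → ℝ) → V → ℝ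
  | [], f => f
  | j :: l, f => pdl l (pd j f)

lemma pdl_sp : ∀ (l : List (Fin 3)) {f : V → ℝ}, SP f → SP (pdl l f)
  | [], _, hf => hf
  | j :: l, _, hf => pdl_sp l (hf.pd j)

lemma pd_add' {f g : V → ℝ} (hf : SP f) (hg : SP g) (j : Fin 3) :
    pd j (fun y => f y + g y) = fun y => pd j f y + pd j g y := by
  funext x
  have h : HasFDerivAt (fun y => f y + g y) _ x := (hf.diff x).hasFDerivAt.add (hg.diff x).hasFDerivAt
  unfold pd
  rw [h.fderiv]
  rfl

lemma pdl_add : ∀ (l : List (Fin 3)) {f g : V → ℝ}, SP f → SP g →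
    pdl l (fun y => f y + g y) = fun y => pdl l f y + pdl l g y
  | [], _, _, _, _ => rfl
  | j :: l, f, g, hf, hg => by
      show pdl l (pd j (fun y => f y + g y)) = _
      rw [pd_add' hf hg]
      exact pdl_add l (hf.pd j) (hg.pd j)

lemma pdl_P : ∀ (l : List (Fin 3)) {f : V → ℝ}, SP f → ∀ σ : ℝ, pdl l (P σ f) = P σ (pdl l f)
  | [], _, _, _ => rfl
  | j :: l, f, hf, σ => by
      show pdl l (pd j (P σ f)) = _
      rw [pd_P' hf]
      exact pdl_P l (hf.pd j) σ

/-- Jointly continuous jets. -/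
structure JJ (g : ℝ → V → ℝ) : Prop where
  sp : ∀ s, SP (g s)
  ct : ∀ l : List (Fin 3), Continuous (fun z : ℝ × V => pdl l (g z.1) z.2)

namespace JJ

variable {f g : ℝ → V → ℝ}

lemma c (hg : JJ g) : Continuous (fun z : ℝ × V => g z.1 z.2) := hg.ct []

lemma pd (hg : JJ g) (j : Fin 3) : JJ (fun s => H459R3.NS.pd j (g s)) :=
  ⟨fun s => (hg.sp s).pd j, fun l => hg.ct (j :: l)⟩

lemma add (hf : JJ f) (hg : JJ g) : JJ (fun s x => f s x + g s x) := by
  refine ⟨fun s => (hf.sp s).add (hg.sp s), fun l => ?_⟩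
  have e : (fun z : ℝ × V => pdl l (fun x => f z.1 x + g z.1 x) z.2)
      = fun z => pdl l (f z.1) z.2 + pdl l (g z.1) z.2 := by
    funext z
    rw [pdl_add l (hf.sp _) (hg.sp _)]
  rw [e]
  exact (hf.ct l).add (hg.ct l)

lemma mul (hf : JJ f) (hg : JJ g) : JJ (fun s x => f s x * g s x) := by
  refine ⟨fun s => (hf.sp s).mul (hg.sp s), fun l => ?_⟩
  induction l generalizing f g with
  | nil => exact hf.c.mul hg.c
  | cons j l ih =>
    have e : (fun z : ℝ × V => pdl (j :: l) (fun x => f z.1 x * g z.1 x) z.2)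
        = fun z => pdl l (fun x => H459R3.NS.pd j (f z.1) x * g z.1 x) z.2
          + pdl l (fun x => f z.1 x * H459R3.NS.pd j (g z.1) x) z.2 := by
      funext z
      show pdl l (H459R3.NS.pd j (fun x => f z.1 x * g z.1 x)) z.2 = _
      have e1 : H459R3.NS.pd j (fun x => f z.1 x * g z.1 x)
          = fun x => H459R3.NS.pd j (f z.1) x * g z.1 x + f z.1 x * H459R3.NS.pd j (g z.1) x := by
        funext x
        rw [pd_mul (hf.sp _) (hg.sp _)]
        ring
      rw [e1, pdl_add l (((hf.sp _).pd j).mul (hg.sp _)) ((hf.sp _).mul ((hg.sp _).pd j))]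
    rw [e]
    exact (ih (hf.pd j) hg).add (ih hf (hg.pd j))

lemma const {f : V → ℝ} (hf : SP f) : JJ (fun _ => f) :=
  ⟨fun _ => hf, fun l => (pdl_sp l hf).cont.comp continuous_snd⟩

lemma neg (hf : JJ f) : JJ (fun s x => -f s x) := by
  have h := (const (sp_const (-1))).mul hf
  simpa using h

lemma sub (hf : JJ f) (hg : JJ g) : JJ (fun s x => f s x - g s x) := by
  have h := hf.add hg.neg
  simpa [sub_eq_add_neg] using h

lemma sum {ι : Type*} {s : Finset ι} {f : ι → ℝ → V → ℝ} (hf : ∀ i ∈ s, JJ (f i)) :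
    JJ (fun t x => ∑ i ∈ s, f i t x) := by
  classical
  induction s using Finset.induction_on with
  | empty =>
    simp only [Finset.sum_empty]
    exact const (sp_const 0)
  | insert a s ha ih =>
    have h := (hf a (Finset.mem_insert_self a s)).add
      (ih fun i hi => hf i (Finset.mem_insert_of_mem hi))
    simpa [Finset.sum_insert ha] using h

lemma lap (hg : JJ g) : JJ (fun s => H459R3.NS.lap (g s)) := by
  have h := sum (s := Finset.univ) fun j (_ : j ∈ Finset.univ) => (hg.pd j).pd j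
  exact h

lemma heat {f : V → ℝ} (hf : SP f) : JJ (fun s => P s f) := by
  refine ⟨fun s => P_sp' hf s, fun l => ?_⟩
  have e : (fun z : ℝ × V => pdl l (P z.1 f) z.2) = fun z => P z.1 (pdl l f) z.2 := by
    funext z
    rw [pdl_P l hf]
  rw [e]
  exact P_cont (pdl_sp l hf)

/-- Local bounds. -/
lemma bdd (hg : JJ g) (a b : ℝ) : ∃ B : ℝ, 0 ≤ B ∧ ∀ s ∈ Icc a b, ∀ x, |g s x| ≤ B := by
  have hK : IsCompact (Icc a b ×ˢ cube) := isCompact_Icc.prod isCompact_Icc
  obtain ⟨B, hB⟩ := hK.exists_bound_of_continuousOn hg.c.continuousOn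
  refine ⟨|B|, abs_nonneg _, fun s hs x => ?_⟩
  have h1 : g s x = g s (fun i => Int.fract (x i)) := by
    have h2 := (hg.sp s).per.int (fun i => ⌊x i⌋) (fun i => Int.fract (x i))
    rw [← h2]
    congr 1
    funext i
    exact (Int.fract_add_floor (x i)).symm
  rw [h1]
  exact (hB (s, fun i => Int.fract (x i)) ⟨hs, fun i => Int.fract_nonneg _,
    fun i => (Int.fract_lt_one _).le⟩).trans (le_abs_self B)

/-- Joint continuity of the heat flow of a family. -/
lemma P_cont (hg : JJ g) : Continuous (fun q : ℝ × ℝ × V => P q.1 (g q.2.1) q.2.2) := by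
  rw [continuous_iff_continuousAt]
  rintro ⟨σ, s, x⟩
  obtain ⟨B, hB0, hB⟩ := hg.bdd (s - 1) (s + 1)
  unfold P
  refine continuousAt_of_dominated (bound := fun _ => B) ?_ ?_ (integrable_const B)
    (ae_of_all _ fun z => ?_)
  · refine Eventually.of_forall fun q => ?_
    exact ((hg.sp _).cont.comp (by fun_prop)).aestronglyMeasurable
  · have h1 : ∀ᶠ q : ℝ × ℝ × V in 𝓝 (σ, s, x), q.2.1 ∈ Icc (s - 1) (s + 1) := by
      have h2 : ContinuousAt (fun q : ℝ × ℝ × V => q.2.1) (σ, s, x) := by fun_prop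
      exact h2.eventually (Icc_mem_nhds (by simp) (by simp))
    filter_upwards [h1] with q hq
    refine ae_of_all _ fun z => ?_
    rw [Real.norm_eq_abs]
    exact hB _ hq _
  · have h3 : Continuous (fun q : ℝ × ℝ × V => g q.2.1 (q.2.2 + √(2 * q.1) • z)) :=
      hg.c.comp (by fun_prop : Continuous fun q : ℝ × ℝ × V => ((q.2.1, q.2.2 + √(2 * q.1) • z) : ℝ × V))
    exact h3.continuousAt

end JJ

/-! ### Time integrals -/

/-- The general time integral. -/
noncomputable def LL (α β : ℝ → ℝ → ℝ) (a : ℝ → ℝ) (g : ℝ → V → ℝ) (t : ℝ) (x : V) : ℝ :=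
  ∫ s in (0 : ℝ)..a t, P (α t s) (g (β t s)) x

section

variable {α β : ℝ → ℝ → ℝ} {a : ℝ → ℝ} {g : ℝ → V → ℝ}

lemma LL_cc (hα : Continuous (fun z : ℝ × ℝ => α z.1 z.2)) (hβ : Continuous (fun z : ℝ × ℝ => β z.1 z.2))
    (hg : JJ g) : Continuous (fun w : (ℝ × V) × ℝ => P (α w.1.1 w.2) (g (β w.1.1 w.2)) w.1.2) := by
  have h1 : Continuous (fun w : (ℝ × V) × ℝ => (α w.1.1 w.2, β w.1.1 w.2, w.1.2)) := by
    have h2 : Continuous (fun w : (ℝ × V) × ℝ => ((w.1.1, w.2) : ℝ × ℝ)) := by fun_prop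
    exact (hα.comp h2).prodMk ((hβ.comp h2).prodMk (by fun_prop))
  exact hg.P_cont.comp h1

lemma LL_cont (hα : Continuous (fun z : ℝ × ℝ => α z.1 z.2))
    (hβ : Continuous (fun z : ℝ × ℝ => β z.1 z.2)) (ha : Continuous a) (hg : JJ g) :
    Continuous (fun z : ℝ × V => LL α β a g z.1 z.2) := by
  unfold LL
  exact intervalIntegral.continuous_parametric_intervalIntegral_of_continuous
    (f := fun (z : ℝ × V) s => P (α z.1 s) (g (β z.1 s)) z.2) (LL_cc hα hβ hg)
    (ha.comp continuous_fst)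

lemma LL_ii (hα : Continuous (fun z : ℝ × ℝ => α z.1 z.2))
    (hβ : Continuous (fun z : ℝ × ℝ => β z.1 z.2)) (hg : JJ g) (t : ℝ) (x : V) :
    Continuous (fun s => P (α t s) (g (β t s)) x) :=
  (LL_cc hα hβ hg).comp (by fun_prop : Continuous fun s : ℝ => (((t, x), s) : (ℝ × V) × ℝ))

lemma LL_x (hα : Continuous (fun z : ℝ × ℝ => α z.1 z.2))
    (hβ : Continuous (fun z : ℝ × ℝ => β z.1 z.2)) (hg : JJ g) (t : ℝ) (x : V) :
    HasFDerivAt (LL α β a g t) (∑ j, LL α β a (fun s => pd j (g s)) t x •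
      ContinuousLinearMap.proj (R := ℝ) (φ := fun _ : Fin 3 => ℝ) j) x := by
  -- a bound
  have hβt : Continuous (fun s => β t s) := hβ.comp (by fun_prop : Continuous fun s : ℝ => ((t, s) : ℝ × ℝ))
  obtain ⟨m, hm⟩ := (isCompact_uIcc (a := (0 : ℝ)) (b := a t)).exists_bound_of_continuousOn
    hβt.continuousOn
  choose B hB0 hB using fun j => (hg.pd j).bdd (-m) m
  have hBb : ∀ s ∈ Set.uIoc 0 (a t), ∀ j y, |P (α t s) (pd j (g (β t s))) y| ≤ B j := by
    intro s hs j y
    refine P_abs _ _ fun x => hB j _ ?_ x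
    have h1 := hm s (uIoc_subset_uIcc hs)
    rw [Real.norm_eq_abs, abs_le] at h1
    exact h1
  have hpn : ∀ j : Fin 3, ‖ContinuousLinearMap.proj (R := ℝ) (φ := fun _ : Fin 3 => ℝ) j‖ ≤ 1 := by
    intro j
    refine ContinuousLinearMap.opNorm_le_bound _ zero_le_one fun y => ?_
    rw [one_mul]
    exact norm_le_pi_norm y j
  have hc : ∀ y : V, Continuous fun s => ∑ j, P (α t s) (pd j (g (β t s))) y •
      ContinuousLinearMap.proj (R := ℝ) (φ := fun _ : Fin 3 => ℝ) j := fun y =>
    continuous_finsetSum _ fun j _ => (LL_ii hα hβ (hg.pd j) t y).smul continuous_const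
  have key := intervalIntegral.hasFDerivAt_integral_of_dominated_of_fderiv_le (𝕜 := ℝ) (μ := volume)
    (a := 0) (b := a t) (F := fun y s => P (α t s) (g (β t s)) y) (x₀ := x)
    (F' := fun y s => ∑ j, P (α t s) (pd j (g (β t s))) y • ContinuousLinearMap.proj (R := ℝ)
      (φ := fun _ : Fin 3 => ℝ) j) (bound := fun _ => ∑ j, B j) (s := univ) Filter.univ_mem
    (Eventually.of_forall fun y => (LL_ii hα hβ hg t y).aestronglyMeasurable)
    ((LL_ii hα hβ hg t x).intervalIntegrable _ _) (hc x).aestronglyMeasurable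
    (ae_of_all _ fun s hs y _ => ?_) intervalIntegrable_const
    (ae_of_all _ fun s _ y _ => P_x' (hg.sp _) _ y)
  · refine key.congr_fderiv ?_
    have hi : ∀ j ∈ (Finset.univ : Finset (Fin 3)), IntervalIntegrable (fun s =>
        P (α t s) (pd j (g (β t s))) x • ContinuousLinearMap.proj (R := ℝ)
          (φ := fun _ : Fin 3 => ℝ) j) volume 0 (a t) := by
      intro j _
      have h1 := (LL_ii hα hβ (hg.pd j) t x).smul
        (continuous_const (y := ContinuousLinearMap.proj (R := ℝ) (φ := fun _ : Fin 3 => ℝ) j))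
      exact h1.intervalIntegrable _ _
    rw [intervalIntegral.integral_finsetSum hi]
    refine Finset.sum_congr rfl fun j _ => ?_
    rw [intervalIntegral.integral_smul_const]
    rfl
  · refine (norm_sum_le _ _).trans (Finset.sum_le_sum fun j _ => ?_)
    rw [norm_smul, Real.norm_eq_abs]
    calc |P (α t s) (pd j (g (β t s))) y| *
          ‖ContinuousLinearMap.proj (R := ℝ) (φ := fun _ : Fin 3 => ℝ) j‖
        ≤ B j * 1 := mul_le_mul (hBb s hs j y) (hpn j) (norm_nonneg _) (hB0 j)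
      _ = B j := mul_one _

lemma pd_LL (hα : Continuous (fun z : ℝ × ℝ => α z.1 z.2))
    (hβ : Continuous (fun z : ℝ × ℝ => β z.1 z.2)) (hg : JJ g) (t : ℝ) (j : Fin 3) :
    pd j (LL α β a g t) = LL α β a (fun s => pd j (g s)) t := by
  funext x
  unfold pd
  rw [(LL_x hα hβ hg t x).fderiv]
  simp only [sum_apply, smul_apply, ContinuousLinearMap.proj_apply, smul_eq_mul]
  rw [Finset.sum_eq_single j]
  · rw [Pi.single_eq_same, mul_one]
    rfl
  · intro i _ hij
    rw [Pi.single_eq_of_ne hij, mul_zero]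
  · intro h
    exact absurd (Finset.mem_univ j) h

lemma LL_smooth_nat (hα : Continuous (fun z : ℝ × ℝ => α z.1 z.2))
    (hβ : Continuous (fun z : ℝ × ℝ => β z.1 z.2)) (ha : Continuous a) (t : ℝ) (n : ℕ) :
    ∀ g : ℝ → V → ℝ, JJ g → ContDiff ℝ n (LL α β a g t) := by
  induction n with
  | zero =>
    intro g hg
    rw [Nat.cast_zero, contDiff_zero]
    exact (LL_cont hα hβ ha hg).comp (by fun_prop : Continuous fun x : V => ((t, x) : ℝ × V))
  | succ n ih =>
    intro g hg
    rw [Nat.cast_succ, contDiff_succ_iff_fderiv]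
    refine ⟨fun x => (LL_x hα hβ hg t x).differentiableAt, ?_, ?_⟩
    · intro h
      exact absurd h (by exact_mod_cast WithTop.coe_ne_top)
    · have h1 : ContDiff ℝ n (fun x => ∑ j, LL α β a (fun s => pd j (g s)) t x •
          ContinuousLinearMap.proj (R := ℝ) (φ := fun _ : Fin 3 => ℝ) j) :=
        ContDiff.sum fun j _ => (ih _ (hg.pd j)).smul contDiff_const
      have e : fderiv ℝ (LL α β a g t) = fun x => ∑ j, LL α β a (fun s => pd j (g s)) t x •
          ContinuousLinearMap.proj (R := ℝ) (φ := fun _ : Fin 3 => ℝ) j :=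
        funext fun x => (LL_x hα hβ hg t x).fderiv
      rw [e]
      exact h1

lemma LL_sp (hα : Continuous (fun z : ℝ × ℝ => α z.1 z.2))
    (hβ : Continuous (fun z : ℝ × ℝ => β z.1 z.2)) (ha : Continuous a) (hg : JJ g) (t : ℝ) :
    SP (LL α β a g t) := by
  refine ⟨contDiff_infty.2 fun n => LL_smooth_nat hα hβ ha t n g hg, fun i x => ?_⟩
  unfold LL
  congr 1
  funext s
  exact P_per (hg.sp _) _ i x

lemma pdl_LL (hα : Continuous (fun z : ℝ × ℝ => α z.1 z.2))
    (hβ : Continuous (fun z : ℝ × ℝ => β z.1 z.2)) (t : ℝ) : ∀ (l : List (Fin 3)) {g : ℝ → V → ℝ},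
    JJ g → pdl l (LL α β a g t) = LL α β a (fun s => pdl l (g s)) t
  | [], _, _ => rfl
  | j :: l, g, hg => by
      show pdl l (pd j (LL α β a g t)) = _
      rw [pd_LL hα hβ hg]
      exact pdl_LL hα hβ t l (hg.pd j)

lemma JJ.pdl (hg : JJ g) : ∀ l : List (Fin 3), JJ (fun s => pdl l (g s)) := by
  intro l
  induction l generalizing g with
  | nil => exact hg
  | cons j l ih => exact ih (hg.pd j)

/-- The general time integral preserves jointly continuous jets. -/
lemma JJ.LL (hα : Continuous (fun z : ℝ × ℝ => α z.1 z.2))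
    (hβ : Continuous (fun z : ℝ × ℝ => β z.1 z.2)) (ha : Continuous a) (hg : JJ g) :
    JJ (LL α β a g) := by
  refine ⟨fun t => LL_sp hα hβ ha hg t, fun l => ?_⟩
  have e : (fun z : ℝ × V => Run7.h219.SL.pdl l (Run7.h219.SL.LL α β a g z.1) z.2)
      = fun z => Run7.h219.SL.LL α β a (fun s => Run7.h219.SL.pdl l (g s)) z.1 z.2 := by
    funext z
    rw [pdl_LL hα hβ z.1 l hg]
  rw [e]
  exact LL_cont hα hβ ha (hg.pdl l)

end

end Run7.h219.SL
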