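import Pool.Agent.Run7.h219.SL.Duh

/-!
Picard's iterates for the Navier-Stokes equations with a bounded datum which need not be solenoidal.
-/

set_option autoImplicit false

open MeasureTheory Set Filter Topology ProbabilityTheory
open scoped ContDiff NNReal

namespace Run7.h219.SL

open H459R3.NS

/-- The double divergence. -/
noncomputable def dd2 (f : Fin 3 → Fin 3 → V → ℝ) (y : V) : ℝ := ∑ j, ∑ k, pd j (pd k (f j k)) y

/-- The nonlinear term, with the approximate pressure. -/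
noncomputable def gG (H : ℝ) (f : Fin 3 → Fin 3 → V → ℝ) (i : Fin 3) (x : V) : ℝ :=
  ∑ j, pd j (f i j) x + pd i (hh 0 H (dd2 f)) x

section

variable {f f' : Fin 3 → Fin 3 → V → ℝ} {H : ℝ}

lemma dd2_sp (hf : ∀ i j, SP (f i j)) : SP (dd2 f) :=
  SP.sum fun j _ => SP.sum fun k _ => ((hf j k).pd k).pd j

lemma gG_sp (hf : ∀ i j, SP (f i j)) (i : Fin 3) : SP (gG H f i) :=
  (SP.sum fun j _ => (hf i j).pd j).add ((hh0_sp (dd2_sp hf) H).pd i)

lemma pd_dd2 (hf : ∀ i j, SP (f i j)) (m : Fin 3) :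
    pd m (dd2 f) = dd2 fun i j => pd m (f i j) := by
  funext x
  have h1 : pd m (dd2 f) x = ∑ j, ∑ k, pd m (pd j (pd k (f j k))) x := by
    have e1 : dd2 f = fun y => ∑ j, (fun y => ∑ k, pd j (pd k (f j k)) y) y := rfl
    rw [e1, pd_sum fun j _ => SP.sum fun k _ => ((hf j k).pd k).pd j]
    refine Finset.sum_congr rfl fun j _ => ?_
    rw [pd_sum fun k _ => ((hf j k).pd k).pd j]
  rw [h1]
  unfold dd2
  refine Finset.sum_congr rfl fun j _ => Finset.sum_congr rfl fun k _ => ?_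
  rw [pd_comm ((hf j k).pd k) m j, pd_comm (hf j k) m k]

lemma gG_bd (hf : ∀ i j, SP (f i j)) {M : ℝ} (hM : ∀ i j x, |f i j x| ≤ M) {σ : ℝ} (hσ : 0 < σ)
    (hH : 0 ≤ H) (i : Fin 3) (x : V) : |P σ (gG H f i) x| ≤ 39 * M * (√σ)⁻¹ := by
  have hM0 : 0 ≤ M := (abs_nonneg _).trans (hM 0 0 0)
  have e1 : P σ (gG H f i) x = ∑ j, P σ (pd j (f i j)) x
      + ∑ j, ∑ k, hh σ (σ + H) (pd i (pd j (pd k (f j k)))) x := by
    have e2 : gG H f i = fun x => (fun x => ∑ j, pd j (f i j) x) x + pd i (hh 0 H (dd2 f)) x := rfl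
    rw [e2, P_add (SP.sum fun j _ => (hf i j).pd j) ((hh0_sp (dd2_sp hf) H).pd i),
      P_sum fun j _ => (hf i j).pd j, pd_hh0 (dd2_sp hf), P_hh ((dd2_sp hf).pd i) hσ.le hH]
    congr 1
    have e3 : pd i (dd2 f) = fun y => ∑ j, (fun y => ∑ k, pd i (pd j (pd k (f j k))) y) y := by
      funext y
      have e1 : dd2 f = fun y => ∑ j, (fun y => ∑ k, pd j (pd k (f j k)) y) y := rfl
      rw [e1, pd_sum fun j _ => SP.sum fun k _ => ((hf j k).pd k).pd j]
      refine Finset.sum_congr rfl fun j _ => ?_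
      rw [pd_sum fun k _ => ((hf j k).pd k).pd j]
    rw [e3, hh_sum fun j _ => SP.sum fun k _ => (((hf j k).pd k).pd j).pd i]
    refine Finset.sum_congr rfl fun j _ => ?_
    exact hh_sum (fun k _ => (((hf j k).pd k).pd j).pd i) _ _ x
  rw [e1]
  have hle : (√(2 * σ))⁻¹ ≤ (√σ)⁻¹ :=
    inv_anti₀ (Real.sqrt_pos.2 hσ) (Real.sqrt_le_sqrt (by linarith))
  have b1 : |∑ j, P σ (pd j (f i j)) x| ≤ 3 * (M * (√σ)⁻¹) := by
    refine (Finset.abs_sum_le_sum_abs _ _).trans ?_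
    refine (Finset.sum_le_sum fun j _ => (P_grad (hf i j) hσ (hM i j) j x).trans
      (mul_le_mul_of_nonneg_right hle hM0)).trans (le_of_eq ?_)
    simp
    ring
  have b2 : |∑ j, ∑ k, hh σ (σ + H) (pd i (pd j (pd k (f j k)))) x| ≤ 36 * (M * (√σ)⁻¹) := by
    refine (Finset.abs_sum_le_sum_abs _ _).trans ?_
    refine (Finset.sum_le_sum fun j _ => (Finset.abs_sum_le_sum_abs _ _).trans
      (Finset.sum_le_sum fun k _ => hh_third (hf j k) hσ (by linarith) (hM j k) i j k x)).trans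
        (le_of_eq ?_)
    simp
    ring
  refine (abs_add_le _ _).trans ?_
  linarith

lemma pd_gG (hf : ∀ i j, SP (f i j)) (i m : Fin 3) :
    pd m (gG H f i) = gG H (fun i j => pd m (f i j)) i := by
  funext x
  have e2 : gG H f i = fun x => (fun x => ∑ j, pd j (f i j) x) x + pd i (hh 0 H (dd2 f)) x := rfl
  rw [e2, pd_add' (SP.sum fun j _ => (hf i j).pd j) ((hh0_sp (dd2_sp hf) H).pd i)]
  unfold gG
  simp only
  congr 1
  · rw [pd_sum fun j _ => (hf i j).pd j]
    refine Finset.sum_congr rfl fun j _ => ?_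
    rw [pd_comm (hf i j) m j]
  · rw [pd_comm (hh0_sp (dd2_sp hf) H) m i, pd_hh0 (dd2_sp hf), pd_dd2 hf]

lemma dd2_sub (hf : ∀ i j, SP (f i j)) (hf' : ∀ i j, SP (f' i j)) :
    dd2 (fun i j y => f i j y - f' i j y) = fun y => dd2 f y - dd2 f' y := by
  funext y
  unfold dd2
  rw [← Finset.sum_sub_distrib]
  refine Finset.sum_congr rfl fun j _ => ?_
  rw [← Finset.sum_sub_distrib]
  refine Finset.sum_congr rfl fun k _ => ?_
  have e : pd k (fun y => f j k y - f' j k y) = fun y => pd k (f j k) y - pd k (f' j k) y :=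
    funext fun y => pd_sub (hf j k) (hf' j k) k y
  rw [e, pd_sub ((hf j k).pd k) ((hf' j k).pd k)]

lemma hh_sub {f g : V → ℝ} (hf : SP f) (hg : SP g) (a b : ℝ) :
    hh a b (fun y => f y - g y) = fun y => hh a b f y - hh a b g y := by
  funext x
  unfold hh
  simp_rw [P_sub hf hg]
  exact intervalIntegral.integral_sub (hh_ii hf x a b) (hh_ii hg x a b)

lemma gG_sub (hf : ∀ i j, SP (f i j)) (hf' : ∀ i j, SP (f' i j)) (i : Fin 3) :
    gG H (fun i j y => f i j y - f' i j y) i = fun x => gG H f i x - gG H f' i x := by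
  funext x
  unfold gG
  rw [dd2_sub hf hf', hh_sub (dd2_sp hf) (dd2_sp hf'), pd_sub (hh0_sp (dd2_sp hf) H)
    (hh0_sp (dd2_sp hf') H)]
  have e : ∑ j, pd j (fun y => f i j y - f' i j y) x = ∑ j, pd j (f i j) x - ∑ j, pd j (f' i j) x := by
    rw [← Finset.sum_sub_distrib]
    exact Finset.sum_congr rfl fun j _ => pd_sub (hf i j) (hf' i j) j x
  rw [e]
  ring

/-- The divergence of the nonlinear term. -/
lemma div_gG (hf : ∀ i j, SP (f i j)) (hH : 0 ≤ H) (x : V) :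
    ∑ i, pd i (gG H f i) x = P H (dd2 f) x := by
  have h1 : ∀ i, pd i (gG H f i) x = ∑ j, pd i (pd j (f i j)) x + pd i (pd i (hh 0 H (dd2 f))) x := by
    intro i
    have e2 : gG H f i = fun x => (fun x => ∑ j, pd j (f i j) x) x + pd i (hh 0 H (dd2 f)) x := rfl
    rw [e2, pd_add' (SP.sum fun j _ => (hf i j).pd j) ((hh0_sp (dd2_sp hf) H).pd i)]
    simp only
    rw [pd_sum fun j _ => (hf i j).pd j]
  simp_rw [h1]
  rw [Finset.sum_add_distrib]
  have h2 : ∑ i, pd i (pd i (hh 0 H (dd2 f))) x = P H (dd2 f) x - dd2 f x := lap_hh0 (dd2_sp hf) hH x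
  rw [h2]
  unfold dd2
  ring

end

lemma gG_jj {F : Fin 3 → Fin 3 → ℝ → V → ℝ} (hF : ∀ i j, JJ (F i j)) (H : ℝ) (i : Fin 3) :
    JJ (fun s => gG H (fun i j => F i j s) i) := by
  have h1 : JJ (fun s => dd2 fun i j => F i j s) :=
    JJ.sum fun j _ => JJ.sum fun k _ => ((hF j k).pd k).pd j
  exact (JJ.sum fun j _ => (hF i j).pd j).add ((h1.hh H).pd i)

lemma DDg_bd {F : Fin 3 → Fin 3 → ℝ → V → ℝ} (hF : ∀ i j, JJ (F i j)) {H τ t M : ℝ} (hH : 0 ≤ H)
    (h : τ ≤ t) (hM : ∀ s ∈ Ioo τ t, ∀ i j x, |F i j s x| ≤ M) (i : Fin 3) (x : V) :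
    |∫ s in τ..t, P (t - s) (gG H (fun i j => F i j s) i) x| ≤ 78 * M * √(t - τ) := by
  have h1 := ker_bd (k := fun s => P (t - s) (gG H (fun i j => F i j s) i) x) (K := 39 * M) h
    (fun s hs => gG_bd (fun i j => (hF i j).sp s) (hM s hs) (by linarith [hs.2]) hH i x)
  linarith

/-! ### Picard's iterates -/

/-- Picard's iterates. -/
noncomputable def VP (H : ℝ) (b : Fin 3 → V → ℝ) : ℕ → Fin 3 → ℝ → V → ℝ
  | 0 => fun i t => P t (b i)
  | n + 1 => fun i t x => P t (b i) x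
      - DD (fun s => gG H (fun i j y => VP H b n i s y * VP H b n j s y) i) t x

/-- The tensor. -/
noncomputable def FP (H : ℝ) (b : Fin 3 → V → ℝ) (n : ℕ) (i j : Fin 3) (s : ℝ) (y : V) : ℝ :=
  VP H b n i s y * VP H b n j s y

section

variable {H : ℝ} {b : Fin 3 → V → ℝ}

lemma VP_jj (hb : ∀ i, SP (b i)) (n : ℕ) : ∀ i, JJ (VP H b n i) := by
  induction n with
  | zero => exact fun i => JJ.heat (hb i)
  | succ n ih =>
    intro i
    have h1 : ∀ i j, JJ (FP H b n i j) := fun i j => (ih i).mul (ih j)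
    exact (JJ.heat (hb i)).sub (gG_jj h1 H i).DD

lemma FP_jj (hb : ∀ i, SP (b i)) (n : ℕ) (i j : Fin 3) : JJ (FP H b n i j) :=
  (VP_jj hb n i).mul (VP_jj hb n j)

lemma VP_succ (n : ℕ) (i : Fin 3) (t : ℝ) (x : V) : VP H b (n + 1) i t x
    = P t (b i) x - DD (fun s => gG H (fun i j => FP H b n i j s) i) t x := rfl

lemma VP_zero (hb : ∀ i, SP (b i)) (n : ℕ) (i : Fin 3) (x : V) : VP H b n i 0 x = b i x := by
  cases n with
  | zero => exact P_zero x
  | succ n =>
    rw [VP_succ, P_zero]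
    unfold DD
    simp

variable {B t₀ : ℝ}

lemma VP_bd (hb : ∀ i, SP (b i)) (hB : ∀ i x, |b i x| ≤ B) (hH : 0 ≤ H)
    (hs : 640 * B * √t₀ ≤ 1) (n : ℕ) : ∀ t ∈ Icc 0 t₀, ∀ i x, |VP H b n i t x| ≤ 2 * B := by
  have hB0 : 0 ≤ B := (abs_nonneg _).trans (hB 0 0)
  induction n with
  | zero =>
    intro t _ i x
    have h1 : |VP H b 0 i t x| ≤ B := P_abs t x (hB i)
    linarith
  | succ n ih =>
    intro t ht i x
    rw [VP_succ]
    have h1 : |P t (b i) x| ≤ B := P_abs t x (hB i)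
    have h2 := DDg_bd (F := FP H b n) (FP_jj hb n) (M := 4 * B ^ 2) hH ht.1 (fun s hs' i j x => by
      unfold FP
      have hs2 : s ∈ Icc 0 t₀ := ⟨hs'.1.le, hs'.2.le.trans ht.2⟩
      rw [abs_mul]
      calc |VP H b n i s x| * |VP H b n j s x| ≤ (2 * B) * (2 * B) :=
            mul_le_mul (ih s hs2 i x) (ih s hs2 j x) (abs_nonneg _) (by linarith)
        _ = 4 * B ^ 2 := by ring) i x
    rw [sub_zero] at h2
    have h3 : √t ≤ √t₀ := Real.sqrt_le_sqrt ht.2
    have h4 : 78 * (4 * B ^ 2) * √t ≤ B := by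
      calc 78 * (4 * B ^ 2) * √t ≤ 78 * (4 * B ^ 2) * √t₀ := by gcongr
        _ = (640 * B * √t₀) * B * (312 / 640) := by ring
        _ ≤ 1 * B * (312 / 640) := by gcongr
        _ ≤ B := by linarith
    have h5 : |DD (fun s => gG H (fun i j => FP H b n i j s) i) t x| ≤ B := h2.trans h4
    have := abs_sub (P t (b i) x) (DD (fun s => gG H (fun i j => FP H b n i j s) i) t x)
    linarith

lemma FP_bd (hb : ∀ i, SP (b i)) (hB : ∀ i x, |b i x| ≤ B) (hH : 0 ≤ H)
    (hs : 640 * B * √t₀ ≤ 1) (n : ℕ) : ∀ t ∈ Icc 0 t₀, ∀ i j x, |FP H b n i j t x| ≤ 4 * B ^ 2 := by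
  intro t ht i j x
  have hB0 : 0 ≤ B := (abs_nonneg _).trans (hB 0 0)
  unfold FP
  rw [abs_mul]
  calc |VP H b n i t x| * |VP H b n j t x| ≤ (2 * B) * (2 * B) :=
        mul_le_mul (VP_bd hb hB hH hs n t ht i x) (VP_bd hb hB hH hs n t ht j x) (abs_nonneg _)
          (by linarith)
    _ = 4 * B ^ 2 := by ring

lemma FP_diff {n : ℕ} {δ : ℝ} (hb : ∀ i, SP (b i)) (hB : ∀ i x, |b i x| ≤ B) (hH : 0 ≤ H)
    (hs : 640 * B * √t₀ ≤ 1) {t : ℝ} (ht : t ∈ Icc 0 t₀)
    (hδ : ∀ i x, |VP H b (n + 1) i t x - VP H b n i t x| ≤ δ) (i j : Fin 3) (x : V) :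
    |FP H b (n + 1) i j t x - FP H b n i j t x| ≤ 4 * B * δ := by
  have hB0 : 0 ≤ B := (abs_nonneg _).trans (hB 0 0)
  have hδ0 : 0 ≤ δ := (abs_nonneg _).trans (hδ 0 0)
  unfold FP
  have e : VP H b (n + 1) i t x * VP H b (n + 1) j t x - VP H b n i t x * VP H b n j t x
      = (VP H b (n + 1) i t x - VP H b n i t x) * VP H b (n + 1) j t x
        + VP H b n i t x * (VP H b (n + 1) j t x - VP H b n j t x) := by ring
  rw [e]
  refine (abs_add_le _ _).trans ?_
  rw [abs_mul, abs_mul]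
  have h1 := mul_le_mul (hδ i x) (VP_bd hb hB hH hs (n + 1) t ht j x) (abs_nonneg _) hδ0
  have h2 := mul_le_mul (VP_bd hb hB hH hs n t ht i x) (hδ j x) (abs_nonneg _) (by linarith)
  linarith

lemma VP_diff (hb : ∀ i, SP (b i)) (hB : ∀ i x, |b i x| ≤ B) (hH : 0 ≤ H)
    (hs : 640 * B * √t₀ ≤ 1) (n : ℕ) : ∀ t ∈ Icc 0 t₀, ∀ i x,
      |VP H b (n + 1) i t x - VP H b n i t x| ≤ B / 2 ^ n := by
  have hB0 : 0 ≤ B := (abs_nonneg _).trans (hB 0 0)
  induction n with
  | zero =>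
    intro t ht i x
    have h2 := DDg_bd (F := FP H b 0) (FP_jj hb 0) (M := 4 * B ^ 2) hH ht.1 (fun s hs' i j x =>
      FP_bd hb hB hH hs 0 s ⟨hs'.1.le, hs'.2.le.trans ht.2⟩ i j x) i x
    rw [sub_zero] at h2
    have h3 : √t ≤ √t₀ := Real.sqrt_le_sqrt ht.2
    have h4 : 78 * (4 * B ^ 2) * √t ≤ B := by
      calc 78 * (4 * B ^ 2) * √t ≤ 78 * (4 * B ^ 2) * √t₀ := by gcongr
        _ = (640 * B * √t₀) * B * (312 / 640) := by ring
        _ ≤ 1 * B * (312 / 640) := by gcongr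
        _ ≤ B := by linarith
    have h5 : |DD (fun s => gG H (fun i j => FP H b 0 i j s) i) t x| ≤ B := h2.trans h4
    have e : VP H b (0 + 1) i t x - VP H b 0 i t x
        = -DD (fun s => gG H (fun i j => FP H b 0 i j s) i) t x := by
      rw [VP_succ]
      show P t (b i) x - _ - P t (b i) x = _
      ring
    rw [e, abs_neg, pow_zero, div_one]
    exact h5
  | succ n ih =>
    intro t ht i x
    have e : VP H b (n + 1 + 1) i t x - VP H b (n + 1) i t x
        = -∫ s in (0 : ℝ)..t, P (t - s) (gG H (fun i j y => FP H b (n + 1) i j s y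
            - FP H b n i j s y) i) x := by
      rw [VP_succ, VP_succ]
      unfold DD
      have e1 : ∀ s, P (t - s) (gG H (fun i j y => FP H b (n + 1) i j s y - FP H b n i j s y) i) x
          = P (t - s) (gG H (fun i j => FP H b (n + 1) i j s) i) x
            - P (t - s) (gG H (fun i j => FP H b n i j s) i) x := by
        intro s
        rw [gG_sub (fun i j => (FP_jj hb (n + 1) i j).sp s) (fun i j => (FP_jj hb n i j).sp s)]
        exact P_sub (gG_sp (fun i j => (FP_jj hb (n + 1) i j).sp s) i)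
          (gG_sp (fun i j => (FP_jj hb n i j).sp s) i) _ x
      simp_rw [e1]
      rw [intervalIntegral.integral_sub
        ((DD_ii (gG_jj (F := FP H b (n + 1)) (FP_jj hb (n + 1)) H i) t x).intervalIntegrable _ _)
        ((DD_ii (gG_jj (F := FP H b n) (FP_jj hb n) H i) t x).intervalIntegrable _ _)]
      ring
    have hd0 : 0 ≤ B / 2 ^ n := by positivity
    have h2 := DDg_bd (F := fun i j s y => FP H b (n + 1) i j s y - FP H b n i j s y)
      (fun i j => (FP_jj hb (n + 1) i j).sub (FP_jj hb n i j)) (M := 4 * B * (B / 2 ^ n)) hH ht.1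
      (fun s hs' i j x => by
        have hs2 : s ∈ Icc 0 t₀ := ⟨hs'.1.le, hs'.2.le.trans ht.2⟩
        exact FP_diff hb hB hH hs hs2 (ih s hs2) i j x) i x
    rw [sub_zero] at h2
    have h3 : √t ≤ √t₀ := Real.sqrt_le_sqrt ht.2
    have h4 : 78 * (4 * B * (B / 2 ^ n)) * √t ≤ B / 2 ^ (n + 1) := by
      calc 78 * (4 * B * (B / 2 ^ n)) * √t ≤ 78 * (4 * B * (B / 2 ^ n)) * √t₀ := by gcongr
        _ = (640 * B * √t₀) * (B / 2 ^ n) * (312 / 640) := by ring
        _ ≤ 1 * (B / 2 ^ n) * (312 / 640) := by gcongr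
        _ ≤ (B / 2 ^ n) * (1 / 2) := by linarith
        _ = B / 2 ^ (n + 1) := by
            rw [pow_succ]
            field_simp
    rw [e, abs_neg]
    exact h2.trans h4

lemma FP_err (hb : ∀ i, SP (b i)) (hB : ∀ i x, |b i x| ≤ B) (hH : 0 ≤ H)
    (hs : 640 * B * √t₀ ≤ 1) (n : ℕ) {t : ℝ} (ht : t ∈ Icc 0 t₀) (i j : Fin 3) (x : V) :
    |FP H b (n + 1) i j t x - FP H b n i j t x| ≤ 4 * B ^ 2 / 2 ^ n := by
  have h := FP_diff hb hB hH hs ht (VP_diff hb hB hH hs n t ht) i j x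
  refine h.trans (le_of_eq ?_)
  ring

/-- The derivatives. -/
lemma pd_VP (hb : ∀ i, SP (b i)) (n : ℕ) (i m : Fin 3) (t : ℝ) (x : V) :
    pd m (VP H b (n + 1) i t) x = P t (pd m (b i)) x
      - DD (fun s => gG H (fun i j => pd m (FP H b n i j s)) i) t x := by
  have e : VP H b (n + 1) i t = fun x => P t (b i) x
      - DD (fun s => gG H (fun i j => FP H b n i j s) i) t x := rfl
  have hg := gG_jj (F := FP H b n) (FP_jj hb n) H i
  rw [e, pd_sub (P_sp' (hb i) t) (hg.DD.sp t), pd_P' (hb i), pd_DD hg]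
  have e2 : (fun s => pd m (gG H (fun i j => FP H b n i j s) i))
      = fun s => gG H (fun i j => pd m (FP H b n i j s)) i := by
    funext s
    exact pd_gG (fun i j => (FP_jj hb n i j).sp s) i m
  rw [e2]

lemma VP_grad (hb : ∀ i, SP (b i)) (hB : ∀ i x, |b i x| ≤ B) (hH : 0 ≤ H)
    (hs : 640 * B * √t₀ ≤ 1) (n : ℕ) : ∀ t ∈ Ioc 0 t₀, ∀ i m x,
      |pd m (VP H b n i t) x| ≤ 4 * B * (√t)⁻¹ := by
  have hB0 : 0 ≤ B := (abs_nonneg _).trans (hB 0 0)
  induction n with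
  | zero =>
    intro t ht i m x
    have e : VP H b 0 i t = P t (b i) := rfl
    rw [e, pd_P' (hb i)]
    have h1 := P_grad (hb i) ht.1 (hB i) m x
    have hle : (√(2 * t))⁻¹ ≤ (√t)⁻¹ :=
      inv_anti₀ (Real.sqrt_pos.2 ht.1) (Real.sqrt_le_sqrt (by linarith [ht.1]))
    have h2 : 0 ≤ (√t)⁻¹ := by positivity
    nlinarith
  | succ n ih =>
    intro t ht i m x
    have ht2 : 0 < t / 2 := by linarith [ht.1]
    have htt : t - t / 2 = t / 2 := by ring
    have hjj : JJ (fun s => gG H (fun i j => pd m (FP H b n i j s)) i) :=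
      gG_jj (F := fun i j s => pd m (FP H b n i j s)) (fun i j => (FP_jj hb n i j).pd m) H i
    have e1 : pd m (VP H b (n + 1) i t) x = P (t / 2) (pd m (VP H b (n + 1) i (t / 2))) x
        - ∫ s in (t / 2)..t, P (t - s) (gG H (fun i j => pd m (FP H b n i j s)) i) x := by
      rw [pd_VP hb, DD_split hjj ht2.le (by linarith) x, htt]
      have e2 : pd m (VP H b (n + 1) i (t / 2)) = fun x => P (t / 2) (pd m (b i)) x
          - DD (fun s => gG H (fun i j => pd m (FP H b n i j s)) i) (t / 2) x :=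
        funext fun x => pd_VP hb n i m (t / 2) x
      rw [e2, P_sub (P_sp' ((hb i).pd m) _) (hjj.DD.sp _), P_add_time ((hb i).pd m) ht2.le ht2.le]
      rw [show t / 2 + t / 2 = t by ring]
      ring
    have h1 := P_grad ((VP_jj hb (n + 1) i).sp (t / 2)) ht2
      (VP_bd hb hB hH hs (n + 1) (t / 2) ⟨ht2.le, by linarith [ht.2]⟩ i) m x
    rw [show 2 * (t / 2) = t by ring] at h1
    obtain ⟨a, ha⟩ : ∃ a, a = (√(t / 2))⁻¹ := ⟨_, rfl⟩
    have ha0 : 0 < a := by rw [ha]; exact inv_pos.2 (Real.sqrt_pos.2 ht2)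
    have h2 := DDg_bd (F := fun i j s => pd m (FP H b n i j s))
      (fun i j => (FP_jj hb n i j).pd m) (M := 16 * B ^ 2 * a) hH (by linarith : t / 2 ≤ t)
      (fun s hs' i j x => by
        have hs0 : 0 < s := ht2.trans hs'.1
        have hs2 : s ∈ Icc 0 t₀ := ⟨hs0.le, hs'.2.le.trans ht.2⟩
        have hs3 : s ∈ Ioc 0 t₀ := ⟨hs0, hs'.2.le.trans ht.2⟩
        have e3 : pd m (FP H b n i j s) x = pd m (VP H b n i s) x * VP H b n j s x
            + VP H b n i s x * pd m (VP H b n j s) x := by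
          have e4 : FP H b n i j s = fun y => VP H b n i s y * VP H b n j s y := rfl
          rw [e4, pd_mul ((VP_jj hb n i).sp s) ((VP_jj hb n j).sp s)]
          ring
        have hle : (√s)⁻¹ ≤ a := by
          rw [ha]
          exact inv_anti₀ (Real.sqrt_pos.2 ht2) (Real.sqrt_le_sqrt hs'.1.le)
        have g1 : ∀ i, |pd m (VP H b n i s) x| ≤ 4 * B * a := fun i =>
          (ih s hs3 i m x).trans (mul_le_mul_of_nonneg_left hle (by linarith))
        rw [e3]
        refine (abs_add_le _ _).trans ?_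
        rw [abs_mul, abs_mul]
        have g2 := mul_le_mul (g1 i) (VP_bd hb hB hH hs n s hs2 j x) (abs_nonneg _) (by positivity)
        have g3 := mul_le_mul (VP_bd hb hB hH hs n s hs2 i x) (g1 j) (abs_nonneg _) (by positivity)
        linarith) i x
    rw [htt] at h2
    have h3 : 78 * (16 * B ^ 2 * a) * √(t / 2) = 1248 * B ^ 2 := by
      have : a * √(t / 2) = 1 := by
        rw [ha]
        exact inv_mul_cancel₀ (Real.sqrt_pos.2 ht2).ne'
      calc 78 * (16 * B ^ 2 * a) * √(t / 2) = 1248 * B ^ 2 * (a * √(t / 2)) := by ring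
        _ = _ := by rw [this, mul_one]
    rw [h3] at h2
    have hst : 0 < √t := Real.sqrt_pos.2 ht.1
    have h4 : 1248 * B ^ 2 ≤ 2 * B * (√t)⁻¹ := by
      have h5 : √t ≤ √t₀ := Real.sqrt_le_sqrt ht.2
      have h6 : 640 * B * √t ≤ 1 := by
        calc 640 * B * √t ≤ 640 * B * √t₀ := by gcongr
          _ ≤ 1 := hs
      rw [← div_eq_mul_inv, le_div_iff₀ hst]
      nlinarith
    rw [e1]
    refine (abs_sub _ _).trans ?_
    linarith

/-- The equation. -/
lemma VP_t (hb : ∀ i, SP (b i)) (n : ℕ) (i : Fin 3) {t : ℝ} (ht : 0 < t) (x : V) :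
    HasDerivAt (fun t => VP H b (n + 1) i t x) (lap (VP H b (n + 1) i t) x
      - gG H (fun i j => FP H b n i j t) i x) t := by
  have hg := gG_jj (F := FP H b n) (FP_jj hb n) H i
  have h1 := (P_t (hb i) ht x).sub (DD_t hg ht x)
  have e : VP H b (n + 1) i t = fun x => P t (b i) x
      - DD (fun s => gG H (fun i j => FP H b n i j s) i) t x := rfl
  have e2 : lap (VP H b (n + 1) i t) x = P t (lap (b i)) x
      - DD (fun s => lap (gG H (fun i j => FP H b n i j s) i)) t x := by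
    rw [e, lap_sub (P_sp' (hb i) t) (hg.DD.sp t), lap_P' (hb i), lap_DD hg]
  rw [e2]
  refine h1.congr_deriv ?_
  ring

/-- The error of the divergence. -/
noncomputable def er (H : ℝ) (b : Fin 3 → V → ℝ) (n : ℕ) : ℝ → V → ℝ :=
  DD (fun s => P H (dd2 fun i j => FP H b n i j s))

lemma JJ.PH {g : ℝ → V → ℝ} (hg : JJ g) (H : ℝ) : JJ (fun s => P H (g s)) := by
  refine ⟨fun s => P_sp' (hg.sp s) H, fun l => ?_⟩
  have e : (fun z : ℝ × V => Run7.h219.SL.pdl l (P H (g z.1)) z.2)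
      = fun z => P H (Run7.h219.SL.pdl l (g z.1)) z.2 := by
    funext z
    rw [pdl_P l (hg.sp _)]
  rw [e]
  exact (hg.pdl l).P_cont.comp (by fun_prop : Continuous fun z : ℝ × V => ((H, z.1, z.2) : ℝ × ℝ × V))

lemma er_jj0 (hb : ∀ i, SP (b i)) (n : ℕ) : JJ (fun s => P H (dd2 fun i j => FP H b n i j s)) := by
  have h1 : JJ (fun s => dd2 fun i j => FP H b n i j s) :=
    JJ.sum fun j _ => JJ.sum fun k _ => ((FP_jj hb n j k).pd k).pd j
  exact h1.PH H

lemma er_sp (hb : ∀ i, SP (b i)) (n : ℕ) (t : ℝ) : SP (er H b n t) := (er_jj0 hb n).DD.sp t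

/-- The divergence of Picard's iterates. -/
lemma VP_div (hb : ∀ i, SP (b i)) (hH : 0 ≤ H) (n : ℕ) (t : ℝ) (x : V) :
    ∑ i, pd i (VP H b (n + 1) i t) x = P t (d0 b) x - er H b n t x := by
  have e : ∀ i, pd i (VP H b (n + 1) i t) x = P t (pd i (b i)) x
      - DD (fun s => pd i (gG H (fun i j => FP H b n i j s) i)) t x := by
    intro i
    have e : VP H b (n + 1) i t = fun x => P t (b i) x
        - DD (fun s => gG H (fun i j => FP H b n i j s) i) t x := rfl
    have hg := gG_jj (F := FP H b n) (FP_jj hb n) H i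
    rw [e, pd_sub (P_sp' (hb i) t) (hg.DD.sp t), pd_P' (hb i), pd_DD hg]
  simp_rw [e]
  rw [Finset.sum_sub_distrib, ← DD_sum (S := Finset.univ)
    (g := fun i s => pd i (gG H (fun i j => FP H b n i j s) i))
    (fun i _ => (gG_jj (F := FP H b n) (FP_jj hb n) H i).pd i)]
  congr 1
  · exact (P_sum (fun i _ => (hb i).pd i) t x).symm
  · unfold er DD
    congr 1
    funext s
    congr 1
    funext y
    exact div_gG (fun i j => (FP_jj hb n i j).sp s) hH y

end

end Run7.h219.SL
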