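import Pool.Agent.Run7.h219.SL.Heat2

/-!
Time integrals of the heat semigroup and the bound of third derivatives.
-/

set_option autoImplicit false

open MeasureTheory Set Filter Topology ProbabilityTheory
open scoped ContDiff NNReal

namespace Run7.h219.SL

open H459R3.NS

/-- The time integral. -/
noncomputable def hh (a b : ℝ) (f : V → ℝ) (x : V) : ℝ := ∫ s in a..b, P s f x

section

variable {f : V → ℝ}

lemma P_cont_t (hf : SP f) (x : V) : Continuous fun s => P s f x :=
  (P_cont hf).comp (continuous_id.prodMk continuous_const)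

lemma hh_ii (hf : SP f) (x : V) (a b : ℝ) : IntervalIntegrable (fun s => P s f x) volume a b :=
  (P_cont_t hf x).intervalIntegrable _ _

lemma hh_cont (hf : SP f) (a b : ℝ) : Continuous (hh a b f) := by
  unfold hh
  exact intervalIntegral.continuous_parametric_intervalIntegral_of_continuous'
    (f := fun x s => P s f x) ((P_cont hf).comp (continuous_snd.prodMk continuous_fst)) a b

lemma hh_per (hf : SP f) (a b : ℝ) : Per (hh a b f) := by
  intro i x
  unfold hh
  congr 1
  funext s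
  exact P_per hf s i x

lemma hh_x (hf : SP f) {a b : ℝ} (ha : 0 < a) (hab : a ≤ b) (x : V) :
    HasFDerivAt (hh a b f) (∑ j, hh a b (pd j f) x • ContinuousLinearMap.proj (R := ℝ)
      (φ := fun _ : Fin 3 => ℝ) j) x := by
  choose B hB0 hB using fun j => spb (hf.pd j)
  have hle : ∀ s ∈ Set.uIoc a b, 0 < s := by
    intro s hs
    rw [uIoc_of_le hab] at hs
    exact ha.trans hs.1
  have hpn : ∀ j : Fin 3, ‖ContinuousLinearMap.proj (R := ℝ) (φ := fun _ : Fin 3 => ℝ) j‖ ≤ 1 := by
    intro j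
    refine ContinuousLinearMap.opNorm_le_bound _ zero_le_one fun y => ?_
    rw [one_mul]
    exact norm_le_pi_norm y j
  have hc : ∀ y : V, Continuous fun s => ∑ j, P s (pd j f) y • ContinuousLinearMap.proj (R := ℝ)
      (φ := fun _ : Fin 3 => ℝ) j := fun y =>
    continuous_finsetSum _ fun j _ => (P_cont_t (hf.pd j) y).smul continuous_const
  have key := intervalIntegral.hasFDerivAt_integral_of_dominated_of_fderiv_le (𝕜 := ℝ) (μ := volume)
    (a := a) (b := b) (F := fun y s => P s f y) (x₀ := x)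
    (F' := fun y s => ∑ j, P s (pd j f) y • ContinuousLinearMap.proj (R := ℝ)
      (φ := fun _ : Fin 3 => ℝ) j) (bound := fun _ => ∑ j, B j) (s := univ) Filter.univ_mem
    (Eventually.of_forall fun y => (P_cont_t hf y).aestronglyMeasurable)
    (hh_ii hf x a b) (hc x).aestronglyMeasurable
    (ae_of_all _ fun s _ y _ => ?_) intervalIntegrable_const
    (ae_of_all _ fun s hs y _ => P_x hf (hle s hs) y)
  · refine key.congr_fderiv ?_
    have hi : ∀ j ∈ (Finset.univ : Finset (Fin 3)), IntervalIntegrable (fun s => P s (pd j f) x •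
        ContinuousLinearMap.proj (R := ℝ) (φ := fun _ : Fin 3 => ℝ) j) volume a b := by
      intro j _
      have h1 : Continuous (fun s => P s (pd j f) x •
        ContinuousLinearMap.proj (R := ℝ) (φ := fun _ : Fin 3 => ℝ) j) :=
        (P_cont_t (hf.pd j) x).smul continuous_const
      exact h1.intervalIntegrable _ _
    rw [intervalIntegral.integral_finsetSum hi]
    refine Finset.sum_congr rfl fun j _ => ?_
    rw [intervalIntegral.integral_smul_const]
    rfl
  · refine (norm_sum_le _ _).trans (Finset.sum_le_sum fun j _ => ?_)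
    rw [norm_smul, Real.norm_eq_abs]
    calc |P s (pd j f) y| * ‖ContinuousLinearMap.proj (R := ℝ) (φ := fun _ : Fin 3 => ℝ) j‖
        ≤ B j * 1 := mul_le_mul (P_abs s y (hB j)) (hpn j) (norm_nonneg _) (hB0 j)
      _ = B j := mul_one _

lemma pd_hh (hf : SP f) {a b : ℝ} (ha : 0 < a) (hab : a ≤ b) (j : Fin 3) :
    pd j (hh a b f) = hh a b (pd j f) := by
  funext x
  unfold pd
  rw [(hh_x hf ha hab x).fderiv]
  simp only [sum_apply, smul_apply, ContinuousLinearMap.proj_apply, smul_eq_mul]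
  rw [Finset.sum_eq_single j]
  · rw [Pi.single_eq_same, mul_one]
    rfl
  · intro i _ hij
    rw [Pi.single_eq_of_ne hij, mul_zero]
  · intro h
    exact absurd (Finset.mem_univ j) h

lemma hh_smooth_nat {a b : ℝ} (ha : 0 < a) (hab : a ≤ b) (n : ℕ) : ∀ f : V → ℝ, SP f →
    ContDiff ℝ n (hh a b f) := by
  induction n with
  | zero =>
    intro f hf
    rw [Nat.cast_zero, contDiff_zero]
    exact hh_cont hf a b
  | succ n ih =>
    intro f hf
    rw [Nat.cast_succ, contDiff_succ_iff_fderiv]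
    refine ⟨fun x => (hh_x hf ha hab x).differentiableAt, ?_, ?_⟩
    · intro h
      exact absurd h (by exact_mod_cast WithTop.coe_ne_top)
    · have h1 : ContDiff ℝ n (fun x => ∑ j, hh a b (pd j f) x • ContinuousLinearMap.proj (R := ℝ)
          (φ := fun _ : Fin 3 => ℝ) j) :=
        ContDiff.sum fun j _ => (ih _ (hf.pd j)).smul contDiff_const
      have e : fderiv ℝ (hh a b f) = fun x => ∑ j, hh a b (pd j f) x • ContinuousLinearMap.proj
          (R := ℝ) (φ := fun _ : Fin 3 => ℝ) j := funext fun x => (hh_x hf ha hab x).fderiv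
      rw [e]
      exact h1

lemma hh_sp (hf : SP f) {a b : ℝ} (ha : 0 < a) (hab : a ≤ b) : SP (hh a b f) :=
  ⟨contDiff_infty.2 fun n => hh_smooth_nat ha hab n f hf, hh_per hf a b⟩

lemma hh_sum {ι : Type*} {s : Finset ι} {f : ι → V → ℝ} (hf : ∀ i ∈ s, SP (f i)) (a b : ℝ) (x : V) :
    hh a b (fun y => ∑ i ∈ s, f i y) x = ∑ i ∈ s, hh a b (f i) x := by
  unfold hh
  simp_rw [P_sum hf]
  exact intervalIntegral.integral_finsetSum fun i hi => hh_ii (hf i hi) x a b

lemma lap_hh (hf : SP f) {a b : ℝ} (ha : 0 < a) (hab : a ≤ b) (x : V) :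
    lap (hh a b f) x = P b f x - P a f x := by
  have h1 : lap (hh a b f) x = hh a b (lap f) x := by
    have e : hh a b (lap f) x = ∑ j, hh a b (pd j (pd j f)) x := by
      unfold lap
      exact hh_sum (fun j _ => (hf.pd j).pd j) a b x
    rw [e]
    unfold lap
    refine Finset.sum_congr rfl fun j _ => ?_
    rw [pd_hh hf ha hab, pd_hh (hf.pd j) ha hab]
  rw [h1]
  unfold hh
  refine intervalIntegral.integral_eq_sub_of_hasDerivAt (f := fun s => P s f x) (fun s hs => ?_)
    (hh_ii hf.lap x a b)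
  rw [uIcc_of_le hab] at hs
  exact P_t hf (ha.trans_le hs.1) x

/-- The third derivatives. -/
lemma P_third (hf : SP f) {s : ℝ} (hs : 0 < s) {B : ℝ} (hB : ∀ x, |f x| ≤ B) (i j k : Fin 3) (x : V) :
    |P s (pd i (pd j (pd k f))) x| ≤ 2 * B * ((√s)⁻¹ / s) := by
  have h3 : 0 < s / 3 := by positivity
  have hB0 : 0 ≤ B := (abs_nonneg _).trans (hB 0)
  obtain ⟨c, hc⟩ : ∃ c, c = (√(2 * (s / 3)))⁻¹ := ⟨_, rfl⟩
  have hc0 : 0 ≤ c := by rw [hc]; positivity
  have b1 : ∀ x, |P (s / 3) (pd k f) x| ≤ c * B := fun x => by rw [hc]; exact P_grad hf h3 hB k x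
  have b2 : ∀ x, |P (s / 3) (pd j (P (s / 3) (pd k f))) x| ≤ c * (c * B) := fun x => by
    conv_rhs => rw [hc]
    rw [← hc]
    have := P_grad (P_sp (hf.pd k) h3.le) h3 b1 j x
    rwa [← hc] at this
  have b3 : ∀ x, |P (s / 3) (pd i (P (s / 3) (pd j (P (s / 3) (pd k f))))) x| ≤ c * (c * (c * B)) :=
    fun x => by
      have := P_grad (P_sp ((P_sp (hf.pd k) h3.le).pd j) h3.le) h3 b2 i x
      rwa [← hc] at this
  have e1 : P s (pd i (pd j (pd k f))) x = P (s / 3) (pd i (P (s / 3) (pd j (P (s / 3) (pd k f))))) x := by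
    rw [pd_P (hf.pd k) h3.le j]
    have q1 : P (s / 3) (P (s / 3) (pd j (pd k f))) = P (s / 3 + s / 3) (pd j (pd k f)) :=
      funext fun y => P_add_time ((hf.pd k).pd j) h3.le h3.le y
    rw [q1, pd_P ((hf.pd k).pd j) (by positivity) i, P_add_time (((hf.pd k).pd j).pd i) h3.le (by positivity)]
    congr 1
    ring
  rw [e1]
  refine (b3 x).trans ?_
  have h6 : c * (c * (c * B)) = c ^ 2 * c * B := by ring
  have h7 : c ^ 2 = 3 / 2 / s := by
    rw [hc, inv_pow, Real.sq_sqrt (by positivity)]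
    field_simp
  have h8 : c ≤ 5 / 4 * (√s)⁻¹ := by
    rw [hc]
    have h9 : 4 / 5 * √s ≤ √(2 * (s / 3)) := by
      apply Real.le_sqrt_of_sq_le
      rw [mul_pow, Real.sq_sqrt hs.le]
      linarith
    have h10 : 0 < 4 / 5 * √s := by positivity
    calc (√(2 * (s / 3)))⁻¹ ≤ (4 / 5 * √s)⁻¹ := inv_anti₀ h10 h9
      _ = _ := by rw [mul_inv]; norm_num
  rw [h6, h7]
  calc 3 / 2 / s * c * B ≤ 3 / 2 / s * (5 / 4 * (√s)⁻¹) * B := by gcongr
    _ = 15 / 8 * B * ((√s)⁻¹ / s) := by ring
    _ ≤ 2 * B * ((√s)⁻¹ / s) := by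
        gcongr
        norm_num

lemma int_pow {a b : ℝ} (ha : 0 < a) (hab : a ≤ b) :
    ∫ s in a..b, (√s)⁻¹ / s = 2 * (√a)⁻¹ - 2 * (√b)⁻¹ := by
  have h : ∀ s ∈ Set.uIcc a b, HasDerivAt (fun s => -(2 * (√s)⁻¹)) ((√s)⁻¹ / s) s := by
    intro s hs
    rw [uIcc_of_le hab] at hs
    have hs0 : 0 < s := ha.trans_le hs.1
    have h1 := (Real.hasDerivAt_sqrt hs0.ne').inv (Real.sqrt_pos.2 hs0).ne'
    refine (h1.const_mul 2).neg.congr_deriv ?_
    rw [Real.sq_sqrt hs0.le]
    field_simp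
  have hc : ContinuousOn (fun s : ℝ => (√s)⁻¹ / s) (Set.uIcc a b) := by
    intro s hs
    rw [uIcc_of_le hab] at hs
    have hs0 : 0 < s := ha.trans_le hs.1
    exact ((Real.continuous_sqrt.continuousAt.inv₀ (Real.sqrt_pos.2 hs0).ne').div continuousAt_id
      hs0.ne').continuousWithinAt
  rw [intervalIntegral.integral_eq_sub_of_hasDerivAt h hc.intervalIntegrable]
  ring

lemma hh_third (hf : SP f) {a b : ℝ} (ha : 0 < a) (hab : a ≤ b) {B : ℝ} (hB : ∀ x, |f x| ≤ B)
    (i j k : Fin 3) (x : V) : |hh a b (pd i (pd j (pd k f))) x| ≤ 4 * B * (√a)⁻¹ := by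
  have hB0 : 0 ≤ B := (abs_nonneg _).trans (hB 0)
  have hc : ContinuousOn (fun s : ℝ => 2 * B * ((√s)⁻¹ / s)) (Set.uIcc a b) := by
    intro s hs
    rw [uIcc_of_le hab] at hs
    have hs0 : 0 < s := ha.trans_le hs.1
    exact (continuousAt_const.mul ((Real.continuous_sqrt.continuousAt.inv₀
      (Real.sqrt_pos.2 hs0).ne').div continuousAt_id hs0.ne')).continuousWithinAt
  have h1 : ‖∫ s in a..b, P s (pd i (pd j (pd k f))) x‖ ≤ ∫ s in a..b, 2 * B * ((√s)⁻¹ / s) := by
    refine intervalIntegral.norm_integral_le_of_norm_le hab ?_ hc.intervalIntegrable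
    exact ae_of_all _ fun s hs => by
      rw [Real.norm_eq_abs]
      exact P_third hf (ha.trans hs.1) hB i j k x
  rw [Real.norm_eq_abs] at h1
  refine h1.trans ?_
  rw [intervalIntegral.integral_const_mul, int_pow ha hab]
  have h2 : 0 ≤ (√b)⁻¹ := by positivity
  nlinarith

end

end Run7.h219.SL
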